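import Pool.Agent.Lib.MP_41a456_al.Defs

section

/-!
# The killing lemma (paper 331, section 0)
-/

namespace Pool.Agent.Lib.MP_41a456_al

/-- One killing step `b ↦ α_* b - β_* b`. -/
theorem kill_step {M K : Type*} [Field K] (b : M →₀ K) (α β : Equiv.Perm M) (S : Set M)
    (hα : ∀ X, X ∈ S ↔ α X ∈ S) (hβ : ∀ X, X ∈ S ↔ β X ∈ S)
    (horb : ∀ X ∈ S, ∀ m : ℕ, 1 ≤ m → ((β⁻¹ * α) ^ m) X ≠ X)
    {X0 : M} (h0 : X0 ∈ S) (hb : b X0 ≠ 0) :
    (∃ X ∈ S, (b.mapDomain α - b.mapDomain β) X ≠ 0) ∧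
    ∀ X, (b.mapDomain α - b.mapDomain β) X ≠ 0 →
      ∃ Y, b Y ≠ 0 ∧ α Y ≠ β Y ∧ (X = α Y ∨ X = β Y) := by
  have happ : ∀ X, (b.mapDomain α - b.mapDomain β) X = b (α.symm X) - b (β.symm X) := by
    intro X
    rw [Finsupp.sub_apply, Finsupp.mapDomain_equiv_apply, Finsupp.mapDomain_equiv_apply]
  refine ⟨?_, ?_⟩
  · by_contra hcon
    push Not at hcon
    have h1 : ∀ X ∈ S, b ((β⁻¹ * α) X) = b X := by
      intro X hX
      have h2 := hcon (α X) ((hα X).1 hX)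
      rw [happ, Equiv.symm_apply_apply, sub_eq_zero] at h2
      exact h2.symm
    have hS : ∀ X ∈ S, (β⁻¹ * α) X ∈ S := by
      intro X hX
      have h2 : β ((β⁻¹ * α) X) = α X := by
        rw [Equiv.Perm.mul_apply]
        exact β.apply_symm_apply (α X)
      rw [hβ, h2]
      exact (hα X).1 hX
    have h3 : ∀ m : ℕ, ((β⁻¹ * α) ^ m) X0 ∈ S ∧ b (((β⁻¹ * α) ^ m) X0) = b X0 := by
      intro m
      induction m with
      | zero => exact ⟨h0, rfl⟩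
      | succ m ih =>
        rw [pow_succ', Equiv.Perm.mul_apply]
        exact ⟨hS _ ih.1, by rw [h1 _ ih.1, ih.2]⟩
    have hinj : Function.Injective fun m : ℕ => ((β⁻¹ * α) ^ m) X0 := by
      have key : ∀ i j : ℕ, i < j → ((β⁻¹ * α) ^ i) X0 ≠ ((β⁻¹ * α) ^ j) X0 := by
        intro i j hij heq
        obtain ⟨k, rfl⟩ : ∃ k, j = i + k := ⟨j - i, by omega⟩
        rw [pow_add, Equiv.Perm.mul_apply] at heq
        have h4 := ((β⁻¹ * α) ^ i).injective heq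
        exact horb X0 h0 k (by omega) h4.symm
      intro i j hij
      rcases lt_trichotomy i j with h | h | h
      · exact absurd hij (key i j h)
      · exact h
      · exact absurd hij.symm (key j i h)
    have hmem : ∀ m : ℕ, ((β⁻¹ * α) ^ m) X0 ∈ (b.support : Set M) := by
      intro m
      rw [Finset.mem_coe, Finsupp.mem_support_iff, (h3 m).2]
      exact hb
    have hfin : (Set.range fun m : ℕ => ((β⁻¹ * α) ^ m) X0).Finite :=
      b.support.finite_toSet.subset (by rintro _ ⟨m, rfl⟩; exact hmem m)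
    exact Set.infinite_range_of_injective hinj hfin
  · intro X hX
    rw [happ] at hX
    have hne : α.symm X ≠ β.symm X := by
      intro h
      rw [h, sub_self] at hX
      exact hX rfl
    by_cases h1 : b (α.symm X) = 0
    · have h2 : b (β.symm X) ≠ 0 := by
        intro h2
        rw [h1, h2, sub_self] at hX
        exact hX rfl
      refine ⟨β.symm X, h2, ?_, Or.inr (β.apply_symm_apply X).symm⟩
      rw [β.apply_symm_apply]
      intro h3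
      exact hne ((Equiv.symm_apply_eq α).2 h3.symm)
    · refine ⟨α.symm X, h1, ?_, Or.inl (α.apply_symm_apply X).symm⟩
      rw [α.apply_symm_apply]
      intro h3
      exact hne ((Equiv.eq_symm_apply β).2 h3.symm)

/-- Killing lemma: the elements killed by one of the pairs are removed from the support. -/
theorem kill {M K : Type*} [Field K] (J : Submodule K (M →₀ K)) (Q : M → M → Prop)
    (hQ0 : ∀ X, Q X X) (l : List (Equiv.Perm M × Equiv.Perm M))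
    (hJ : ∀ p ∈ l, ∀ b ∈ J, b.mapDomain p.1 ∈ J ∧ b.mapDomain p.2 ∈ J)
    (hZ : ∀ p ∈ l, ∀ q ∈ l, ∀ X, (p.1 X = p.2 X ↔ p.1 (q.1 X) = p.2 (q.1 X)) ∧
      (p.1 X = p.2 X ↔ p.1 (q.2 X) = p.2 (q.2 X)))
    (horb : ∀ p ∈ l, ∀ X, p.1 X ≠ p.2 X → ∀ m : ℕ, 1 ≤ m → ((p.2⁻¹ * p.1) ^ m) X ≠ X)
    (hQ : ∀ p ∈ l, ∀ Y X, Q Y X → Q Y (p.1 X) ∧ Q Y (p.2 X))
    (b : M →₀ K) (hb : b ∈ J) (X0 : M) (h0 : b X0 ≠ 0) (hX0 : ∀ p ∈ l, p.1 X0 ≠ p.2 X0) :
    ∃ b' ∈ J, b' ≠ 0 ∧ ∀ X, b' X ≠ 0 → ∃ Y, b Y ≠ 0 ∧ (∀ p ∈ l, p.1 Y ≠ p.2 Y) ∧ Q Y X := by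
  have key : ∀ l' : List (Equiv.Perm M × Equiv.Perm M), (∀ p ∈ l', p ∈ l) →
      ∃ b' ∈ J, (∃ X, b' X ≠ 0 ∧ ∀ p ∈ l, p.1 X ≠ p.2 X) ∧
        ∀ X, b' X ≠ 0 → ∃ Y, b Y ≠ 0 ∧ (∀ p ∈ l', p.1 Y ≠ p.2 Y) ∧ Q Y X ∧
          ∀ p ∈ l, (p.1 Y = p.2 Y ↔ p.1 X = p.2 X) := by
    intro l'
    induction l' with
    | nil =>
      intro _
      exact ⟨b, hb, ⟨X0, h0, hX0⟩, fun X hX => ⟨X, hX, by simp, hQ0 X, fun p _ => Iff.rfl⟩⟩
    | cons p l' ih =>
      intro hl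
      have hp : p ∈ l := hl p (List.mem_cons_self)
      obtain ⟨b1, hb1, ⟨X1, hX1, hX1'⟩, hs1⟩ := ih fun q hq => hl q (List.mem_cons_of_mem _ hq)
      obtain ⟨⟨X2, hX2, hX2'⟩, hs2⟩ := kill_step b1 p.1 p.2 {X | ∀ q ∈ l, q.1 X ≠ q.2 X}
        (fun X => forall_congr' fun q => forall_congr' fun hq => not_congr (hZ q hq p hp X).1)
        (fun X => forall_congr' fun q => forall_congr' fun hq => not_congr (hZ q hq p hp X).2)
        (fun X hX => horb p hp X (hX p hp)) hX1' hX1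
      refine ⟨b1.mapDomain p.1 - b1.mapDomain p.2,
        J.sub_mem (hJ p hp b1 hb1).1 (hJ p hp b1 hb1).2, ⟨X2, hX2', hX2⟩, ?_⟩
      intro X hX
      obtain ⟨Y', hY', hne, hXY⟩ := hs2 X hX
      obtain ⟨Y, hY, hYl, hQY, hiff⟩ := hs1 Y' hY'
      refine ⟨Y, hY, ?_, ?_, ?_⟩
      · intro q hq
        rcases List.mem_cons.1 hq with rfl | hq
        · exact fun h => hne ((hiff _ hp).1 h)
        · exact hYl q hq
      · rcases hXY with rfl | rfl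
        · exact (hQ p hp Y Y' hQY).1
        · exact (hQ p hp Y Y' hQY).2
      · intro q hq
        rcases hXY with rfl | rfl
        · exact (hiff q hq).trans (hZ q hq p hp Y').1
        · exact (hiff q hq).trans (hZ q hq p hp Y').2
  obtain ⟨b', hb', ⟨X, hX, _⟩, hs⟩ := key l fun _ h => h
  refine ⟨b', hb', ?_, fun X hX => ?_⟩
  · rintro rfl
    exact hX rfl
  · obtain ⟨Y, h1, h2, h3, _⟩ := hs X hX
    exact ⟨Y, h1, h2, h3⟩

end Pool.Agent.Lib.MP_41a456_al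
end

section

/-!
# Transvections (paper 331, section 1)
-/

namespace Pool.Agent.Lib.MP_41a456_al

open Matrix

variable {n : ℕ}

theorem killed_iff {v ψ w χ : Fin n → ℤ} (h : ψ ⬝ᵥ v = 0) (h' : χ ⬝ᵥ w = 0) (X : Mt n) :
    lp (tv v ψ h) X = rp (tv w χ h') X ↔ vecMulVec v (ψ ᵥ* X) = vecMulVec (X *ᵥ w) χ := by
  rw [lp_apply, rp_apply, tv_coe, tv_coe, Matrix.add_mul, Matrix.mul_add, Matrix.one_mul,
    Matrix.mul_one, vecMulVec_mul, mul_vecMulVec, add_right_inj]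

theorem tv_mul_coe {v ψ v' ψ' : Fin n → ℤ} (h : ψ ⬝ᵥ v = 0) (h' : ψ' ⬝ᵥ v' = 0)
    (h1 : ψ ⬝ᵥ v' = 0) :
    ((tv v ψ h * tv v' ψ' h' : SLn n) : Mt n) = 1 + vecMulVec v ψ + vecMulVec v' ψ' := by
  change (tv v ψ h : Mt n) * (tv v' ψ' h' : Mt n) = _
  rw [tv_coe, tv_coe]
  simp only [Matrix.add_mul, Matrix.mul_add, Matrix.one_mul, Matrix.mul_one,
    vecMulVec_mul_vecMulVec, h1, zero_smul, vecMulVec_zero, add_zero]

theorem tv_comm {v ψ v' ψ' : Fin n → ℤ} (h : ψ ⬝ᵥ v = 0) (h' : ψ' ⬝ᵥ v' = 0)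
    (h1 : ψ ⬝ᵥ v' = 0) (h2 : ψ' ⬝ᵥ v = 0) :
    tv v ψ h * tv v' ψ' h' = tv v' ψ' h' * tv v ψ h := by
  apply Subtype.ext
  rw [tv_mul_coe h h' h1, tv_mul_coe h' h h2]
  abel

theorem tv_pow_coe {v ψ : Fin n → ℤ} (h : ψ ⬝ᵥ v = 0) (m : ℕ) :
    ((tv v ψ h ^ m : SLn n) : Mt n) = 1 + (m : ℤ) • vecMulVec v ψ := by
  induction m with
  | zero => simp
  | succ m ih =>
    rw [pow_succ]
    change ((tv v ψ h ^ m : SLn n) : Mt n) * (tv v ψ h : Mt n) = _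
    rw [ih, tv_coe]
    simp only [Matrix.add_mul, Matrix.mul_add, Matrix.one_mul, Matrix.mul_one, Matrix.smul_mul,
      vecMulVec_mul_vecMulVec, h, zero_smul, vecMulVec_zero, smul_zero, add_zero]
    push_cast
    rw [add_smul, one_smul]
    abel

theorem lp_mul (g h : SLn n) : lp (g * h) = lp g * lp h := by
  ext1 X
  rw [Equiv.Perm.mul_apply, lp_apply, lp_apply, lp_apply, Matrix.SpecialLinearGroup.coe_mul,
    Matrix.mul_assoc]

theorem rp_mul (g h : SLn n) : rp (g * h) = rp h * rp g := by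
  ext1 X
  rw [Equiv.Perm.mul_apply, rp_apply, rp_apply, rp_apply, Matrix.SpecialLinearGroup.coe_mul,
    Matrix.mul_assoc]

theorem lp_rp (g h : SLn n) : lp g * rp h = rp h * lp g := by
  ext1 X
  rw [Equiv.Perm.mul_apply, Equiv.Perm.mul_apply, lp_apply, rp_apply, lp_apply, rp_apply,
    Matrix.mul_assoc]

theorem lp_pow (g : SLn n) (m : ℕ) : lp g ^ m = lp (g ^ m) := by
  induction m with
  | zero =>
    ext1 X
    rw [pow_zero, pow_zero, lp_apply, Matrix.SpecialLinearGroup.coe_one, Matrix.one_mul]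
    rfl
  | succ m ih => rw [pow_succ, ih, pow_succ, lp_mul]

theorem rp_pow (g : SLn n) (m : ℕ) : rp g ^ m = rp (g ^ m) := by
  induction m with
  | zero =>
    ext1 X
    rw [pow_zero, pow_zero, rp_apply, Matrix.SpecialLinearGroup.coe_one, Matrix.mul_one]
    rfl
  | succ m ih => rw [pow_succ', ih, pow_succ, rp_mul]

/-- the orbits of `X ↦ y X x⁻¹` off the killed elements are infinite -/
theorem orbit {v ψ w χ : Fin n → ℤ} (h : ψ ⬝ᵥ v = 0) (h' : χ ⬝ᵥ w = 0) (X : Mt n)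
    (hX : lp (tv v ψ h) X ≠ rp (tv w χ h') X) (m : ℕ) (hm : 1 ≤ m) :
    (((rp (tv w χ h'))⁻¹ * lp (tv v ψ h)) ^ m) X ≠ X := by
  intro heq
  have hc : Commute (rp (tv w χ h'))⁻¹ (lp (tv v ψ h)) :=
    Commute.inv_left (lp_rp (tv v ψ h) (tv w χ h')).symm
  rw [hc.mul_pow, Equiv.Perm.mul_apply, inv_pow] at heq
  have h1 : (lp (tv v ψ h) ^ m) X = (rp (tv w χ h') ^ m) X :=
    (Equiv.Perm.inv_eq_iff_eq.1 heq).trans rfl
  rw [lp_pow, rp_pow, lp_apply, rp_apply, tv_pow_coe, tv_pow_coe, Matrix.add_mul, Matrix.mul_add,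
    Matrix.one_mul, Matrix.mul_one, add_right_inj, Matrix.smul_mul, Matrix.mul_smul,
    vecMulVec_mul, mul_vecMulVec] at h1
  refine hX ((killed_iff h h' X).2 ?_)
  have hm0 : (m : ℤ) ≠ 0 := by
    have : 0 < m := hm
    exact_mod_cast this.ne'
  exact smul_right_injective _ hm0 h1

theorem stab_left {v ψ w χ v' ψ' : Fin n → ℤ} (h : ψ ⬝ᵥ v = 0) (h' : χ ⬝ᵥ w = 0)
    (hq : ψ' ⬝ᵥ v' = 0) (h1 : ψ ⬝ᵥ v' = 0) (h2 : ψ' ⬝ᵥ v = 0) (X : Mt n) :
    lp (tv v ψ h) X = rp (tv w χ h') X ↔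
      lp (tv v ψ h) (lp (tv v' ψ' hq) X) = rp (tv w χ h') (lp (tv v' ψ' hq) X) := by
  have e1 : lp (tv v ψ h) (lp (tv v' ψ' hq) X) = lp (tv v' ψ' hq) (lp (tv v ψ h) X) := by
    rw [← Equiv.Perm.mul_apply, ← lp_mul, tv_comm h hq h1 h2, lp_mul, Equiv.Perm.mul_apply]
  have e2 : rp (tv w χ h') (lp (tv v' ψ' hq) X) = lp (tv v' ψ' hq) (rp (tv w χ h') X) := by
    rw [← Equiv.Perm.mul_apply, ← lp_rp, Equiv.Perm.mul_apply]
  rw [e1, e2]
  exact (Equiv.apply_eq_iff_eq _).symm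

theorem stab_right {v ψ w χ w' χ' : Fin n → ℤ} (h : ψ ⬝ᵥ v = 0) (h' : χ ⬝ᵥ w = 0)
    (hq : χ' ⬝ᵥ w' = 0) (h1 : χ ⬝ᵥ w' = 0) (h2 : χ' ⬝ᵥ w = 0) (X : Mt n) :
    lp (tv v ψ h) X = rp (tv w χ h') X ↔
      lp (tv v ψ h) (rp (tv w' χ' hq) X) = rp (tv w χ h') (rp (tv w' χ' hq) X) := by
  have e1 : rp (tv w χ h') (rp (tv w' χ' hq) X) = rp (tv w' χ' hq) (rp (tv w χ h') X) := by
    rw [← Equiv.Perm.mul_apply, ← rp_mul, ← tv_comm h' hq h1 h2, rp_mul, Equiv.Perm.mul_apply]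
  have e2 : lp (tv v ψ h) (rp (tv w' χ' hq) X) = rp (tv w' χ' hq) (lp (tv v ψ h) X) := by
    rw [← Equiv.Perm.mul_apply, lp_rp, Equiv.Perm.mul_apply]
  rw [e1, e2]
  exact (Equiv.apply_eq_iff_eq _).symm

theorem dot_cast (ψ v : Fin n → ℤ) : qv ψ ⬝ᵥ qv v = ((ψ ⬝ᵥ v : ℤ) : ℚ) := by
  unfold dotProduct qv
  push_cast
  rfl

theorem dot_zero {ψ v : Fin n → ℤ} {V : Submodule ℚ (Fin n → ℚ)} (hv : qv v ∈ V)
    (hψ : Kills (qv ψ) V) : ψ ⬝ᵥ v = 0 := by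
  have h := hψ _ hv
  rw [dot_cast] at h
  exact_mod_cast h

theorem qm_mul (X Y : Mt n) : qm (X * Y) = qm X * qm Y :=
  Matrix.map_mul (f := Int.castRingHom ℚ)

theorem qm_one : qm (1 : Mt n) = 1 := by
  unfold qm
  exact Matrix.map_one _ Int.cast_zero Int.cast_one

theorem qm_add (X Y : Mt n) : qm (X + Y) = qm X + qm Y := by
  unfold qm
  ext i j
  simp

theorem qm_vecMulVec (v ψ : Fin n → ℤ) : qm (vecMulVec v ψ) = vecMulVec (qv v) (qv ψ) := by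
  unfold qm qv
  ext i j
  simp [vecMulVec_apply]

theorem qm_neg (X : Mt n) : qm (-X) = - qm X := by
  unfold qm
  ext i j
  simp

theorem qm_mulVec (X : Mt n) (v : Fin n → ℤ) : qm X *ᵥ qv v = qv (X *ᵥ v) := by
  funext i
  unfold qm qv mulVec dotProduct
  push_cast
  rfl

theorem qm_vecMul (X : Mt n) (v : Fin n → ℤ) : qv v ᵥ* qm X = qv (v ᵥ* X) := by
  funext i
  unfold qm qv vecMul dotProduct
  push_cast
  rfl

theorem qv_inj {v w : Fin n → ℤ} (h : qv v = qv w) : v = w := by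
  funext i
  have := congrFun h i
  unfold qv at this
  exact_mod_cast this

theorem qv_zero : qv (0 : Fin n → ℤ) = 0 := by
  funext i
  simp [qv]

theorem UF.one (V : Submodule ℚ (Fin n → ℚ)) : UF V (1 : SLn n) where
  fix u _ := by rw [Matrix.SpecialLinearGroup.coe_one, qm_one, one_mulVec]
  row ψ _ := by rw [Matrix.SpecialLinearGroup.coe_one, qm_one, vecMul_one]

theorem UF.mul {V : Submodule ℚ (Fin n → ℚ)} {g h : SLn n} (hg : UF V g) (hh : UF V h) :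
    UF V (g * h) where
  fix u hu := by
    rw [Matrix.SpecialLinearGroup.coe_mul, qm_mul, ← mulVec_mulVec, hh.fix u hu, hg.fix u hu]
  row ψ hψ := by
    rw [Matrix.SpecialLinearGroup.coe_mul, qm_mul, ← vecMul_vecMul, hg.row ψ hψ, hh.row ψ hψ]

theorem UF.tv {V : Submodule ℚ (Fin n → ℚ)} {v ψ : Fin n → ℤ} (hv : qv v ∈ V)
    (hψ : Kills (qv ψ) V) (h : ψ ⬝ᵥ v = 0) : UF V (tv v ψ h) where
  fix u hu := by
    rw [tv_coe, qm_add, qm_one, qm_vecMulVec, add_mulVec, one_mulVec, vecMulVec_mulVec, hψ u hu]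
    simp
  row χ hχ := by
    rw [tv_coe, qm_add, qm_one, qm_vecMulVec, vecMul_add, vecMul_one, vecMul_vecMulVec,
      hχ _ hv, zero_smul, add_zero]

end Pool.Agent.Lib.MP_41a456_al
end

section

/-!
# The killing lemma in the group (paper 331, section 1)
-/

namespace Pool.Agent.Lib.MP_41a456_al

open Matrix

variable {n : ℕ}

theorem Adm.dot {V0 V1 : Submodule ℚ (Fin n → ℚ)} {Y : Mt n} {v w ψ χ : Fin n → ℤ}
    (h : Adm V0 V1 Y v w ψ χ) : ψ ⬝ᵥ v = 0 := dot_zero h.hv h.hψ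

theorem Adm.dot' {V0 V1 : Submodule ℚ (Fin n → ℚ)} {Y : Mt n} {v w ψ χ : Fin n → ℤ}
    (h : Adm V0 V1 Y v w ψ χ) : χ ⬝ᵥ w = 0 := dot_zero h.hw h.hχ

/-- the pair of permutations of an admissible quadruple -/
noncomputable def prp {V0 V1 : Submodule ℚ (Fin n → ℚ)} {Y : Mt n} {v w ψ χ : Fin n → ℤ}
    (h : Adm V0 V1 Y v w ψ χ) : Equiv.Perm (Mt n) × Equiv.Perm (Mt n) :=
  (lp (tv v ψ h.dot), rp (tv w χ h.dot'))

theorem Adm.killed {V0 V1 : Submodule ℚ (Fin n → ℚ)} {Y : Mt n} {v w ψ χ : Fin n → ℤ}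
    (h : Adm V0 V1 Y v w ψ χ) : (prp h).1 Y = (prp h).2 Y := by
  unfold prp
  rw [killed_iff, h.ψy, h.yw]

/-- GK: killing all separable elements. -/
theorem GK {K : Type*} [Field K] {s : K} {J : Submodule K (Mt n →₀ K)} (hJ : Bi s J)
    (V0 V1 : Submodule ℚ (Fin n → ℚ)) {b : Mt n →₀ K} (hb : b ∈ J) {X0 : Mt n}
    (h0 : b X0 ≠ 0) :
    ∃ b' ∈ J, b' ≠ 0 ∧ ∀ X, b' X ≠ 0 → ∃ (Y : Mt n) (h h' : SLn n), b Y ≠ 0 ∧ UF V0 h ∧
      UF V1 h' ∧ X = (h : Mt n) * Y * (h' : Mt n) ∧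
      ∀ v w ψ χ, Adm V0 V1 Y v w ψ χ → vecMulVec v (ψ ᵥ* X0) = vecMulVec (X0 *ᵥ w) χ := by
  classical
  -- the chosen pairs
  let P : Mt n → Equiv.Perm (Mt n) × Equiv.Perm (Mt n) → Prop := fun Y p =>
    ∃ (v w ψ χ : Fin n → ℤ) (h : Adm V0 V1 Y v w ψ χ), p = prp h ∧ p.1 X0 ≠ p.2 X0
  let good : Finset (Mt n) := b.support.filter fun Y => ∃ p, P Y p
  let ch : Mt n → Equiv.Perm (Mt n) × Equiv.Perm (Mt n) := fun Y =>
    if h : ∃ p, P Y p then h.choose else (1, 1)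
  have hch : ∀ Y ∈ good, P Y (ch Y) := by
    intro Y hY
    have h : ∃ p, P Y p := (Finset.mem_filter.1 hY).2
    simp only [ch, dif_pos h]
    exact h.choose_spec
  let l : List (Equiv.Perm (Mt n) × Equiv.Perm (Mt n)) := good.toList.map ch
  have hl : ∀ p ∈ l, ∃ Y ∈ good, P Y p := by
    intro p hp
    obtain ⟨Y, hY, rfl⟩ := List.mem_map.1 hp
    exact ⟨Y, Finset.mem_toList.1 hY, hch Y (Finset.mem_toList.1 hY)⟩
  obtain ⟨b', hb', hne, hs⟩ := kill J (fun Y X => ∃ h h' : SLn n, UF V0 h ∧ UF V1 h' ∧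
      X = (h : Mt n) * Y * (h' : Mt n))
    (fun X => ⟨1, 1, UF.one V0, UF.one V1, by
      rw [Matrix.SpecialLinearGroup.coe_one, Matrix.one_mul, Matrix.mul_one]⟩) l
    (by
      intro p hp c hc
      obtain ⟨Y, _, v, w, ψ, χ, h, rfl, _⟩ := hl p hp
      exact ⟨hJ.left _ c hc, hJ.right _ c hc⟩)
    (by
      intro p hp q hq X
      obtain ⟨Y, _, v, w, ψ, χ, h, rfl, _⟩ := hl p hp
      obtain ⟨Y', _, v', w', ψ', χ', h', rfl, _⟩ := hl q hq
      exact ⟨stab_left h.dot h.dot' h'.dot (dot_zero h'.hv h.hψ) (dot_zero h.hv h'.hψ) X,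
        stab_right h.dot h.dot' h'.dot' (dot_zero h'.hw h.hχ) (dot_zero h.hw h'.hχ) X⟩)
    (by
      intro p hp X hX m hm
      obtain ⟨Y, _, v, w, ψ, χ, h, rfl, _⟩ := hl p hp
      exact orbit h.dot h.dot' X hX m hm)
    (by
      rintro p hp Y X ⟨g, g', hg, hg', rfl⟩
      obtain ⟨Y', _, v, w, ψ, χ, h, rfl, _⟩ := hl p hp
      refine ⟨⟨tv v ψ h.dot * g, g', (UF.tv h.hv h.hψ h.dot).mul hg, hg', ?_⟩,
        ⟨g, g' * tv w χ h.dot', hg, hg'.mul (UF.tv h.hw h.hχ h.dot'), ?_⟩⟩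
      · change (tv v ψ h.dot : Mt n) * ((g : Mt n) * Y * (g' : Mt n)) = _
        rw [Matrix.SpecialLinearGroup.coe_mul, Matrix.mul_assoc, Matrix.mul_assoc,
          Matrix.mul_assoc]
      · change ((g : Mt n) * Y * (g' : Mt n)) * (tv w χ h.dot' : Mt n) = _
        rw [Matrix.SpecialLinearGroup.coe_mul, Matrix.mul_assoc])
    b hb X0 h0
    (by
      intro p hp
      obtain ⟨Y, _, v, w, ψ, χ, h, _, hX0⟩ := hl p hp
      exact hX0)
  refine ⟨b', hb', hne, fun X hX => ?_⟩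
  obtain ⟨Y, hY, hYl, h, h', hh, hh', hXY⟩ := hs X hX
  refine ⟨Y, h, h', hY, hh, hh', hXY, ?_⟩
  intro v w ψ χ hA
  by_contra hcon
  have hex : ∃ p, P Y p := ⟨prp hA, v, w, ψ, χ, hA, rfl, by
    unfold prp
    rw [Ne, killed_iff]
    exact hcon⟩
  have hg : Y ∈ good := Finset.mem_filter.2 ⟨Finsupp.mem_support_iff.2 hY, hex⟩
  have hmem : ch Y ∈ l := List.mem_map.2 ⟨Y, Finset.mem_toList.2 hg, rfl⟩
  obtain ⟨v', w', ψ', χ', hA', he, _⟩ := hch Y hg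
  apply hYl _ hmem
  rw [he]
  exact hA'.killed

end Pool.Agent.Lib.MP_41a456_al
end

section

/-!
# Nested pairs of subspaces (paper 331, section 2)
-/

namespace Pool.Agent.Lib.MP_41a456_al

open Matrix

variable {n : ℕ}

/-- clearing denominators -/
theorem clear_denom (w : Fin n → ℚ) (hw : w ≠ 0) :
    ∃ (N : ℤ) (v : Fin n → ℤ), N ≠ 0 ∧ v ≠ 0 ∧ qv v = (N : ℚ) • w := by
  obtain ⟨b, hb⟩ := IsLocalization.exist_integer_multiples_of_finite (nonZeroDivisors ℤ) w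
  choose v hv using hb
  have hN : (b : ℤ) ≠ 0 := nonZeroDivisors.coe_ne_zero b
  have hvw : qv v = ((b : ℤ) : ℚ) • w := by
    funext i
    have := hv i
    rw [Pi.smul_apply, smul_eq_mul]
    unfold qv
    simpa using this
  refine ⟨b, v, hN, ?_, hvw⟩
  rintro rfl
  rw [qv_zero] at hvw
  rcases smul_eq_zero.1 hvw.symm with h | h
  · exact hN (by exact_mod_cast h)
  · exact hw h

theorem exists_row (f : (Fin n → ℚ) →ₗ[ℚ] ℚ) : ∃ ψ : Fin n → ℚ, ∀ x, f x = ψ ⬝ᵥ x := by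
  refine ⟨fun i => f (Pi.single i 1), fun x => ?_⟩
  conv_lhs => rw [← Finset.univ_sum_single x]
  rw [map_sum]
  unfold dotProduct
  refine Finset.sum_congr rfl fun i _ => ?_
  have h1 : (Pi.single i (x i) : Fin n → ℚ) = x i • Pi.single i 1 := by
    rw [← Pi.single_smul, smul_eq_mul, mul_one]
  rw [h1, map_smul, smul_eq_mul, mul_comm]

theorem mem_of_kills {V : Submodule ℚ (Fin n → ℚ)} {u : Fin n → ℚ}
    (h : ∀ ψ, Kills ψ V → ψ ⬝ᵥ u = 0) : u ∈ V := by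
  by_contra hu
  obtain ⟨f, hf, hV⟩ := Submodule.exists_le_ker_of_notMem hu
  obtain ⟨ψ, hψ⟩ := exists_row f
  refine hf ?_
  rw [hψ]
  exact h ψ fun x hx => by rw [← hψ]; exact hV hx

theorem exists_killer {V : Submodule ℚ (Fin n → ℚ)} (hV : V < ⊤) : ∃ ψ, ψ ≠ 0 ∧ Kills ψ V := by
  obtain ⟨f, hf, hV'⟩ := Submodule.exists_le_ker_of_lt_top V hV
  obtain ⟨ψ, hψ⟩ := exists_row f
  refine ⟨ψ, ?_, fun x hx => by rw [← hψ]; exact hV' hx⟩
  rintro rfl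
  refine hf (LinearMap.ext fun x => ?_)
  rw [hψ, zero_dotProduct, LinearMap.zero_apply]

theorem U.exists_inv {X : Mt n} (h : U X) : ∃ X' : Mt n, X' * X = 1 ∧ X * X' = 1 := by
  obtain ⟨g, rfl | rfl⟩ := h
  · refine ⟨((g⁻¹ : SLn n) : Mt n), ?_, ?_⟩
    · rw [← Matrix.SpecialLinearGroup.coe_mul, inv_mul_cancel, Matrix.SpecialLinearGroup.coe_one]
    · rw [← Matrix.SpecialLinearGroup.coe_mul, mul_inv_cancel, Matrix.SpecialLinearGroup.coe_one]
  · refine ⟨-((g⁻¹ : SLn n) : Mt n), ?_, ?_⟩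
    · rw [neg_mul_neg, ← Matrix.SpecialLinearGroup.coe_mul, inv_mul_cancel,
        Matrix.SpecialLinearGroup.coe_one]
    · rw [neg_mul_neg, ← Matrix.SpecialLinearGroup.coe_mul, mul_inv_cancel,
        Matrix.SpecialLinearGroup.coe_one]

theorem U.inj {X : Mt n} (h : U X) {w w' : Fin n → ℚ} (hw : qm X *ᵥ w = qm X *ᵥ w') : w = w' := by
  obtain ⟨X', h1, _⟩ := h.exists_inv
  have h2 : qm X' *ᵥ (qm X *ᵥ w) = qm X' *ᵥ (qm X *ᵥ w') := by rw [hw]
  rwa [mulVec_mulVec, mulVec_mulVec, ← qm_mul, h1, qm_one, one_mulVec, one_mulVec] at h2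

theorem U.inj_row {X : Mt n} (h : U X) {w w' : Fin n → ℤ} (hw : w ᵥ* X = w' ᵥ* X) : w = w' := by
  obtain ⟨X', _, h1⟩ := h.exists_inv
  have h2 : (w ᵥ* X) ᵥ* X' = (w' ᵥ* X) ᵥ* X' := by rw [hw]
  rwa [vecMul_vecMul, vecMul_vecMul, h1, vecMul_one, vecMul_one] at h2

/-- the image of a subspace under an integral matrix -/
noncomputable def im (Y : Mt n) (V : Submodule ℚ (Fin n → ℚ)) : Submodule ℚ (Fin n → ℚ) :=
  V.map (Matrix.mulVecLin (qm Y))

theorem mem_im {Y : Mt n} {V : Submodule ℚ (Fin n → ℚ)} {u : Fin n → ℚ} :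
    u ∈ im Y V ↔ ∃ w ∈ V, qm Y *ᵥ w = u := Iff.rfl

theorem finrank_im {Y : Mt n} (hY : U Y) (V : Submodule ℚ (Fin n → ℚ)) :
    Module.finrank ℚ (im Y V) = Module.finrank ℚ V :=
  (LinearEquiv.finrank_eq (Submodule.equivMapOfInjective (Matrix.mulVecLin (qm Y))
    (fun _ _ h => hY.inj h) V)).symm

theorem Deg.exists_vw {V0 V1 : Submodule ℚ (Fin n → ℚ)} {Y : Mt n} (hU : U Y)
    (hd : Deg V0 V1 Y) : ∃ v w : Fin n → ℤ, v ≠ 0 ∧ qv v ∈ V0 ∧ qv w ∈ V1 ∧ Y *ᵥ w = v := by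
  obtain ⟨w', hw', hne, hY⟩ := hd
  obtain ⟨N, w, hN, hw0, hw⟩ := clear_denom w' hne
  refine ⟨Y *ᵥ w, w, ?_, ?_, ?_, rfl⟩
  · intro h
    apply hw0
    apply qv_inj
    apply hU.inj
    rw [qm_mulVec, qm_mulVec, h, mulVec_zero]
  · rw [← qm_mulVec, hw, mulVec_smul]
    exact V0.smul_mem _ hY
  · rw [hw]
    exact V1.smul_mem _ hw'

theorem Deg.proper {V0 V1 : Submodule ℚ (Fin n → ℚ)} (hc : Comp V0 V1) {Y : Mt n} (hU : U Y)
    (hd : Deg V0 V1 Y) : Module.finrank ℚ ↥(V0 ⊔ im Y V1) < n := by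
  obtain ⟨w, hw, hne, hY⟩ := hd
  have h1 := Submodule.finrank_sup_add_finrank_inf_eq V0 (im Y V1)
  rw [finrank_im hU, hc] at h1
  have h2 : V0 ⊓ im Y V1 ≠ ⊥ := by
    intro h
    have h3 : qm Y *ᵥ w ∈ V0 ⊓ im Y V1 := ⟨hY, w, hw, rfl⟩
    rw [h, Submodule.mem_bot] at h3
    apply hne
    apply hU.inj
    rw [h3, mulVec_zero]
  have h4 : 0 < Module.finrank ℚ ↥(V0 ⊓ im Y V1) :=
    Module.finrank_pos_iff.2 (Submodule.nontrivial_iff_ne_bot.2 h2)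
  omega

theorem lt_top_of_finrank {V : Submodule ℚ (Fin n → ℚ)} (h : Module.finrank ℚ V < n) : V < ⊤ := by
  rw [lt_top_iff_ne_top]
  rintro rfl
  rw [finrank_top, Module.finrank_pi, Fintype.card_fin] at h
  exact lt_irrefl _ h

/-- admissible data from a row vector -/
theorem adm_of {V0 V1 : Submodule ℚ (Fin n → ℚ)} {Y : Mt n} {v w : Fin n → ℤ} (hv0 : v ≠ 0)
    (hv : qv v ∈ V0) (hw : qv w ∈ V1) (hY : Y *ᵥ w = v) {ψ : Fin n → ℤ} (hψ0 : ψ ≠ 0)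
    (hψ : Kills (qv ψ) (V0 ⊔ im Y V1)) : Adm V0 V1 Y v w ψ (ψ ᵥ* Y) where
  v0 := hv0
  ψ0 := hψ0
  hv := hv
  hw := hw
  hψ u hu := hψ u (Submodule.mem_sup_left hu)
  hχ u hu := by
    rw [← qm_vecMul, ← dotProduct_mulVec]
    exact hψ _ (Submodule.mem_sup_right ⟨u, hu, rfl⟩)
  yw := hY
  ψy := rfl

theorem Kills.smul {V : Submodule ℚ (Fin n → ℚ)} {ψ : Fin n → ℚ} (h : Kills ψ V) (c : ℚ) :
    Kills (c • ψ) V := fun u hu => by rw [smul_dotProduct, h u hu, smul_zero]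

theorem exists_adm {V0 V1 : Submodule ℚ (Fin n → ℚ)} (hc : Comp V0 V1) {Y : Mt n} (hU : U Y)
    (hd : Deg V0 V1 Y) : ∃ v w ψ χ, Adm V0 V1 Y v w ψ χ := by
  obtain ⟨v, w, hv0, hv, hw, hY⟩ := hd.exists_vw hU
  obtain ⟨ψ', hψ0, hψ⟩ := exists_killer (lt_top_of_finrank (hd.proper hc hU))
  obtain ⟨N, ψ, _, hψ1, hψN⟩ := clear_denom ψ' hψ0
  exact ⟨v, w, ψ, _, adm_of hv0 hv hw hY hψ1 (by rw [hψN]; exact hψ.smul _)⟩

theorem UF.sub_mem {V : Submodule ℚ (Fin n → ℚ)} {g : SLn n} (hg : UF V g) (u : Fin n → ℚ) :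
    qm (g : Mt n) *ᵥ u - u ∈ V := by
  apply mem_of_kills
  intro ψ hψ
  rw [dotProduct_sub, dotProduct_mulVec, hg.row ψ hψ, sub_self]

/-- if `X0` is nondegenerate then elements which are not separable from it are nondegenerate -/
theorem nondeg_of {V0 V1 : Submodule ℚ (Fin n → ℚ)} (hc : Comp V0 V1) {X0 Y : Mt n}
    (hU0 : U X0) (hU : U Y) (h0 : ¬ Deg V0 V1 X0)
    (hY : ∀ v w ψ χ, Adm V0 V1 Y v w ψ χ → vecMulVec v (ψ ᵥ* X0) = vecMulVec (X0 *ᵥ w) χ) :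
    ¬ Deg V0 V1 Y := by
  intro hd
  obtain ⟨v, w, ψ, χ, hA⟩ := exists_adm hc hU hd
  have h1 := hY _ _ _ _ hA
  have h2 : ψ ᵥ* X0 ≠ 0 := by
    intro h
    apply hA.ψ0
    apply hU0.inj_row
    rw [h, zero_vecMul]
  obtain ⟨j, hj⟩ : ∃ j, (ψ ᵥ* X0) j ≠ 0 := Function.ne_iff.1 h2
  have h3 : (ψ ᵥ* X0) j • v = χ j • (X0 *ᵥ w) := by
    funext i
    have := congrFun (congrFun h1 i) j
    rw [vecMulVec_apply, vecMulVec_apply] at this
    rw [Pi.smul_apply, Pi.smul_apply, smul_eq_mul, smul_eq_mul]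
    linarith
  have hw0 : w ≠ 0 := by
    rintro rfl
    apply hA.v0
    rw [← hA.yw, mulVec_zero]
  have hχ : χ j ≠ 0 := by
    intro h
    rw [h, zero_smul] at h3
    rcases smul_eq_zero.1 h3 with h4 | h4
    · exact hj h4
    · exact hA.v0 h4
  apply h0
  refine ⟨qv w, hA.hw, fun h => hw0 (qv_inj (h.trans qv_zero.symm)), ?_⟩
  rw [qm_mulVec]
  have h4 : ((χ j : ℤ) : ℚ) • qv (X0 *ᵥ w) = (((ψ ᵥ* X0) j : ℤ) : ℚ) • qv v := by
    funext i
    have := congrFun h3 i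
    rw [Pi.smul_apply, Pi.smul_apply, smul_eq_mul, smul_eq_mul] at this ⊢
    unfold qv
    exact_mod_cast this.symm
  have h5 : ((χ j : ℤ) : ℚ) ≠ 0 := by exact_mod_cast hχ
  have h6 : qv (X0 *ᵥ w) = ((χ j : ℤ) : ℚ)⁻¹ • (((ψ ᵥ* X0) j : ℤ) : ℚ) • qv v := by
    rw [← h4, smul_smul, inv_mul_cancel₀ h5, one_smul]
  rw [h6]
  exact V0.smul_mem _ (V0.smul_mem _ hA.hv)

/-- degeneracy for a smaller pair is preserved -/
theorem Deg.transfer {V0 V1 V0' V1' : Submodule ℚ (Fin n → ℚ)} (h0 : V0' ≤ V0) (h1 : V1 ≤ V1')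
    {Y : Mt n} {h h' : SLn n} (hh : UF V0 h) (hh' : UF V1 h') (hd : Deg V0' V1' Y) :
    Deg V0' V1' ((h : Mt n) * Y * (h' : Mt n)) := by
  obtain ⟨w, hw, hne, hY⟩ := hd
  set w' : Fin n → ℚ := qm ((h'⁻¹ : SLn n) : Mt n) *ᵥ w with hw'
  have e1 : qm (h' : Mt n) *ᵥ w' = w := by
    rw [hw', mulVec_mulVec, ← qm_mul, ← Matrix.SpecialLinearGroup.coe_mul, mul_inv_cancel,
      Matrix.SpecialLinearGroup.coe_one, qm_one, one_mulVec]
  have e2 : w' ∈ V1' := by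
    have h2 := hh'.sub_mem w'
    rw [e1] at h2
    have h3 : w' = w - (w - w') := by abel
    rw [h3]
    exact V1'.sub_mem hw (h1 h2)
  refine ⟨w', e2, ?_, ?_⟩
  · intro h3
    rw [h3, mulVec_zero] at e1
    exact hne e1.symm
  · rw [qm_mul, qm_mul, ← mulVec_mulVec, e1, ← mulVec_mulVec, hh.fix _ (h0 hY)]
    exact hY

/-- Nested pairs. -/
theorem flags {K : Type*} [Field K] {s : K} {J : Submodule K (Mt n →₀ K)} (hJ : Bi s J)
    (L : List (Submodule ℚ (Fin n → ℚ) × Submodule ℚ (Fin n → ℚ)))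
    (hL : L.Pairwise fun p q => q.1 ≤ p.1 ∧ p.2 ≤ q.2) (hc : ∀ p ∈ L, Comp p.1 p.2)
    (b : Mt n →₀ K) (hb : b ∈ J) (hb0 : b ≠ 0)
    (hdeg : ∀ X, b X ≠ 0 → ∃ p ∈ L, Deg p.1 p.2 X) :
    ∃ p ∈ L, ∃ b' ∈ J, b' ≠ 0 ∧ ∀ X, b' X ≠ 0 → Deg p.1 p.2 X := by
  induction L generalizing b with
  | nil =>
    exfalso
    apply hb0
    ext X
    by_contra h
    obtain ⟨p, hp, _⟩ := hdeg X h
    simp at hp
  | cons p L ih =>
    rw [List.pairwise_cons] at hL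
    by_cases hall : ∀ X, b X ≠ 0 → Deg p.1 p.2 X
    · exact ⟨p, List.mem_cons_self, b, hb, hb0, hall⟩
    · push Not at hall
      obtain ⟨X0, hX0, hnd⟩ := hall
      obtain ⟨b', hb', hb'0, hs⟩ := GK hJ p.1 p.2 hb hX0
      obtain ⟨q, hq, b'', h1, h2, h3⟩ := ih hL.2 (fun q hq => hc q (List.mem_cons_of_mem _ hq))
        b' hb' hb'0 (by
          intro X hX
          obtain ⟨Y, h, h', hY, hh, hh', rfl, hsep⟩ := hs X hX
          have hndY : ¬ Deg p.1 p.2 Y := nondeg_of (hc p List.mem_cons_self) (hJ.unit b hb _ hX0)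
            (hJ.unit b hb _ hY) hnd hsep
          obtain ⟨q, hq, hdq⟩ := hdeg Y hY
          rcases List.mem_cons.1 hq with rfl | hq
          · exact absurd hdq hndY
          · exact ⟨q, hq, hdq.transfer (hL.1 q hq).1 (hL.1 q hq).2 hh hh'⟩)
      exact ⟨q, List.mem_cons_of_mem _ hq, b'', h1, h2, h3⟩

end Pool.Agent.Lib.MP_41a456_al
end

section

/-!
# Bounded generation (paper 331, section 7): definitions and basic facts
-/

namespace Pool.Agent.Lib.MP_41a456_al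

open Matrix

/-- the elementary matrix `1 + c E_ij` -/
abbrev el {n : ℕ} {i j : Fin n} (h : i ≠ j) (c : ℤ) : SLn n :=
  Matrix.SpecialLinearGroup.transvection h c

theorem el_coe {n : ℕ} {i j : Fin n} (h : i ≠ j) (c : ℤ) :
    ((el h c : SLn n) : Mt n) = 1 + Matrix.single i j c := rfl

/-- `g` is a product of at most `N` elementary matrices. -/
def BP {n : ℕ} (N : ℕ) (g : SLn n) : Prop :=
  ∃ l : List (SLn n), l.length ≤ N ∧
    (∀ x ∈ l, ∃ (i j : Fin n) (h : i ≠ j) (c : ℤ), x = el h c) ∧ l.prod = g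

theorem BP.one {n : ℕ} : BP 0 (1 : SLn n) := ⟨[], le_refl _, by simp, rfl⟩

theorem BP.mono {n N N' : ℕ} {g : SLn n} (h : BP N g) (hN : N ≤ N') : BP N' g := by
  obtain ⟨l, h1, h2, h3⟩ := h
  exact ⟨l, h1.trans hN, h2, h3⟩

theorem BP.el {n : ℕ} {i j : Fin n} (h : i ≠ j) (c : ℤ) : BP 1 (el h c : SLn n) :=
  ⟨[MP_41a456_al.el h c], by simp, by
    intro x hx
    rw [List.mem_singleton] at hx
    exact ⟨i, j, h, c, hx⟩, by simp⟩

theorem BP.mul {n N N' : ℕ} {g g' : SLn n} (h : BP N g) (h' : BP N' g') :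
    BP (N + N') (g * g') := by
  obtain ⟨l, h1, h2, rfl⟩ := h
  obtain ⟨l', h1', h2', rfl⟩ := h'
  refine ⟨l ++ l', by rw [List.length_append]; omega, ?_, List.prod_append⟩
  intro x hx
  rcases List.mem_append.1 hx with hx | hx
  · exact h2 x hx
  · exact h2' x hx

theorem BP.inv {n N : ℕ} {g : SLn n} (h : BP N g) : BP N g⁻¹ := by
  obtain ⟨l, h1, h2, rfl⟩ := h
  refine ⟨(l.map fun x => x⁻¹).reverse, by simpa using h1, ?_, (List.prod_inv_reverse l).symm⟩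
  intro x hx
  rw [List.mem_reverse, List.mem_map] at hx
  obtain ⟨y, hy, rfl⟩ := hx
  obtain ⟨i, j, hij, c, rfl⟩ := h2 y hy
  exact ⟨i, j, hij, -c, Matrix.SpecialLinearGroup.transvection_inv hij c⟩

theorem BP.transpose {n N : ℕ} {g : SLn n} (h : BP N g) : BP N g.transpose := by
  obtain ⟨l, h1, h2, rfl⟩ := h
  induction l generalizing N with
  | nil =>
    refine BP.mono ?_ (Nat.zero_le N)
    have : (([] : List (SLn n)).prod).transpose = 1 := by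
      apply Subtype.ext
      change (1 : Mt n)ᵀ = 1
      exact Matrix.transpose_one
    rw [this]
    exact BP.one
  | cons x l ih =>
    rw [List.length_cons] at h1
    have h3 := ih (N := l.length) (le_refl _) fun y hy => h2 y (List.mem_cons_of_mem _ hy)
    obtain ⟨i, j, hij, c, rfl⟩ := h2 x List.mem_cons_self
    have h4 : ((MP_41a456_al.el hij c :: l).prod).transpose = l.prod.transpose * MP_41a456_al.el hij.symm c := by
      rw [List.prod_cons]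
      apply Subtype.ext
      change ((MP_41a456_al.el hij c : SLn n) * l.prod : Mt n)ᵀ = (l.prod : Mt n)ᵀ *
        (MP_41a456_al.el hij.symm c : Mt n)
      rw [Matrix.transpose_mul, el_coe, el_coe, Matrix.transpose_add, Matrix.transpose_one,
        Matrix.transpose_single]
    rw [h4]
    exact (h3.mul (BP.el hij.symm c)).mono h1

/-- the embedding of `SL_m` in `SL_{m+1}` as lower right block -/
def emb {m : ℕ} : SLn m →* SLn (m + 1) where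
  toFun A := ⟨Matrix.of (Fin.cons (Fin.cons 1 0) fun i => Fin.cons 0 ((A : Mt m) i)), by
    rw [Matrix.det_succ_row_zero, Fin.sum_univ_succ]
    have h1 : (Matrix.of (Fin.cons (Fin.cons 1 0) fun i => Fin.cons 0 ((A : Mt m) i)) :
        Mt (m + 1)).submatrix Fin.succ (Fin.succAbove 0) = (A : Mt m) := by
      ext i j
      simp
    rw [h1, A.2]
    simp⟩
  map_one' := by
    apply Subtype.ext
    change Matrix.of (Fin.cons (Fin.cons 1 0) fun i => Fin.cons 0 ((1 : Mt m) i)) = (1 : Mt (m + 1))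
    ext i j
    refine Fin.cases ?_ (fun i => ?_) i <;> refine Fin.cases ?_ (fun j => ?_) j
    · simp
    · simp [(Fin.succ_ne_zero j).symm]
    · simp [(Fin.succ_ne_zero i)]
    · simp [Matrix.one_apply]
  map_mul' A B := by
    apply Subtype.ext
    change Matrix.of (Fin.cons (Fin.cons 1 0) fun i => Fin.cons 0 (((A : Mt m) * (B : Mt m)) i)) =
      (Matrix.of (Fin.cons (Fin.cons 1 0) fun i => Fin.cons 0 ((A : Mt m) i)) : Mt (m + 1)) *
      (Matrix.of (Fin.cons (Fin.cons 1 0) fun i => Fin.cons 0 ((B : Mt m) i)) : Mt (m + 1))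
    ext i j
    rw [Matrix.mul_apply, Fin.sum_univ_succ]
    refine Fin.cases ?_ (fun i => ?_) i <;> refine Fin.cases ?_ (fun j => ?_) j
    · simp
    · simp
    · simp
    · simp [Matrix.mul_apply]

theorem emb_coe {m : ℕ} (A : SLn m) : ((emb A : SLn (m + 1)) : Mt (m + 1)) =
    Matrix.of (Fin.cons (Fin.cons 1 0) fun i => Fin.cons 0 ((A : Mt m) i)) := rfl

theorem emb_zero_zero {m : ℕ} (A : SLn m) : ((emb A : SLn (m + 1)) : Mt (m + 1)) 0 0 = 1 := by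
  rw [emb_coe]; simp

theorem emb_zero_succ {m : ℕ} (A : SLn m) (j : Fin m) :
    ((emb A : SLn (m + 1)) : Mt (m + 1)) 0 j.succ = 0 := by
  rw [emb_coe]; simp

theorem emb_succ_zero {m : ℕ} (A : SLn m) (i : Fin m) :
    ((emb A : SLn (m + 1)) : Mt (m + 1)) i.succ 0 = 0 := by
  rw [emb_coe]; simp

theorem emb_succ_succ {m : ℕ} (A : SLn m) (i j : Fin m) :
    ((emb A : SLn (m + 1)) : Mt (m + 1)) i.succ j.succ = (A : Mt m) i j := by
  rw [emb_coe]; simp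

theorem emb_el {m : ℕ} {i j : Fin m} (h : i ≠ j) (c : ℤ) :
    emb (el h c : SLn m) = el (fun h' : i.succ = j.succ => h (Fin.succ_injective m h')) c := by
  apply Subtype.ext
  ext a b
  refine Fin.cases ?_ (fun a => ?_) a <;> refine Fin.cases ?_ (fun b => ?_) b
  · rw [emb_zero_zero, el_coe]
    simp [Matrix.single]
  · rw [emb_zero_succ, el_coe]
    simp [Matrix.single, (Fin.succ_ne_zero b).symm]
  · rw [emb_succ_zero, el_coe]
    simp [Matrix.single, (Fin.succ_ne_zero a)]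
  · rw [emb_succ_succ, el_coe, el_coe]
    simp [Matrix.single, Matrix.one_apply]

theorem BP.emb {m N : ℕ} {g : SLn m} (h : BP N g) : BP N (emb g) := by
  obtain ⟨l, h1, h2, rfl⟩ := h
  refine ⟨l.map MP_41a456_al.emb, by simpa using h1, ?_, (map_list_prod MP_41a456_al.emb l).symm⟩
  intro x hx
  obtain ⟨y, hy, rfl⟩ := List.mem_map.1 hx
  obtain ⟨i, j, hij, c, rfl⟩ := h2 y hy
  exact ⟨i.succ, j.succ, fun h' => hij (Fin.succ_injective m h'), c, emb_el hij c⟩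

theorem BP.transpose_iff {n N : ℕ} {g : SLn n} : BP N g.transpose ↔ BP N g := by
  refine ⟨fun h => ?_, BP.transpose⟩
  have h2 := h.transpose
  have h3 : g.transpose.transpose = g := by
    apply Subtype.ext
    exact Matrix.transpose_transpose _
  rwa [h3] at h2

theorem emb_transpose {m : ℕ} (A : SLn m) : emb A.transpose = (emb A).transpose := by
  apply Subtype.ext
  change ((emb A.transpose : SLn (m + 1)) : Mt (m + 1)) = ((emb A : SLn (m + 1)) : Mt (m + 1))ᵀ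
  ext a b
  rw [Matrix.transpose_apply]
  refine Fin.cases ?_ (fun a => ?_) a <;> refine Fin.cases ?_ (fun b => ?_) b
  · rw [emb_zero_zero, emb_zero_zero]
  · rw [emb_zero_succ, emb_succ_zero]
  · rw [emb_succ_zero, emb_zero_succ]
  · rw [emb_succ_succ, emb_succ_succ]
    rfl

/-- a primitive (unimodular) vector -/
def Prim {n : ℕ} (p : Fin n → ℤ) : Prop := ∃ c : Fin n → ℤ, p ⬝ᵥ c = 1

/-- All matrices of `SL_2(ℤ)` with first row `(a, b)` become products of at most `N` elementary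
matrices in `SL_3(ℤ)`. -/
def Q (N : ℕ) (a b : ℤ) : Prop :=
  ∀ A : SLn 2, (A : Mt 2) 0 0 = a → (A : Mt 2) 0 1 = b → BP N (emb A : SLn 3)

theorem Q.mono {N N' : ℕ} {a b : ℤ} (h : Q N a b) (hN : N ≤ N') : Q N' a b :=
  fun A h1 h2 => (h A h1 h2).mono hN

end Pool.Agent.Lib.MP_41a456_al
end
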