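import Mathlib

/-!
# MP_41a456_al: ideals of `K[SL_n(ℤ)]` containing a short element (paper 331): definitions

The vector space is `Matrix (Fin n) (Fin n) ℤ →₀ K`; the ideals are moved there by `Phi s`
(`g ↦ [g] + s [-g]`, `s = ±1`).
-/

namespace Pool.Agent.Lib.MP_41a456_al

open Matrix

/-- integer matrices -/
abbrev Mt (n : ℕ) := Matrix (Fin n) (Fin n) ℤ

/-- `SL_n(ℤ)` -/
abbrev SLn (n : ℕ) := Matrix.SpecialLinearGroup (Fin n) ℤ

variable {n : ℕ}

/-- left multiplication by `g`, a permutation of the matrices -/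
def lp (g : SLn n) : Equiv.Perm (Mt n) where
  toFun X := (g : Mt n) * X
  invFun X := ((g⁻¹ : SLn n) : Mt n) * X
  left_inv X := by
    change ((g⁻¹ : SLn n) : Mt n) * ((g : Mt n) * X) = X
    rw [← mul_assoc, ← Matrix.SpecialLinearGroup.coe_mul, inv_mul_cancel, Matrix.SpecialLinearGroup.coe_one,
      one_mul]
  right_inv X := by
    change (g : Mt n) * (((g⁻¹ : SLn n) : Mt n) * X) = X
    rw [← mul_assoc, ← Matrix.SpecialLinearGroup.coe_mul, mul_inv_cancel, Matrix.SpecialLinearGroup.coe_one,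
      one_mul]

/-- right multiplication by `g`, a permutation of the matrices -/
def rp (g : SLn n) : Equiv.Perm (Mt n) where
  toFun X := X * (g : Mt n)
  invFun X := X * ((g⁻¹ : SLn n) : Mt n)
  left_inv X := by
    change X * (g : Mt n) * ((g⁻¹ : SLn n) : Mt n) = X
    rw [mul_assoc, ← Matrix.SpecialLinearGroup.coe_mul, mul_inv_cancel, Matrix.SpecialLinearGroup.coe_one,
      mul_one]
  right_inv X := by
    change X * ((g⁻¹ : SLn n) : Mt n) * (g : Mt n) = X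
    rw [mul_assoc, ← Matrix.SpecialLinearGroup.coe_mul, inv_mul_cancel, Matrix.SpecialLinearGroup.coe_one,
      mul_one]

theorem lp_apply (g : SLn n) (X : Mt n) : lp g X = (g : Mt n) * X := rfl

theorem rp_apply (g : SLn n) (X : Mt n) : rp g X = X * (g : Mt n) := rfl

/-- the matrix is `±g` with `g` in `SL_n(ℤ)` -/
def U (X : Mt n) : Prop := ∃ g : SLn n, X = (g : Mt n) ∨ X = -(g : Mt n)

/-- A subspace of the finitely supported functions on matrices which is stable under left and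
right multiplication by `SL_n(ℤ)`, consists of functions supported on `± SL_n(ℤ)`,
with `b (-X) = s b X`. -/
structure Bi {K : Type*} [Field K] (s : K) (J : Submodule K (Mt n →₀ K)) : Prop where
  left : ∀ g : SLn n, ∀ b ∈ J, b.mapDomain (lp g) ∈ J
  right : ∀ g : SLn n, ∀ b ∈ J, b.mapDomain (rp g) ∈ J
  unit : ∀ b ∈ J, ∀ X, b X ≠ 0 → U X
  sym : ∀ b ∈ J, ∀ X, b (-X) = s * b X

/-- the transvection `1 + v ψ` -/
def tv (v ψ : Fin n → ℤ) (h : ψ ⬝ᵥ v = 0) : SLn n :=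
  ⟨1 + vecMulVec v ψ, by
    rw [vecMulVec_eq Unit, det_one_add_replicateCol_mul_replicateRow, h, add_zero]⟩

theorem tv_coe (v ψ : Fin n → ℤ) (h : ψ ⬝ᵥ v = 0) : (tv v ψ h : Mt n) = 1 + vecMulVec v ψ := rfl

/-- integral vectors as rational vectors -/
def qv (v : Fin n → ℤ) : Fin n → ℚ := fun i => v i

/-- integral matrices as rational matrices -/
def qm (X : Mt n) : Matrix (Fin n) (Fin n) ℚ := X.map fun a => (a : ℚ)

/-- `ψ` vanishes on `V` -/
def Kills (ψ : Fin n → ℚ) (V : Submodule ℚ (Fin n → ℚ)) : Prop := ∀ u ∈ V, ψ ⬝ᵥ u = 0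

/-- `(v, ψ)` is admissible for `Y` (with `w = Y⁻¹ v`, `χ = ψ Y`) -/
structure Adm (V0 V1 : Submodule ℚ (Fin n → ℚ)) (Y : Mt n) (v w ψ χ : Fin n → ℤ) : Prop where
  v0 : v ≠ 0
  ψ0 : ψ ≠ 0
  hv : qv v ∈ V0
  hw : qv w ∈ V1
  hψ : Kills (qv ψ) V0
  hχ : Kills (qv χ) V1
  yw : Y *ᵥ w = v
  ψy : ψ ᵥ* Y = χ

/-- elements fixing `V` pointwise and all row vectors which vanish on `V` -/
structure UF (V : Submodule ℚ (Fin n → ℚ)) (g : SLn n) : Prop where
  fix : ∀ u ∈ V, qm (g : Mt n) *ᵥ u = u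
  row : ∀ ψ : Fin n → ℚ, Kills ψ V → ψ ᵥ* qm (g : Mt n) = ψ

/-- complementary pair of subspaces -/
def Comp (V0 V1 : Submodule ℚ (Fin n → ℚ)) : Prop :=
  Module.finrank ℚ V0 + Module.finrank ℚ V1 = n

/-- `Y` is degenerate for the pair: `V0 ∩ Y V1 ≠ 0` -/
def Deg (V0 V1 : Submodule ℚ (Fin n → ℚ)) (Y : Mt n) : Prop :=
  ∃ w ∈ V1, w ≠ 0 ∧ qm Y *ᵥ w ∈ V0

end Pool.Agent.Lib.MP_41a456_al
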