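import Mathlib
import Pool.Agent.Lib.MP_41a456_al.BGDefs

section

/-!
# Bounded generation: choice of primes (paper 331, 7, BG4)
-/

namespace Pool.Agent.Lib.MP_41a456_al

theorem nt1 {a b : ℤ} (ha : IsCoprime a 4) (hab : IsCoprime a b) :
    ∃ (p e : ℕ) (s t k : ℤ), p.Prime ∧ p % 4 = 3 ∧ (s = 1 ∨ s = -1) ∧ (p : ℤ) = b + t * a ∧
      a = s * (e : ℤ) ^ 2 + k * p ∧ ¬ p ∣ e ∧ e ≡ 1 [MOD (p - 1) / 2] := by
  have ha0 : a ≠ 0 := by
    rintro rfl
    rw [isCoprime_zero_left] at ha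
    exact absurd (Int.isUnit_iff.1 ha) (by norm_num)
  obtain ⟨u, v, huv⟩ := ha
  have hc : IsCoprime (b * (v * 4) + 3 * (u * a)) ((4 * a.natAbs : ℕ) : ℤ) := by
    push_cast
    refine IsCoprime.mul_right ?_ ?_
    · have : b * (v * 4) + 3 * (u * a) = 3 + 4 * (b * v - 3 * v) := by
        have : u * a = 1 - v * 4 := by linarith
        rw [this]; ring
      rw [this]
      exact ⟨-1 , 1 + (b * v - 3 * v), by ring⟩
    · have h1 : IsCoprime (b * (v * 4) + 3 * (u * a)) a := by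
        have : b * (v * 4) + 3 * (u * a) = b + a * (3 * u - b * u) := by
          have : v * 4 = 1 - u * a := by linarith
          rw [this]; ring
        rw [this]
        exact IsCoprime.add_mul_left_left hab.symm _
      rcases abs_choice a with h | h
      · rw [h]; exact h1
      · rw [h]; exact h1.neg_right
  obtain ⟨p, hpn, hp, hpm⟩ := Nat.forall_exists_prime_gt_and_zmodEq a.natAbs
    (q := 4 * a.natAbs) (by simpa using ha0) hc
  have hp4 : (p : ℤ) ≡ 3 [ZMOD 4] := by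
    have h1 : (p : ℤ) ≡ b * (v * 4) + 3 * (u * a) [ZMOD 4] :=
      hpm.of_dvd (by push_cast; exact Dvd.intro _ rfl)
    refine h1.trans ?_
    have : b * (v * 4) + 3 * (u * a) = 3 + 4 * (b * v - 3 * v) := by
      have : u * a = 1 - v * 4 := by linarith
      rw [this]; ring
    rw [this]
    exact (Int.modEq_iff_dvd.2 ⟨-(b * v - 3 * v), by ring⟩)
  have hpa : (p : ℤ) ≡ b [ZMOD a] := by
    have h1 : (p : ℤ) ≡ b * (v * 4) + 3 * (u * a) [ZMOD a] := by
      refine hpm.of_dvd ?_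
      push_cast
      exact Dvd.dvd.mul_left ((dvd_abs a a).2 (dvd_refl a)) 4
    refine h1.trans ?_
    have : b * (v * 4) + 3 * (u * a) = b + a * (3 * u - b * u) := by
      have : v * 4 = 1 - u * a := by linarith
      rw [this]; ring
    rw [this]
    exact (Int.modEq_iff_dvd.2 ⟨-(3 * u - b * u), by ring⟩)
  obtain ⟨t, ht⟩ := (Int.modEq_iff_dvd.1 hpa.symm)
  have hp43 : p % 4 = 3 := by
    have := hp4
    unfold Int.ModEq at this
    omega
  have hpda : ¬ (p : ℤ) ∣ a := by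
    intro h
    have := Int.natCast_dvd.1 h
    have := Nat.le_of_dvd (by omega) this
    omega
  have : Fact p.Prime := ⟨hp⟩
  have ha' : (a : ZMod p) ≠ 0 := by
    rwa [Ne, ZMod.intCast_zmod_eq_zero_iff_dvd]
  -- the square root
  obtain ⟨s, hs, e0, he0⟩ : ∃ s : ℤ, (s = 1 ∨ s = -1) ∧ ∃ e0 : ZMod p, (a : ZMod p) = s * e0 ^ 2 := by
    have h1 := ZMod.pow_div_two_eq_neg_one_or_one p ha'
    have h2 : ((a : ZMod p) ^ ((p + 1) / 4)) ^ 2 = (a : ZMod p) ^ (p / 2) * a := by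
      rw [← pow_mul, ← pow_succ]
      congr 1
      omega
    rcases h1 with h1 | h1
    · refine ⟨1, Or.inl rfl, (a : ZMod p) ^ ((p + 1) / 4), ?_⟩
      rw [h2, h1]; simp
    · refine ⟨-1, Or.inr rfl, (a : ZMod p) ^ ((p + 1) / 4), ?_⟩
      rw [h2, h1]; simp
  have hcop : Nat.Coprime p ((p - 1) / 2) := by
    refine (Nat.Prime.coprime_iff_not_dvd hp).2 fun h => ?_
    have := Nat.le_of_dvd (by omega) h
    omega
  obtain ⟨e, he1, he2⟩ := Nat.chineseRemainder hcop e0.val 1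
  have he3 : (e : ZMod p) = e0 := by
    rw [(ZMod.natCast_eq_natCast_iff e e0.val p).2 he1, ZMod.natCast_zmod_val]
  have h5 : (p : ℤ) ∣ a - s * (e : ℤ) ^ 2 := by
    rw [← ZMod.intCast_zmod_eq_zero_iff_dvd]
    push_cast
    rw [he3, he0, sub_self]
  obtain ⟨k, hk⟩ := h5
  refine ⟨p, e, s, t, k, hp, hp43, hs, by linarith, by linarith, ?_, he2⟩
  intro hpe
  apply ha'
  rw [he0, ← he3, (ZMod.natCast_eq_zero_iff e p).2 hpe]
  simp

theorem nt2 {p e : ℕ} {s : ℤ} (hp : p.Prime) (hp4 : p % 4 = 3) (hs : s = 1 ∨ s = -1)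
    (hpe : ¬ p ∣ e) (he : e ≡ 1 [MOD (p - 1) / 2]) :
    ∃ (q : ℕ) (d X Y : ℤ), q.Prime ∧ (e : ℤ) * d - (s * p) * q = 1 ∧ ¬ q ∣ e ∧
      X * ((p : ℤ) - 1) + Y * ((q : ℤ) - 1) = 2 := by
  obtain ⟨h, hh⟩ : ∃ h, h = (p - 1) / 2 := ⟨_, rfl⟩
  rw [← hh] at he
  have hph : p = 2 * h + 1 := by omega
  have hhodd : h % 2 = 1 := by omega
  have heh : IsCoprime (e : ℤ) (h : ℤ) := by
    rw [Nat.isCoprime_iff_coprime]
    have := he.gcd_eq
    rw [Nat.gcd_one_left] at this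
    exact this
  have hpe' : IsCoprime (s * p) (e : ℤ) := by
    have h1 : IsCoprime (p : ℤ) (e : ℤ) := by
      rw [Nat.isCoprime_iff_coprime]
      exact (Nat.Prime.coprime_iff_not_dvd hp).2 hpe
    rcases hs with rfl | rfl
    · rwa [one_mul]
    · rw [neg_one_mul]; exact h1.neg_left
  obtain ⟨α, β, hαβ⟩ := hpe'
  obtain ⟨u, v, huv⟩ := heh
  have he0 : e ≠ 0 := by
    rintro rfl
    exact hpe (dvd_zero p)
  have h2h : IsCoprime (2 : ℤ) (h : ℤ) := by
    refine ⟨-((h : ℤ) / 2), 1, ?_⟩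
    omega
  have hc : IsCoprime ((-α) * (v * h) + 2 * (u * e)) ((e * h : ℕ) : ℤ) := by
    push_cast
    refine IsCoprime.mul_right ?_ ?_
    · have h3 : (-α) * (v * h) + 2 * (u * e) = -α + e * (2 * u + α * u) := by
        have : v * (h : ℤ) = 1 - u * e := by linarith
        rw [this]; ring
      rw [h3]
      have h4 : IsCoprime (-α) (e : ℤ) := ⟨-(s * p), β, by linarith⟩
      exact IsCoprime.add_mul_left_left h4 _
    · have h3 : (-α) * (v * h) + 2 * (u * e) = 2 + h * (-α * v - 2 * v) := by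
        have : u * (e : ℤ) = 1 - v * h := by linarith
        rw [this]; ring
      rw [h3]
      exact IsCoprime.add_mul_left_left h2h _
  obtain ⟨q, hq2, hq, hqm⟩ := Nat.forall_exists_prime_gt_and_zmodEq 2
    (q := e * h) (by
      apply mul_ne_zero he0
      rintro rfl
      omega) hc
  have hqe : (q : ℤ) ≡ -α [ZMOD e] := by
    have h3 : (q : ℤ) ≡ (-α) * (v * h) + 2 * (u * e) [ZMOD e] :=
      hqm.of_dvd (by push_cast; exact Dvd.intro _ rfl)
    refine h3.trans (Int.modEq_iff_dvd.2 ⟨-(2 * u + α * u), ?_⟩)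
    have : v * (h : ℤ) = 1 - u * e := by linarith
    rw [this]; ring
  have hqh : (q : ℤ) ≡ 2 [ZMOD h] := by
    have h3 : (q : ℤ) ≡ (-α) * (v * h) + 2 * (u * e) [ZMOD h] :=
      hqm.of_dvd (by push_cast; exact Dvd.intro_left _ rfl)
    refine h3.trans (Int.modEq_iff_dvd.2 ⟨-(-α * v - 2 * v), ?_⟩)
    have : u * (e : ℤ) = 1 - v * h := by linarith
    rw [this]; ring
  obtain ⟨d', hd'⟩ : (e : ℤ) ∣ 1 + (s * p) * q := by
    obtain ⟨w, hw⟩ := Int.modEq_iff_dvd.1 hqe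
    refine ⟨β - (s * p) * w, ?_⟩
    have : (q : ℤ) = -α - e * w := by linarith
    rw [this]
    linear_combination -hαβ
  have hqodd : q % 2 = 1 := by
    rcases hq.eq_two_or_odd with h | h
    · omega
    · exact h
  obtain ⟨j, hj⟩ : ∃ j : ℕ, q = 2 * j + 1 := ⟨q / 2, by omega⟩
  have hhj : IsCoprime (h : ℤ) (j : ℤ) := by
    obtain ⟨w, hw⟩ := Int.modEq_iff_dvd.1 hqh
    refine ⟨w, 2, ?_⟩
    have : (q : ℤ) = 2 * j + 1 := by exact_mod_cast hj
    rw [this] at hw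
    linarith
  obtain ⟨X, Y, hXY⟩ := hhj
  refine ⟨q, d', X, Y, hq, by linarith, ?_, ?_⟩
  · intro hqe'
    have h5 : (q : ℤ) ∣ e := Int.natCast_dvd_natCast.2 hqe'
    have h6 : (q : ℤ) ∣ 1 := by
      have h7 : (1 : ℤ) = (e : ℤ) * d' - (s * p) * q := by linarith
      rw [h7]
      exact dvd_sub (Dvd.dvd.mul_right h5 _) (Dvd.intro_left _ rfl)
    exact (Nat.prime_iff_prime_int.1 hq).not_dvd_one h6
  · have h8 : (q : ℤ) = 2 * j + 1 := by exact_mod_cast hj
    have h9 : (p : ℤ) = 2 * h + 1 := by exact_mod_cast hph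
    rw [h8, h9]
    linear_combination 2 * hXY

theorem fermat_pow {p e : ℕ} (hp : p.Prime) (hpe : ¬ p ∣ e) (X : ℕ) :
    ∃ k : ℤ, (e : ℤ) ^ (X * (p - 1)) = 1 + k * p := by
  have : Fact p.Prime := ⟨hp⟩
  have h1 : (e : ZMod p) ≠ 0 := by
    rwa [Ne, ZMod.natCast_eq_zero_iff]
  have h2 : (p : ℤ) ∣ (e : ℤ) ^ (X * (p - 1)) - 1 := by
    rw [← ZMod.intCast_zmod_eq_zero_iff_dvd]
    push_cast
    rw [mul_comm, pow_mul, ZMod.pow_card_sub_one_eq_one h1, one_pow, sub_self]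
  obtain ⟨k, hk⟩ := h2
  exact ⟨k, by linarith⟩

end Pool.Agent.Lib.MP_41a456_al
end

section

/-!
# Bounded generation: stable range
-/

namespace Pool.Agent.Lib.MP_41a456_al

theorem stab_range {a D g : ℤ} (hg : g ≠ 0) (h : ∃ x y z : ℤ, x * a + y * D + z * g = 1) :
    ∃ t : ℤ, IsCoprime (a + t * D) g := by
  classical
  obtain ⟨x, y, z, h⟩ := h
  refine ⟨∏ p ∈ g.natAbs.primeFactors.filter (fun p : ℕ => ¬ (p : ℤ) ∣ a), (p : ℤ), ?_⟩
  rw [Int.isCoprime_iff_gcd_eq_one]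
  by_contra hne
  obtain ⟨p, hp, hpd⟩ := Nat.exists_prime_and_dvd hne
  have hpz : Prime (p : ℤ) := Nat.prime_iff_prime_int.1 hp
  have h1 : (p : ℤ) ∣ a + (∏ p ∈ g.natAbs.primeFactors.filter (fun p : ℕ => ¬ (p : ℤ) ∣ a), (p : ℤ)) * D :=
    (Int.natCast_dvd_natCast.2 hpd).trans (Int.gcd_dvd_left _ _)
  have h2 : (p : ℤ) ∣ g := (Int.natCast_dvd_natCast.2 hpd).trans (Int.gcd_dvd_right _ _)
  have h2' : p ∈ g.natAbs.primeFactors :=
    Nat.mem_primeFactors.2 ⟨hp, Int.natCast_dvd.1 h2, by simpa using hg⟩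
  by_cases ha : (p : ℤ) ∣ a
  · have h3 := (dvd_add_right ha).1 h1
    rcases hpz.dvd_or_dvd h3 with h4 | h4
    · obtain ⟨q, hq, hpq⟩ := (hpz.dvd_finsetProd_iff _).1 h4
      obtain ⟨hq1, hq2⟩ := Finset.mem_filter.1 hq
      have hqp := (Nat.mem_primeFactors.1 hq1).1
      have : p = q := (Nat.prime_dvd_prime_iff_eq hp hqp).1 (Int.natCast_dvd_natCast.1 hpq)
      exact hq2 (this ▸ ha)
    · have h5 : (p : ℤ) ∣ 1 := by
        rw [← h]
        exact dvd_add (dvd_add (Dvd.dvd.mul_left ha x) (Dvd.dvd.mul_left h4 y))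
          (Dvd.dvd.mul_left h2 z)
      exact hpz.not_dvd_one h5
  · have h3 : (p : ℤ) ∣ ∏ p ∈ g.natAbs.primeFactors.filter (fun p : ℕ => ¬ (p : ℤ) ∣ a), (p : ℤ) :=
      Finset.dvd_prod_of_mem (fun p : ℕ => (p : ℤ)) (Finset.mem_filter.2 ⟨h2', ha⟩)
    exact ha ((dvd_add_left (Dvd.dvd.mul_right h3 D)).1 h1)

end Pool.Agent.Lib.MP_41a456_al
end

section

/-!
# Bounded generation: several elementary operations at once
-/

namespace Pool.Agent.Lib.MP_41a456_al

open Matrix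

/-- `1 + u ⊗ e_j` with `u j = 0` is a product of at most `n` elementary matrices. -/
theorem multi_col {n : ℕ} (j : Fin n) (u : Fin n → ℤ) (hu : u j = 0) :
    ∃ g : SLn n, BP n g ∧ (g : Mt n) = 1 + vecMulVec u (Pi.single j 1) := by
  classical
  have key : ∀ s : Finset (Fin n), ∃ g : SLn n, BP s.card g ∧
      (g : Mt n) = 1 + vecMulVec (fun i => if i ∈ s then u i else 0) (Pi.single j 1) := by
    intro s
    induction s using Finset.induction_on with
    | empty =>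
      refine ⟨1, BP.one, ?_⟩
      have : (fun i : Fin n => if i ∈ (∅ : Finset (Fin n)) then u i else 0) = 0 := by
        funext i; simp
      rw [this, zero_vecMulVec, add_zero, Matrix.SpecialLinearGroup.coe_one]
    | insert a s ha ih =>
      obtain ⟨g, hg, hgc⟩ := ih
      by_cases haj : a = j
      · refine ⟨g, hg.mono (by rw [Finset.card_insert_of_notMem ha]; omega), ?_⟩
        rw [hgc]
        congr 2
        funext i
        by_cases hi : i = a
        · subst hi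
          simp [ha, haj, hu]
        · simp [hi]
      · refine ⟨g * el haj (u a), ?_, ?_⟩
        · rw [Finset.card_insert_of_notMem ha]
          exact hg.mul (BP.el haj (u a))
        · rw [Matrix.SpecialLinearGroup.coe_mul, hgc, el_coe, Matrix.mul_add, Matrix.mul_one,
            Matrix.add_mul, Matrix.one_mul]
          have h1 : Matrix.single a j (u a) = vecMulVec (Pi.single a (u a)) (Pi.single j 1) := by
            ext x y
            simp [Matrix.single, vecMulVec_apply, Pi.single_apply]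
            by_cases hx : a = x <;> by_cases hy : j = y <;> simp [hx, hy, eq_comm]
          rw [h1, vecMulVec_mul_vecMulVec]
          have h2 : (Pi.single j 1 : Fin n → ℤ) ⬝ᵥ (Pi.single a (u a) : Fin n → ℤ) = 0 := by
            rw [single_dotProduct, one_mul, Pi.single_apply, if_neg (Ne.symm haj)]
          rw [h2, zero_smul, vecMulVec_zero, add_zero, add_assoc, ← add_vecMulVec]
          congr 2
          funext i
          by_cases hi : i = a
          · subst hi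
            simp [ha]
          · simp [hi, Pi.single_apply]
  obtain ⟨g, hg, hgc⟩ := key Finset.univ
  refine ⟨g, by simpa using hg, ?_⟩
  rw [hgc]
  simp

/-- `1 + e_i ⊗ u` with `u i = 0` is a product of at most `n` elementary matrices. -/
theorem multi_row {n : ℕ} (i : Fin n) (u : Fin n → ℤ) (hu : u i = 0) :
    ∃ g : SLn n, BP n g ∧ (g : Mt n) = 1 + vecMulVec (Pi.single i 1) u := by
  obtain ⟨g, hg, hgc⟩ := multi_col i u hu
  refine ⟨g.transpose, hg.transpose, ?_⟩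
  rw [Matrix.SpecialLinearGroup.coe_transpose, hgc, Matrix.transpose_add, Matrix.transpose_one,
    transpose_vecMulVec]

end Pool.Agent.Lib.MP_41a456_al
end

section

/-!
# From degenerate supports to one row (paper 331, section 3)
-/

namespace Pool.Agent.Lib.MP_41a456_al

open Matrix

variable {n : ℕ}

theorem prim_pm {p q : Fin n → ℤ} (hp : Prim p) (hq : Prim q) {a b : ℤ} (ha : a ≠ 0)
    (h : a • p = b • q) : p = q ∨ p = -q := by
  obtain ⟨c, hc⟩ := hp
  obtain ⟨d, hd⟩ := hq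
  have h1 : a = b * (q ⬝ᵥ c) := by
    have := congrArg (fun x => x ⬝ᵥ c) h
    simp only [smul_dotProduct, smul_eq_mul] at this
    rwa [hc, mul_one] at this
  have h2 : a * (p ⬝ᵥ d) = b := by
    have := congrArg (fun x => x ⬝ᵥ d) h
    simp only [smul_dotProduct, smul_eq_mul] at this
    rwa [hd, mul_one] at this
  have h3 : a ∣ b := ⟨_, h2.symm⟩
  have h4 : b ∣ a := ⟨_, h1⟩
  have h5 : a = b ∨ a = -b := by
    rcases Int.natAbs_eq_natAbs_iff.1 (Nat.dvd_antisymm (Int.natAbs_dvd_natAbs.2 h3)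
      (Int.natAbs_dvd_natAbs.2 h4)) with h | h
    · exact Or.inl h
    · exact Or.inr h
  rcases h5 with rfl | rfl
  · left
    exact smul_right_injective _ ha h
  · right
    have hb : b ≠ 0 := by
      rintro rfl
      simp at ha
    rw [neg_smul] at h
    apply smul_right_injective _ hb
    change b • p = b • (-q)
    rw [smul_neg, ← h, neg_neg]

theorem Prim.vecMul {p : Fin n → ℤ} (hp : Prim p) {X : Mt n} (hX : U X) : Prim (p ᵥ* X) := by
  obtain ⟨X', _, h1⟩ := hX.exists_inv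
  obtain ⟨c, hc⟩ := hp
  refine ⟨X' *ᵥ c, ?_⟩
  rw [← dotProduct_mulVec, mulVec_mulVec, h1, one_mulVec, hc]

theorem exists_prim (ψ : Fin n → ℤ) (hψ : ψ ≠ 0) :
    ∃ (d : ℤ) (p : Fin n → ℤ), d ≠ 0 ∧ Prim p ∧ ψ = d • p := by
  obtain ⟨d, hd⟩ := (IsPrincipalIdealRing.principal (Ideal.span (Set.range ψ))).principal
  have h1 : ∀ i, ∃ c, ψ i = d * c := by
    intro i
    have : ψ i ∈ Ideal.span (Set.range ψ) := Ideal.subset_span ⟨i, rfl⟩
    rw [hd] at this
    obtain ⟨c, hc⟩ := Ideal.mem_span_singleton'.1 this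
    exact ⟨c, by rw [← hc, mul_comm]⟩
  choose p hp using h1
  have hd0 : d ≠ 0 := by
    rintro rfl
    apply hψ
    funext i
    rw [hp, zero_mul]
    rfl
  have h2 : d ∈ Ideal.span (Set.range ψ) := by
    rw [hd]
    exact Ideal.mem_span_singleton_self d
  obtain ⟨c, hc⟩ := (Ideal.mem_span_range_iff_exists_fun).1 h2
  refine ⟨d, p, hd0, ⟨c, ?_⟩, funext hp⟩
  apply mul_left_cancel₀ hd0
  rw [mul_one]
  conv_rhs => rw [← hc]
  unfold dotProduct
  rw [Finset.mul_sum]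
  refine Finset.sum_congr rfl fun i _ => ?_
  rw [hp]
  ring

/-- From a degenerate support to one row. -/
theorem row {K : Type*} [Field K] {s : K} {J : Submodule K (Mt n →₀ K)} (hJ : Bi s J)
    {V0 V1 : Submodule ℚ (Fin n → ℚ)} (hc : Comp V0 V1) {b : Mt n →₀ K} (hb : b ∈ J)
    (hb0 : b ≠ 0) (hdeg : ∀ X, b X ≠ 0 → Deg V0 V1 X) :
    ∃ b' ∈ J, b' ≠ 0 ∧ ∃ ε : Fin n → ℤ, Prim ε ∧
      ∀ X, b' X ≠ 0 → ε ᵥ* X = ε ∨ ε ᵥ* X = -ε := by
  classical
  have hne : b.support.Nonempty := Finsupp.support_nonempty_iff.2 hb0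
  obtain ⟨X0, hX0, hmax⟩ := Finset.exists_max_image b.support
    (fun X => Module.finrank ℚ ↥(V0 ⊔ im X V1)) hne
  have hX0' : b X0 ≠ 0 := Finsupp.mem_support_iff.1 hX0
  have hU0 : U X0 := hJ.unit b hb _ hX0'
  obtain ⟨ψ', hψ'0, hψ'⟩ := exists_killer (lt_top_of_finrank ((hdeg X0 hX0').proper hc hU0))
  obtain ⟨N, ψ1, hN, hψ1, hψN⟩ := clear_denom ψ' hψ'0
  obtain ⟨d, ψ0, hd, hprim, hd'⟩ := exists_prim ψ1 hψ1
  have hψ00 : ψ0 ≠ 0 := by
    rintro rfl
    apply hψ1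
    rw [hd', smul_zero]
  have hk0 : Kills (qv ψ0) (V0 ⊔ im X0 V1) := by
    have h1 : qv ψ0 = ((d : ℚ)⁻¹ * (N : ℚ)) • ψ' := by
      have h2 : (d : ℚ) • qv ψ0 = (N : ℚ) • ψ' := by
        rw [← hψN, hd']
        funext i
        simp [qv]
      have h3 : (d : ℚ) ≠ 0 := by exact_mod_cast hd
      rw [mul_smul, ← h2, smul_smul, inv_mul_cancel₀ h3, one_smul]
    rw [h1]
    exact hψ'.smul _
  -- the elements which are not separable
  have hmain : ∀ Y, b Y ≠ 0 → (∀ v w ψ χ, Adm V0 V1 Y v w ψ χ →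
      vecMulVec v (ψ ᵥ* X0) = vecMulVec (X0 *ᵥ w) χ) →
      Kills (qv (ψ0 ᵥ* Y)) V1 ∧ (ψ0 ᵥ* Y = ψ0 ᵥ* X0 ∨ ψ0 ᵥ* Y = -(ψ0 ᵥ* X0)) := by
    intro Y hY hsep
    have hUY : U Y := hJ.unit b hb _ hY
    obtain ⟨v, w, hv0, hv, hw, hYw⟩ := (hdeg Y hY).exists_vw hUY
    obtain ⟨i, hi⟩ : ∃ i, v i ≠ 0 := Function.ne_iff.1 hv0
    -- for integral row vectors killing `V0 + Y V1`
    have hrow : ∀ ψ : Fin n → ℤ, ψ ≠ 0 → Kills (qv ψ) (V0 ⊔ im Y V1) →
        v i • (ψ ᵥ* X0) = (X0 *ᵥ w) i • (ψ ᵥ* Y) := by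
      intro ψ hψ hk
      have h1 := hsep _ _ _ _ (adm_of hv0 hv hw hYw hψ hk)
      funext j
      have h2 := congrFun (congrFun h1 i) j
      rw [vecMulVec_apply, vecMulVec_apply] at h2
      rw [Pi.smul_apply, Pi.smul_apply, smul_eq_mul, smul_eq_mul]
      exact h2
    have hle : V0 ⊔ im X0 V1 ≤ V0 ⊔ im Y V1 := by
      refine sup_le le_sup_left fun u hu => mem_of_kills fun ψ' hψ' => ?_
      by_cases h0 : ψ' = 0
      · rw [h0, zero_dotProduct]
      obtain ⟨N', ψ, hN', hψ0, hψN'⟩ := clear_denom ψ' h0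
      have hk : Kills (qv ψ) (V0 ⊔ im Y V1) := by rw [hψN']; exact hψ'.smul _
      have h1 := hrow ψ hψ0 hk
      obtain ⟨x, hx, rfl⟩ := hu
      have h2 : (v i : ℚ) * (qv (ψ ᵥ* X0) ⬝ᵥ x) = ((X0 *ᵥ w) i : ℚ) * (qv (ψ ᵥ* Y) ⬝ᵥ x) := by
        have h3 : (v i : ℚ) • qv (ψ ᵥ* X0) = ((X0 *ᵥ w) i : ℚ) • qv (ψ ᵥ* Y) := by
          funext j
          have := congrFun h1 j
          rw [Pi.smul_apply, Pi.smul_apply, smul_eq_mul, smul_eq_mul] at this ⊢
          unfold qv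
          exact_mod_cast this
        rw [← smul_eq_mul, ← smul_dotProduct, h3, smul_dotProduct, smul_eq_mul]
      have h4 : qv (ψ ᵥ* Y) ⬝ᵥ x = 0 := by
        rw [← qm_vecMul, ← dotProduct_mulVec]
        exact hk _ (Submodule.mem_sup_right ⟨x, hx, rfl⟩)
      rw [h4, mul_zero] at h2
      have h5 : (v i : ℚ) ≠ 0 := by exact_mod_cast hi
      have h6 : qv (ψ ᵥ* X0) ⬝ᵥ x = 0 := (mul_eq_zero.1 h2).resolve_left h5
      rw [← qm_vecMul, ← dotProduct_mulVec, hψN', smul_dotProduct, smul_eq_mul] at h6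
      have h7 : (N' : ℚ) ≠ 0 := by exact_mod_cast hN'
      exact (mul_eq_zero.1 h6).resolve_left h7
    have heq : V0 ⊔ im X0 V1 = V0 ⊔ im Y V1 :=
      Submodule.eq_of_le_of_finrank_le hle (hmax Y (Finsupp.mem_support_iff.2 hY))
    have hkY : Kills (qv ψ0) (V0 ⊔ im Y V1) := heq ▸ hk0
    have h1 := hrow ψ0 hψ00 hkY
    refine ⟨?_, ?_⟩
    · intro u hu
      rw [← qm_vecMul, ← dotProduct_mulVec]
      exact hkY _ (Submodule.mem_sup_right ⟨u, hu, rfl⟩)
    · rcases prim_pm (hprim.vecMul hU0) (hprim.vecMul hUY) hi h1 with h | h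
      · exact Or.inl h.symm
      · exact Or.inr (by rw [h, neg_neg])
  obtain ⟨b', hb', hb'0, hs⟩ := GK hJ V0 V1 hb hX0'
  obtain ⟨g0, hg0⟩ := hU0
  have hε : Prim (ψ0 ᵥ* (g0 : Mt n)) := hprim.vecMul ⟨g0, Or.inl rfl⟩
  have hpm : ψ0 ᵥ* X0 = ψ0 ᵥ* (g0 : Mt n) ∨ ψ0 ᵥ* X0 = -(ψ0 ᵥ* (g0 : Mt n)) := by
    rcases hg0 with h | h
    · exact Or.inl (by rw [h])
    · exact Or.inr (by rw [h, vecMul_neg])
  refine ⟨b'.mapDomain (lp g0⁻¹), hJ.left _ b' hb', ?_, ψ0 ᵥ* (g0 : Mt n), hε, ?_⟩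
  · intro h
    apply hb'0
    exact Finsupp.mapDomain_injective (lp g0⁻¹).injective (by rw [h, Finsupp.mapDomain_zero])
  · intro X hX
    rw [Finsupp.mapDomain_equiv_apply] at hX
    obtain ⟨Y, h, h', hY, hh, hh', hXY, hsep⟩ := hs _ hX
    have h1 : (lp g0⁻¹).symm X = (g0 : Mt n) * X := by
      rw [Equiv.symm_apply_eq, lp_apply, ← mul_assoc, ← Matrix.SpecialLinearGroup.coe_mul,
        inv_mul_cancel, Matrix.SpecialLinearGroup.coe_one, one_mul]
    rw [h1] at hXY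
    obtain ⟨hkill, hpmY⟩ := hmain Y hY hsep
    have hfix : ψ0 ᵥ* (h : Mt n) = ψ0 := by
      apply qv_inj
      rw [← qm_vecMul]
      exact hh.row _ fun u hu => hk0 u (Submodule.mem_sup_left hu)
    have hfix' : (ψ0 ᵥ* Y) ᵥ* (h' : Mt n) = ψ0 ᵥ* Y := by
      apply qv_inj
      rw [← qm_vecMul]
      exact hh'.row _ hkill
    have h2 : (ψ0 ᵥ* (g0 : Mt n)) ᵥ* X = ψ0 ᵥ* Y := by
      rw [vecMul_vecMul, hXY, ← vecMul_vecMul, ← vecMul_vecMul, hfix, hfix']
    rw [h2]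
    rcases hpmY with h3 | h3 <;> rcases hpm with h4 | h4
    · exact Or.inl (h3.trans h4)
    · exact Or.inr (h3.trans h4)
    · exact Or.inr (by rw [h3, h4])
    · exact Or.inl (by rw [h3, h4, neg_neg])

end Pool.Agent.Lib.MP_41a456_al
end

section

/-!
# Bounded generation: unimodular rows, reduction from `SL_{m+1}` to `SL_m`
-/

namespace Pool.Agent.Lib.MP_41a456_al

open Matrix

theorem vecMul_one_add {n : ℕ} (r u ψ : Fin n → ℤ) :
    r ᵥ* (1 + vecMulVec u ψ) = r + (r ⬝ᵥ u) • ψ := by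
  rw [vecMul_add, vecMul_one, vecMul_vecMulVec]

theorem el_coe' {n : ℕ} {i j : Fin n} (h : i ≠ j) (c : ℤ) :
    ((el h c : SLn n) : Mt n) = 1 + vecMulVec (Pi.single i c) (Pi.single j 1) := by
  rw [el_coe]
  congr 1
  ext x y
  simp only [Matrix.single, vecMulVec_apply, Pi.single_apply, Matrix.of_apply]
  by_cases hx : i = x <;> by_cases hy : j = y <;> simp [hx, hy, eq_comm]

theorem vecMul_el {n : ℕ} {i j : Fin n} (h : i ≠ j) (c : ℤ) (r : Fin n → ℤ) :
    r ᵥ* ((el h c : SLn n) : Mt n) = r + (r i * c) • Pi.single j 1 := by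
  rw [el_coe', vecMul_one_add, dotProduct_single]

/-- a unimodular row is moved to `e_0` by a bounded number of column operations -/
theorem row_red (k : ℕ) (r : Fin (k + 3) → ℤ) (hr : Prim r) :
    ∃ E : SLn (k + 3), BP (2 * k + 8) E ∧ r ᵥ* (E : Mt (k + 3)) = Pi.single 0 1 := by
  have h01 : (0 : Fin (k + 3)) ≠ 1 := fun h => absurd (congrArg Fin.val h) (by simp)
  have hv2 : ((2 : Fin (k + 3)) : ℕ) = 2 := Nat.mod_eq_of_lt (show 2 < k + 3 by omega)
  have h02 : (0 : Fin (k + 3)) ≠ 2 := fun h => absurd (congrArg Fin.val h) (by rw [hv2]; simp)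
  have h12 : (1 : Fin (k + 3)) ≠ 2 := fun h => absurd (congrArg Fin.val h) (by rw [hv2]; simp)
  -- first step
  have hA : ∃ E : SLn (k + 3), BP 2 E ∧ ∃ c : Fin (k + 3) → ℤ, c 0 = 0 ∧
      (r ᵥ* (E : Mt (k + 3))) ⬝ᵥ c = 1 := by
    obtain ⟨c, hc⟩ := hr
    set c2 : Fin (k + 3) → ℤ := c - Pi.single 0 (c 0) - Pi.single 1 (c 1) with hc2
    have hc20 : c2 0 = 0 := by simp [hc2, h01]
    have hc21 : c2 1 = 0 := by simp [hc2, h01.symm]
    have hG : r ⬝ᵥ c2 = 1 - r 0 * c 0 - r 1 * c 1 := by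
      rw [hc2, dotProduct_sub, dotProduct_sub, hc, dotProduct_single, dotProduct_single]
    by_cases hG0 : r ⬝ᵥ c2 = 0
    · by_cases hr0 : r 0 = 0
      · refine ⟨1, BP.one.mono (by omega), Pi.single 1 (c 1), by simp [h01], ?_⟩
        rw [Matrix.SpecialLinearGroup.coe_one, vecMul_one, dotProduct_single]
        rw [hG0, hr0] at hG
        linarith
      · obtain ⟨τ, hτ⟩ : ∃ τ : ℤ, r 2 + τ * r 0 ≠ 0 := by
          by_cases h2 : r 2 = 0
          · exact ⟨1, by rw [h2]; simpa using hr0⟩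
          · exact ⟨0, by simpa using h2⟩
        obtain ⟨t, α, β, ht⟩ := stab_range (a := r 1) (D := r 0) hτ
          ⟨c 1, c 0, 0, by rw [hG0] at hG; linarith⟩
        refine ⟨el h02 τ * el h01 t, (BP.el h02 τ).mul (BP.el h01 t),
          Pi.single 1 α + Pi.single 2 β, by simp [h01, h02], ?_⟩
        rw [Matrix.SpecialLinearGroup.coe_mul, ← vecMul_vecMul, vecMul_el, vecMul_el]
        simp only [dotProduct_add, add_dotProduct, smul_dotProduct, dotProduct_single,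
          Pi.add_apply, Pi.smul_apply, Pi.single_apply, smul_eq_mul]
        simp [h01, h02, h12, h12.symm]
        linarith
    · obtain ⟨t, α, β, ht⟩ := stab_range (a := r 1) (D := r 0) hG0
        ⟨c 1, c 0, 1, by rw [hG]; ring⟩
      refine ⟨el h01 t, (BP.el h01 t).mono (by omega), Pi.single 1 α + β • c2, by simp [h01, hc20],
        ?_⟩
      rw [vecMul_el]
      simp only [dotProduct_add, add_dotProduct, smul_dotProduct, dotProduct_single,
          Pi.add_apply, Pi.smul_apply, Pi.single_apply, smul_eq_mul, dotProduct_smul,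
          single_dotProduct]
      simp [hc21]
      linarith
  obtain ⟨E1, hE1, c, hc0, hc⟩ := hA
  set r1 := r ᵥ* (E1 : Mt (k + 3)) with hr1
  obtain ⟨E2, hE2, hE2c⟩ := multi_col (0 : Fin (k + 3)) ((1 - r1 0) • c) (by simp [hc0])
  have hr2 : r1 ᵥ* (E2 : Mt (k + 3)) = r1 + (1 - r1 0) • Pi.single 0 1 := by
    rw [hE2c, vecMul_one_add, dotProduct_smul, hc, smul_eq_mul, mul_one]
  set r2 := r1 ᵥ* (E2 : Mt (k + 3)) with hr2'
  have hr20 : r2 0 = 1 := by rw [hr2]; simp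
  obtain ⟨E3, hE3, hE3c⟩ := multi_row (0 : Fin (k + 3)) (Pi.single 0 1 - r2) (by simp [hr20])
  refine ⟨E1 * E2 * E3, ((hE1.mul hE2).mul hE3).mono (by omega), ?_⟩
  rw [Matrix.SpecialLinearGroup.coe_mul, Matrix.SpecialLinearGroup.coe_mul, ← vecMul_vecMul,
    ← vecMul_vecMul, ← hr1, ← hr2', hE3c, vecMul_one_add, dotProduct_single, hr20]
  simp

/-- reduction from `SL_{k+3}` to `SL_{k+2}` -/
theorem red (k : ℕ) (g : SLn (k + 3)) : ∃ (h : SLn (k + 2)) (E E' : SLn (k + 3)),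
    BP (k + 3) E ∧ BP (2 * k + 8) E' ∧ g = E * emb h * E' := by
  have hp : Prim ((g : Mt (k + 3)) 0) := by
    refine ⟨fun i => ((g⁻¹ : SLn (k + 3)) : Mt (k + 3)) i 0, ?_⟩
    have h1 : ((g : Mt (k + 3)) * ((g⁻¹ : SLn (k + 3)) : Mt (k + 3))) 0 0 = 1 := by
      rw [← Matrix.SpecialLinearGroup.coe_mul, mul_inv_cancel, Matrix.SpecialLinearGroup.coe_one,
        Matrix.one_apply_eq]
    rw [Matrix.mul_apply] at h1
    exact h1
  obtain ⟨E1, hE1, hrow⟩ := row_red k _ hp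
  set g1 : SLn (k + 3) := g * E1 with hg1
  have hrow1 : ∀ j, (g1 : Mt (k + 3)) 0 j = (Pi.single 0 1 : Fin (k + 3) → ℤ) j := by
    intro j
    rw [← hrow]
    rfl
  obtain ⟨L, hL, hLc⟩ := multi_col (0 : Fin (k + 3))
    (Pi.single 0 1 - fun i => (g1 : Mt (k + 3)) i 0) (by
      rw [Pi.sub_apply, hrow1 0]; simp)
  set g2 : SLn (k + 3) := L * g1 with hg2
  have hg2c : (g2 : Mt (k + 3)) = (g1 : Mt (k + 3)) +
      vecMulVec (Pi.single 0 1 - fun i => (g1 : Mt (k + 3)) i 0) (Pi.single 0 1) := by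
    rw [hg2, Matrix.SpecialLinearGroup.coe_mul, hLc, Matrix.add_mul, Matrix.one_mul,
      vecMulVec_mul]
    congr 2
    rw [single_one_vecMul]
    funext j
    exact hrow1 j
  have hg200 : (g2 : Mt (k + 3)) 0 0 = 1 := by
    rw [hg2c]
    simp [vecMulVec_apply]
  have hg20 : ∀ j : Fin (k + 2), (g2 : Mt (k + 3)) 0 j.succ = 0 := by
    intro j
    rw [hg2c]
    simp [vecMulVec_apply, hrow1, Fin.succ_ne_zero]
  have hg21 : ∀ i : Fin (k + 2), (g2 : Mt (k + 3)) i.succ 0 = 0 := by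
    intro i
    rw [hg2c]
    simp [vecMulVec_apply, Fin.succ_ne_zero]
  have hdet : ((g2 : Mt (k + 3)).submatrix Fin.succ Fin.succ).det = 1 := by
    have h1 := g2.2
    rw [Matrix.det_succ_row_zero, Fin.sum_univ_succ] at h1
    have h2 : ∑ i : Fin (k + 2), (-1 : ℤ) ^ ((i.succ : Fin (k + 3)) : ℕ) *
        (g2 : Mt (k + 3)) 0 i.succ *
        ((g2 : Mt (k + 3)).submatrix Fin.succ (Fin.succAbove i.succ)).det = 0 := by
      apply Finset.sum_eq_zero
      intro i _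
      rw [hg20 i]
      ring
    rw [h2] at h1
    have h3 : (Fin.succAbove (0 : Fin (k + 3)) : Fin (k + 2) → Fin (k + 3)) = Fin.succ := by
      funext i
      exact Fin.zero_succAbove i
    rw [hg200, h3] at h1
    simpa using h1
  refine ⟨⟨_, hdet⟩, L⁻¹, E1⁻¹, hL.inv, hE1.inv, ?_⟩
  have h4 : emb (⟨_, hdet⟩ : SLn (k + 2)) = g2 := by
    apply Subtype.ext
    ext a b
    refine Fin.cases ?_ (fun a => ?_) a <;> refine Fin.cases ?_ (fun b => ?_) b
    · rw [emb_zero_zero]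
      exact hg200.symm
    · rw [emb_zero_succ]
      exact (hg20 b).symm
    · rw [emb_succ_zero]
      exact (hg21 a).symm
    · rw [emb_succ_succ]
      rfl
  rw [h4, hg2, hg1]
  group

end Pool.Agent.Lib.MP_41a456_al
end

section

/-!
# Bounded generation: explicit computations in `SL_3(ℤ)` (paper 331, 7, BG1)
-/

namespace Pool.Agent.Lib.MP_41a456_al

open Matrix

theorem e01 (c : ℤ) (h : (0 : Fin 3) ≠ 1) :
    ((el h c : SLn 3) : Mt 3) = !![1, c, 0; 0, 1, 0; 0, 0, 1] := by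
  rw [el_coe]; ext i j; fin_cases i <;> fin_cases j <;> simp [Matrix.single]
theorem e02 (c : ℤ) (h : (0 : Fin 3) ≠ 2) :
    ((el h c : SLn 3) : Mt 3) = !![1, 0, c; 0, 1, 0; 0, 0, 1] := by
  rw [el_coe]; ext i j; fin_cases i <;> fin_cases j <;> simp [Matrix.single]
theorem e10 (c : ℤ) (h : (1 : Fin 3) ≠ 0) :
    ((el h c : SLn 3) : Mt 3) = !![1, 0, 0; c, 1, 0; 0, 0, 1] := by
  rw [el_coe]; ext i j; fin_cases i <;> fin_cases j <;> simp [Matrix.single]
theorem e12 (c : ℤ) (h : (1 : Fin 3) ≠ 2) :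
    ((el h c : SLn 3) : Mt 3) = !![1, 0, 0; 0, 1, c; 0, 0, 1] := by
  rw [el_coe]; ext i j; fin_cases i <;> fin_cases j <;> simp [Matrix.single]
theorem e20 (c : ℤ) (h : (2 : Fin 3) ≠ 0) :
    ((el h c : SLn 3) : Mt 3) = !![1, 0, 0; 0, 1, 0; c, 0, 1] := by
  rw [el_coe]; ext i j; fin_cases i <;> fin_cases j <;> simp [Matrix.single]
theorem e21 (c : ℤ) (h : (2 : Fin 3) ≠ 1) :
    ((el h c : SLn 3) : Mt 3) = !![1, 0, 0; 0, 1, 0; 0, c, 1] := by
  rw [el_coe]; ext i j; fin_cases i <;> fin_cases j <;> simp [Matrix.single]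

theorem emb2 (A : SLn 2) {a b c d : ℤ} (hA : (A : Mt 2) = !![a, b; c, d]) :
    ((emb A : SLn 3) : Mt 3) = !![1, 0, 0; 0, a, b; 0, c, d] := by
  rw [emb_coe, hA]; ext i j; fin_cases i <;> fin_cases j <;> rfl

theorem n01 : (0 : Fin 3) ≠ 1 := by decide
theorem n02 : (0 : Fin 3) ≠ 2 := by decide
theorem n10 : (1 : Fin 3) ≠ 0 := by decide
theorem n12 : (1 : Fin 3) ≠ 2 := by decide
theorem n20 : (2 : Fin 3) ≠ 0 := by decide
theorem n21 : (2 : Fin 3) ≠ 1 := by decide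

/-- the signed permutation matrices -/
theorem sgn_perm (s : ℤ) (hs : s = 1 ∨ s = -1) :
    ∃ P : SLn 3, BP 9 P ∧ (P : Mt 3) = !![0, s, 0; s, 0, 0; 0, 0, -1] := by
  have hW : BP 3 (el n01 1 * el n10 (-1) * el n01 1 : SLn 3) :=
    ((BP.el n01 1).mul (BP.el n10 (-1))).mul (BP.el n01 1)
  rcases hs with rfl | rfl
  · have hD : BP 3 (el n12 1 * el n21 (-1) * el n12 1 : SLn 3) :=
      ((BP.el n12 1).mul (BP.el n21 (-1))).mul (BP.el n12 1)
    refine ⟨_, (hD.mul hD).mul hW, ?_⟩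
    simp only [Matrix.SpecialLinearGroup.coe_mul, e01, e10, e12, e21, Matrix.mul_fin_three]
    norm_num
  · have hD : BP 3 (el n02 1 * el n20 (-1) * el n02 1 : SLn 3) :=
      ((BP.el n02 1).mul (BP.el n20 (-1))).mul (BP.el n02 1)
    refine ⟨_, (hD.mul hD).mul hW, ?_⟩
    simp only [Matrix.SpecialLinearGroup.coe_mul, e01, e10, e02, e20, Matrix.mul_fin_three]
    norm_num

/-- BG1 -/
theorem bg1_rel {A B : SLn 2} {x y g k s p q : ℤ} (hs : s = 1 ∨ s = -1) (hx : x = s + g * k)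
    (hA : (A : Mt 2) = !![x, g * y; p, q]) (hB : (B : Mt 2) = !![x, y; g * p, q]) :
    ∃ L R : SLn 3, BP 12 L ∧ BP 12 R ∧ emb A = L * emb B * R := by
  obtain ⟨P1, hP1, hP1c⟩ := sgn_perm 1 (Or.inl rfl)
  obtain ⟨P2, hP2, hP2c⟩ := sgn_perm s hs
  have hss : s * s = 1 := by rcases hs with rfl | rfl <;> norm_num
  have hL : BP 3 (el n01 (s * k) * el n21 (-(s * p)) * el n10 g : SLn 3) :=
    ((BP.el n01 _).mul (BP.el n21 _)).mul (BP.el n10 _)
  have hR : BP 3 (el n01 (-k) * el n02 (-y) * el n10 (-(s * g)) : SLn 3) :=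
    ((BP.el n01 _).mul (BP.el n02 _)).mul (BP.el n10 _)
  have key : (el n01 (s * k) * el n21 (-(s * p)) * el n10 g : SLn 3) * emb A *
      (el n01 (-k) * el n02 (-y) * el n10 (-(s * g)) : SLn 3) = P1 * emb B * P2 := by
    apply Subtype.ext
    simp only [Matrix.SpecialLinearGroup.coe_mul, e01, e10, e02, e21, emb2 A hA, emb2 B hB, hP1c,
      hP2c, Matrix.mul_fin_three, hx]
    rcases hs with rfl | rfl <;> ext i j <;> fin_cases i <;> fin_cases j <;> simp <;> ring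
  refine ⟨(el n01 (s * k) * el n21 (-(s * p)) * el n10 g : SLn 3)⁻¹ * P1,
    P2 * (el n01 (-k) * el n02 (-y) * el n10 (-(s * g)) : SLn 3)⁻¹, hL.inv.mul hP1,
    hP2.mul hR.inv, ?_⟩
  rw [← mul_assoc, mul_assoc _ P1, mul_assoc _ (P1 * emb B), ← key]
  group

end Pool.Agent.Lib.MP_41a456_al
end

section

/-!
# Bounded generation: powers (paper 331, 7, BG2, BG3)
-/

namespace Pool.Agent.Lib.MP_41a456_al

open Matrix

theorem emb_el01 (c : ℤ) (h : (0 : Fin 2) ≠ 1) : BP 1 (emb (el h c : SLn 2) : SLn 3) :=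
  (BP.el h c).emb

theorem det2 (A : SLn 2) : (A : Mt 2) 0 0 * (A : Mt 2) 1 1 - (A : Mt 2) 0 1 * (A : Mt 2) 1 0 = 1 := by
  rw [← Matrix.det_fin_two]
  exact A.2

/-- two matrices with the same first row -/
theorem Q.of_one {N : ℕ} {a b : ℤ} (A : SLn 2) (h0 : (A : Mt 2) 0 0 = a) (h1 : (A : Mt 2) 0 1 = b)
    (h : BP N (emb A : SLn 3)) : Q (N + 1) a b := by
  intro B hB0 hB1
  have h10 : (1 : Fin 2) ≠ 0 := by decide
  have key : B = el h10 ((B : Mt 2) 1 0 * (A : Mt 2) 1 1 - (B : Mt 2) 1 1 * (A : Mt 2) 1 0) * A := by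
    apply Subtype.ext
    have dA := det2 A
    have dB := det2 B
    rw [h0, h1] at dA
    rw [hB0, hB1] at dB
    rw [Matrix.SpecialLinearGroup.coe_mul, el_coe, Matrix.eta_fin_two (A : Mt 2),
      Matrix.eta_fin_two (B : Mt 2), h0, h1, hB0, hB1]
    ext i j
    fin_cases i <;> fin_cases j <;> simp [Matrix.mul_apply, Fin.sum_univ_two, Matrix.single]
    · linear_combination (-(B : Mt 2) 1 0) * dA + (A : Mt 2) 1 0 * dB
    · linear_combination (-(B : Mt 2) 1 1) * dA + (A : Mt 2) 1 1 * dB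
  rw [key, map_mul, add_comm N 1]
  exact (BP.el h10 _).emb.mul h

/-- column operations -/
theorem Q.addcol {N : ℕ} {a b : ℤ} (k : ℤ) (h : Q N a b) : Q (N + 1) (a + k * b) b := by
  intro B hB0 hB1
  have h10 : (1 : Fin 2) ≠ 0 := by decide
  have key : B = (B * el h10 (-k)) * el h10 k := by
    rw [mul_assoc, ← Matrix.SpecialLinearGroup.transvection_add]
    simp
  rw [key, map_mul]
  refine (h _ ?_ ?_).mul (BP.el h10 k).emb
  · rw [Matrix.SpecialLinearGroup.coe_mul, el_coe]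
    simp [Matrix.mul_apply, Fin.sum_univ_two, Matrix.single, hB0, hB1]
    ring
  · rw [Matrix.SpecialLinearGroup.coe_mul, el_coe]
    simp [Matrix.mul_apply, Fin.sum_univ_two, Matrix.single, hB0, hB1]

theorem Q.addcol' {N : ℕ} {a b : ℤ} (k : ℤ) (h : Q N a b) : Q (N + 1) a (b + k * a) := by
  intro B hB0 hB1
  have h01 : (0 : Fin 2) ≠ 1 := by decide
  have key : B = (B * el h01 (-k)) * el h01 k := by
    rw [mul_assoc, ← Matrix.SpecialLinearGroup.transvection_add]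
    simp
  rw [key, map_mul]
  refine (h _ ?_ ?_).mul (BP.el h01 k).emb
  · rw [Matrix.SpecialLinearGroup.coe_mul, el_coe]
    simp [Matrix.mul_apply, Fin.sum_univ_two, Matrix.single, hB0, hB1]
  · rw [Matrix.SpecialLinearGroup.coe_mul, el_coe]
    simp [Matrix.mul_apply, Fin.sum_univ_two, Matrix.single, hB0, hB1]
    ring

/-- `-1` in `SL_2(ℤ)` -/
theorem neg_one_two : BP 6 (emb (-1 : SLn 2) : SLn 3) := by
  have hD : BP 3 (el n12 1 * el n21 (-1) * el n12 1 : SLn 3) :=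
      ((BP.el n12 1).mul (BP.el n21 (-1))).mul (BP.el n12 1)
  have key : (emb (-1 : SLn 2) : SLn 3) = (el n12 1 * el n21 (-1) * el n12 1) *
      (el n12 1 * el n21 (-1) * el n12 1) := by
    apply Subtype.ext
    have h1 : ((-1 : SLn 2) : Mt 2) = !![-1, 0; 0, -1] := by
      ext i j
      fin_cases i <;> fin_cases j <;> simp
    rw [emb2 _ h1]
    simp only [Matrix.SpecialLinearGroup.coe_mul, e12, e21, Matrix.mul_fin_three]
    norm_num
  rw [key]
  exact hD.mul hD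

theorem Q.neg {N : ℕ} {a b : ℤ} (h : Q N a b) : Q (N + 6) (-a) (-b) := by
  intro B hB0 hB1
  have key : B = (-B) * (-1 : SLn 2) := by simp
  rw [key, map_mul]
  refine (h _ ?_ ?_).mul neg_one_two
  · rw [Matrix.SpecialLinearGroup.coe_neg]
    simp [hB0]
  · rw [Matrix.SpecialLinearGroup.coe_neg]
    simp [hB1]

theorem Q_one_zero : Q 1 1 0 :=
  Q.of_one (N := 0) (1 : SLn 2) (by simp) (by simp) (by rw [map_one]; exact BP.one)

/-- BG3 -/
theorem Q_bg3 (k b : ℤ) : Q 3 (1 + k * b) b := by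
  have h1 : Q 2 1 (0 + b * 1) := Q_one_zero.addcol' b
  rw [zero_add, mul_one] at h1
  exact h1.addcol k

/-- Cayley-Hamilton: `A^m = f + g A`, with `f² + f g tr A + g² = 1` and `f + g a ≡ a^m` mod `b`. -/
theorem pow_two (A : SLn 2) (m : ℕ) : ∃ f g : ℤ,
    ((A ^ m : SLn 2) : Mt 2) = !![f + g * (A : Mt 2) 0 0, g * (A : Mt 2) 0 1;
      g * (A : Mt 2) 1 0, f + g * (A : Mt 2) 1 1] ∧
    f ^ 2 + f * g * ((A : Mt 2) 0 0 + (A : Mt 2) 1 1) + g ^ 2 = 1 ∧
    ∃ r : ℤ, f + g * (A : Mt 2) 0 0 = ((A : Mt 2) 0 0) ^ m + r * (A : Mt 2) 0 1 := by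
  have hd := det2 A
  induction m with
  | zero =>
    refine ⟨1, 0, ?_, by ring, 0, by ring⟩
    rw [pow_zero, Matrix.SpecialLinearGroup.coe_one]
    ext i j
    fin_cases i <;> fin_cases j <;> simp
  | succ m ih =>
    obtain ⟨f, g, h1, h2, r, h3⟩ := ih
    refine ⟨-g, f + g * ((A : Mt 2) 0 0 + (A : Mt 2) 1 1), ?_, ?_,
      (A : Mt 2) 0 0 * r + g * (A : Mt 2) 1 0, ?_⟩
    · rw [pow_succ, Matrix.SpecialLinearGroup.coe_mul, h1]
      have h4 : (A : Mt 2) = !![(A : Mt 2) 0 0, (A : Mt 2) 0 1; (A : Mt 2) 1 0, (A : Mt 2) 1 1] :=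
        Matrix.eta_fin_two _
      generalize (A : Mt 2) 0 0 = a at *
      generalize (A : Mt 2) 0 1 = b at *
      generalize (A : Mt 2) 1 0 = c at *
      generalize (A : Mt 2) 1 1 = d at *
      rw [h4, Matrix.mul_fin_two]
      ext i j
      fin_cases i <;> fin_cases j <;> simp
      · linear_combination (-g) * hd
      · ring
      · ring
      · linear_combination (-g) * hd
    · linear_combination h2
    · rw [pow_succ]
      linear_combination g * hd + (A : Mt 2) 0 0 * h3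

/-- BG2 -/
theorem bg2 (A : SLn 2) (m : ℕ) (N : ℕ) :
    (Q N (((A : Mt 2) 0 0) ^ m) ((A : Mt 2) 0 1) → BP (N + 50) (emb (A ^ m) : SLn 3)) ∧
    (BP N (emb (A ^ m) : SLn 3) → Q (N + 50) (((A : Mt 2) 0 0) ^ m) ((A : Mt 2) 0 1)) := by
  obtain ⟨f, g, h1, h2, r, h3⟩ := pow_two A m
  set a := (A : Mt 2) 0 0 with ha
  set b := (A : Mt 2) 0 1 with hb
  set c := (A : Mt 2) 1 0 with hc
  set d := (A : Mt 2) 1 1 with hd
  have hdvd : g ∣ (f - 1) * (f + 1) := ⟨-(f * (a + d) + g), by linear_combination h2⟩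
  obtain ⟨g1, g2, ⟨k1, hk1⟩, ⟨k2, hk2⟩, hg⟩ := exists_dvd_and_dvd_of_dvd_mul hdvd
  have hA : ((A ^ m : SLn 2) : Mt 2) = !![f + g * a, g1 * (g2 * b); g * c, f + g * d] := by
    rw [h1, ← mul_assoc g1, ← hg]
  have hdet := det2 (A ^ m)
  rw [hA] at hdet
  simp at hdet
  have hd1 : (!![f + g * a, g2 * b; g1 * (g * c), f + g * d] : Mt 2).det = 1 := by
    rw [Matrix.det_fin_two_of]
    linear_combination hdet
  have hd2 : (!![f + g * a, b; g2 * (g1 * (g * c)), f + g * d] : Mt 2).det = 1 := by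
    rw [Matrix.det_fin_two_of]
    linear_combination hdet
  obtain ⟨L1, R1, hL1, hR1, e1⟩ := bg1_rel (A := A ^ m) (B := ⟨_, hd1⟩) (s := 1)
    (k := k1 + g2 * a) (Or.inl rfl) (by rw [hg]; linear_combination hk1) hA rfl
  obtain ⟨L2, R2, hL2, hR2, e2⟩ := bg1_rel (A := ⟨_, hd1⟩) (B := ⟨_, hd2⟩) (s := -1)
    (k := k2 + g1 * a) (Or.inr rfl) (by rw [hg]; linear_combination hk2) rfl rfl
  have e3 : (emb (A ^ m) : SLn 3) = (L1 * L2) * emb (⟨_, hd2⟩ : SLn 2) * (R2 * R1) := by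
    rw [e1, e2]
    group
  refine ⟨fun hQ => ?_, fun hBP => ?_⟩
  · have h4 : BP (N + 1) (emb (⟨_, hd2⟩ : SLn 2) : SLn 3) := by
      refine hQ.addcol r _ ?_ ?_
      · rw [← h3]
        rfl
      · rfl
    rw [e3]
    exact (((hL1.mul hL2).mul h4).mul (hR2.mul hR1)).mono (by omega)
  · have h4 : (emb (⟨_, hd2⟩ : SLn 2) : SLn 3) = (L1 * L2)⁻¹ * emb (A ^ m) * (R2 * R1)⁻¹ := by
      rw [e3]
      group
    have h5 : BP (24 + N + 24) (emb (⟨_, hd2⟩ : SLn 2) : SLn 3) := by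
      rw [h4]
      exact ((hL1.mul hL2).inv.mul hBP).mul (hR2.mul hR1).inv
    have h6 : Q (24 + N + 24 + 1) (f + g * a) b := Q.of_one (⟨_, hd2⟩ : SLn 2) rfl rfl h5
    have h7 := h6.addcol (-r)
    have h8 : f + g * a + -r * b = a ^ m := by rw [h3]; ring
    rw [h8] at h7
    exact h7.mono (by omega)

end Pool.Agent.Lib.MP_41a456_al
end

section

/-!
# From one row to the unipotent radical (paper 331, section 4)
-/

namespace Pool.Agent.Lib.MP_41a456_al

open Matrix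

/-- the row vector `(1, 0, ..., 0)` -/
abbrev e0 (k : ℕ) : Fin (k + 3) → ℤ := Pi.single 0 1

theorem of_fix {k : ℕ} (Z : Mt (k + 3)) {c : ℤ} (hc : c = 1 ∨ c = -1)
    (hfix : ∀ u : Fin (k + 3) → ℤ, u 0 = 0 → Z *ᵥ u = c • u) (hrow : e0 k ᵥ* Z = c • e0 k) :
    ∃ u : Fin (k + 3) → ℤ, u 0 = 0 ∧ Z = c • (1 + vecMulVec u (e0 k)) := by
  have hcc : c * c = 1 := by rcases hc with rfl | rfl <;> norm_num
  refine ⟨fun i => c * Z i 0 - (Pi.single 0 1 : Fin (k + 3) → ℤ) i, ?_, ?_⟩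
  · have h1 := congrFun hrow 0
    rw [single_one_vecMul] at h1
    simp only [Matrix.row, Pi.smul_apply, Pi.single_eq_same, smul_eq_mul, mul_one] at h1
    simp only [Pi.single_eq_same]
    rw [h1]
    linarith
  · ext i j
    by_cases hj : j = 0
    · subst hj
      rw [Matrix.smul_apply, Matrix.add_apply, vecMulVec_apply, Matrix.one_apply, smul_eq_mul]
      by_cases hi : i = 0
      · subst hi
        simp
        linear_combination (-(Z 0 0)) * hcc
      · simp [hi]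
        linear_combination (-(Z i 0)) * hcc
    · have h1 := congrFun (hfix (Pi.single j 1) (by simp [Ne.symm hj])) i
      rw [mulVec_single_one] at h1
      simp only [Matrix.col, Pi.smul_apply, smul_eq_mul] at h1
      rw [Matrix.smul_apply, Matrix.add_apply, vecMulVec_apply, smul_eq_mul]
      have h2 : (e0 k) j = 0 := by simp [hj]
      rw [h2, mul_zero, add_zero, Matrix.one_apply]
      rw [Matrix.transpose_apply] at h1
      rw [h1, Pi.single_apply]

/-- the subspace `x_0 = 0` -/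
def kerE (k : ℕ) : Submodule ℚ (Fin (k + 3) → ℚ) := LinearMap.ker (LinearMap.proj 0)

theorem mem_kerE {k : ℕ} {x : Fin (k + 3) → ℚ} : x ∈ kerE k ↔ x 0 = 0 := Iff.rfl

theorem kills_kerE (k : ℕ) : Kills (qv (e0 k)) (kerE k) := by
  intro u hu
  have h1 : qv (e0 k) = Pi.single 0 1 := by
    funext i
    unfold qv
    by_cases hi : i = 0
    · subst hi; simp
    · simp [hi]
  rw [h1, single_dotProduct, one_mul]
  exact hu

theorem UF.fixZ {k : ℕ} {h : SLn (k + 3)} (hh : UF (kerE k) h) {u : Fin (k + 3) → ℤ}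
    (hu : u 0 = 0) : (h : Mt (k + 3)) *ᵥ u = u := by
  apply qv_inj
  rw [← qm_mulVec]
  exact hh.fix _ (by rw [mem_kerE]; unfold qv; exact_mod_cast hu)

theorem UF.rowZ {k : ℕ} {h : SLn (k + 3)} (hh : UF (kerE k) h) :
    e0 k ᵥ* (h : Mt (k + 3)) = e0 k := by
  apply qv_inj
  rw [← qm_vecMul]
  exact hh.row _ (kills_kerE k)

theorem row_mul_zero {k : ℕ} {Y : Mt (k + 3)} {c : ℤ} (hY : e0 k ᵥ* Y = c • e0 k)
    {u : Fin (k + 3) → ℤ} (hu : u 0 = 0) : (Y *ᵥ u) 0 = 0 := by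
  have h1 : (e0 k) ⬝ᵥ (Y *ᵥ u) = 0 := by
    rw [dotProduct_mulVec, hY, smul_dotProduct, single_dotProduct, hu, mul_zero, smul_zero]
  rwa [single_dotProduct, one_mul] at h1

/-- From one row to the unipotent radical. -/
theorem unip {K : Type*} [Field K] {s : K} {k : ℕ} {J : Submodule K (Mt (k + 3) →₀ K)}
    (hJ : Bi s J) {b : Mt (k + 3) →₀ K} (hb : b ∈ J) (hb0 : b ≠ 0) {ε : Fin (k + 3) → ℤ}
    (hε : Prim ε) (hrow : ∀ X, b X ≠ 0 → ε ᵥ* X = ε ∨ ε ᵥ* X = -ε) :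
    ∃ b' ∈ J, b' ≠ 0 ∧ ∀ X, b' X ≠ 0 → ∃ u : Fin (k + 3) → ℤ, u 0 = 0 ∧
      (X = 1 + vecMulVec u (e0 k) ∨ X = -(1 + vecMulVec u (e0 k))) := by
  obtain ⟨g, _, hg⟩ := row_red k ε hε
  -- move the row to `e0`
  set b1 : Mt (k + 3) →₀ K := (b.mapDomain (lp g⁻¹)).mapDomain (rp g) with hb1
  have hb1J : b1 ∈ J := hJ.right _ _ (hJ.left _ _ hb)
  have hb10 : b1 ≠ 0 := by
    intro h
    apply hb0
    apply Finsupp.mapDomain_injective (lp g⁻¹).injective
    apply Finsupp.mapDomain_injective (rp g).injective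
    rw [← hb1, h, Finsupp.mapDomain_zero, Finsupp.mapDomain_zero]
  have hrow1 : ∀ X, b1 X ≠ 0 → ∃ c : ℤ, (c = 1 ∨ c = -1) ∧ e0 k ᵥ* X = c • e0 k := by
    intro X hX
    rw [hb1, Finsupp.mapDomain_equiv_apply, Finsupp.mapDomain_equiv_apply] at hX
    set X' := (lp g⁻¹).symm ((rp g).symm X) with hX'
    have h1 : X = ((g⁻¹ : SLn (k + 3)) : Mt (k + 3)) * X' * (g : Mt (k + 3)) := by
      have h2 : rp g (lp g⁻¹ X') = X := by
        rw [hX', Equiv.apply_symm_apply, Equiv.apply_symm_apply]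
      rw [← h2]
      rfl
    have h3 : e0 k ᵥ* ((g⁻¹ : SLn (k + 3)) : Mt (k + 3)) = ε := by
      have h4 : (e0 k) = ε ᵥ* (g : Mt (k + 3)) := hg.symm
      rw [h4, vecMul_vecMul, ← Matrix.SpecialLinearGroup.coe_mul, mul_inv_cancel,
        Matrix.SpecialLinearGroup.coe_one, vecMul_one]
    rcases hrow X' hX with h5 | h5
    · refine ⟨1, Or.inl rfl, ?_⟩
      rw [h1, ← vecMul_vecMul, ← vecMul_vecMul, h3, h5, hg, one_smul]
    · refine ⟨-1, Or.inr rfl, ?_⟩
      rw [h1, ← vecMul_vecMul, ← vecMul_vecMul, h3, h5, neg_vecMul, hg, neg_one_smul]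
  obtain ⟨X0, hX0⟩ : ∃ X0, b1 X0 ≠ 0 := by
    by_contra h
    push Not at h
    exact hb10 (Finsupp.ext h)
  obtain ⟨c0, hc0, hr0⟩ := hrow1 X0 hX0
  obtain ⟨g0, hg0⟩ := hJ.unit b1 hb1J _ hX0
  obtain ⟨s0, hs0, hXg⟩ : ∃ s0 : ℤ, (s0 = 1 ∨ s0 = -1) ∧ X0 = s0 • (g0 : Mt (k + 3)) := by
    rcases hg0 with h | h
    · exact ⟨1, Or.inl rfl, by rw [h, one_smul]⟩
    · exact ⟨-1, Or.inr rfl, by rw [h, neg_one_smul]⟩
  have hss : s0 * s0 = 1 := by rcases hs0 with rfl | rfl <;> norm_num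
  have hcc : c0 * c0 = 1 := by rcases hc0 with rfl | rfl <;> norm_num
  have hg0inv : (g0 : Mt (k + 3)) * ((g0⁻¹ : SLn (k + 3)) : Mt (k + 3)) = 1 := by
    rw [← Matrix.SpecialLinearGroup.coe_mul, mul_inv_cancel, Matrix.SpecialLinearGroup.coe_one]
  have hrg : e0 k ᵥ* ((g0⁻¹ : SLn (k + 3)) : Mt (k + 3)) = (s0 * c0) • e0 k := by
    have h1 : e0 k ᵥ* (g0 : Mt (k + 3)) = (s0 * c0) • e0 k := by
      have h2 : (g0 : Mt (k + 3)) = s0 • X0 := by rw [hXg, smul_smul, hss, one_smul]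
      rw [h2, vecMul_smul, hr0, smul_smul]
    have h3 : e0 k = (s0 * c0) • (e0 k ᵥ* (g0 : Mt (k + 3))) := by
      rw [h1, smul_smul]
      have : s0 * c0 * (s0 * c0) = 1 := by linear_combination (c0 * c0) * hss + hcc
      rw [this, one_smul]
    conv_lhs => rw [h3]
    rw [smul_vecMul, vecMul_vecMul, hg0inv, vecMul_one]
  obtain ⟨b', hb', hb'0, hs⟩ := GK hJ (kerE k) (kerE k) hb1J hX0
  refine ⟨b'.mapDomain (rp g0⁻¹), hJ.right _ b' hb', ?_, ?_⟩
  · intro h
    apply hb'0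
    exact Finsupp.mapDomain_injective (rp g0⁻¹).injective (by rw [h, Finsupp.mapDomain_zero])
  · intro Z hZ
    rw [Finsupp.mapDomain_equiv_apply] at hZ
    obtain ⟨Y, h, h', hY, hh, hh', hXY, hsep⟩ := hs _ hZ
    obtain ⟨cY, hcY, hrY⟩ := hrow1 Y hY
    have hcYY : cY * cY = 1 := by rcases hcY with rfl | rfl <;> norm_num
    have hUY : U Y := hJ.unit b1 hb1J _ hY
    have hZ1 : Z = (h : Mt (k + 3)) * Y * (h' : Mt (k + 3)) *
        ((g0⁻¹ : SLn (k + 3)) : Mt (k + 3)) := by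
      rw [← hXY]
      exact ((rp g0⁻¹).apply_symm_apply Z).symm
    -- on `ker e0`
    have hsep' : ∀ u : Fin (k + 3) → ℤ, u 0 = 0 → Y *ᵥ u = (c0 * cY) • (X0 *ᵥ u) := by
      intro u hu
      by_cases hu0 : u = 0
      · rw [hu0, mulVec_zero, mulVec_zero, smul_zero]
      have hYu0 : Y *ᵥ u ≠ 0 := by
        intro h0
        apply hu0
        apply qv_inj
        apply hUY.inj
        rw [qm_mulVec, qm_mulVec, h0, mulVec_zero]
      have hA : Adm (kerE k) (kerE k) Y (Y *ᵥ u) u (e0 k) (e0 k ᵥ* Y) :=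
        { v0 := hYu0
          ψ0 := by
            intro h0
            have := congrFun h0 0
            simp at this
          hv := by
            rw [mem_kerE]
            unfold qv
            exact_mod_cast row_mul_zero hrY hu
          hw := by
            rw [mem_kerE]
            unfold qv
            exact_mod_cast hu
          hψ := kills_kerE k
          hχ := by
            rw [hrY]
            intro x hx
            have h1 : qv (cY • e0 k) = (cY : ℚ) • qv (e0 k) := by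
              funext i
              simp [qv]
            rw [h1, smul_dotProduct, kills_kerE k x hx, smul_zero]
          yw := rfl
          ψy := rfl }
      have h1 := hsep _ _ _ _ hA
      funext i
      have h2 := congrFun (congrFun h1 i) 0
      rw [vecMulVec_apply, vecMulVec_apply, hr0, hrY] at h2
      simp only [Pi.smul_apply, Pi.single_eq_same, smul_eq_mul, mul_one] at h2
      rw [Pi.smul_apply, smul_eq_mul]
      linear_combination c0 * h2 + (-((Y *ᵥ u) i)) * hcc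
    have hpm : ∃ c : ℤ, (c = 1 ∨ c = -1) ∧ c = c0 * cY * s0 := by
      refine ⟨c0 * cY * s0, ?_, rfl⟩
      rcases hc0 with rfl | rfl <;> rcases hcY with rfl | rfl <;> rcases hs0 with rfl | rfl <;>
        norm_num
    obtain ⟨c, hc, hcdef⟩ := hpm
    obtain ⟨u, hu, hu'⟩ := of_fix Z hc (by
      intro u hu
      have hu1 : ((((g0⁻¹ : SLn (k + 3)) : Mt (k + 3)) *ᵥ u)) 0 = 0 := row_mul_zero hrg hu
      rw [hZ1, ← mulVec_mulVec, ← mulVec_mulVec, ← mulVec_mulVec, hh'.fixZ hu1, hsep' _ hu1, hXg,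
        smul_mulVec, mulVec_mulVec, hg0inv, one_mulVec, smul_smul, ← hcdef]
      refine hh.fixZ ?_
      rw [Pi.smul_apply, hu, smul_zero]) (by
      rw [hZ1, ← vecMul_vecMul, ← vecMul_vecMul, ← vecMul_vecMul, hh.rowZ, hrY, smul_vecMul,
        hh'.rowZ, smul_vecMul, hrg, smul_smul, hcdef]
      congr 1
      ring)
    refine ⟨u, hu, ?_⟩
    rcases hc with rfl | rfl
    · left; rw [hu', one_smul]
    · right; rw [hu', neg_one_smul]

end Pool.Agent.Lib.MP_41a456_al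
end

section

/-!
# Few matrices are degenerate along nested pairs (paper 331, section 10)
-/

namespace Pool.Agent.Lib.MP_41a456_al

open Matrix

variable {n : ℕ}

theorem exists_hyper {W V : Submodule ℚ (Fin n → ℚ)} (hWV : W ≤ V) {P : ℕ}
    (hV : Module.finrank ℚ V = P + 1) (hW : Module.finrank ℚ W ≤ P) :
    ∃ V', W ≤ V' ∧ V' ≤ V ∧ Module.finrank ℚ V' = P := by
  have hne : ¬ V ≤ W := by
    intro h
    have := Submodule.finrank_mono h
    omega
  obtain ⟨x, hxV, hxW⟩ := SetLike.not_le_iff_exists.1 hne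
  obtain ⟨f, hf, hfW⟩ := Submodule.exists_le_ker_of_notMem hxW
  refine ⟨V ⊓ LinearMap.ker f, le_inf hWV hfW, inf_le_left, ?_⟩
  have h1 := Submodule.finrank_sup_add_finrank_inf_eq V (LinearMap.ker f)
  have h2 := LinearMap.finrank_range_add_finrank_ker f
  have h3 : Module.finrank ℚ (LinearMap.range f) ≤ 1 := by
    have := Submodule.finrank_le (LinearMap.range f)
    rwa [Module.finrank_self] at this
  have h4 : Module.finrank ℚ ↥(V ⊔ LinearMap.ker f) ≤ Module.finrank ℚ (Fin n → ℚ) :=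
    Submodule.finrank_le _
  have h5 : V ⊓ LinearMap.ker f < V := by
    refine lt_of_le_of_ne inf_le_left fun h => ?_
    have : x ∈ V ⊓ LinearMap.ker f := by rw [h]; exact hxV
    exact hf this.2
  have h6 := Submodule.finrank_lt_finrank_of_lt h5
  omega

theorem finrank_sup_singleton {V : Submodule ℚ (Fin n → ℚ)} {m : Fin n → ℚ} (hm : m ∉ V) :
    Module.finrank ℚ ↥(V ⊔ Submodule.span ℚ {m}) = Module.finrank ℚ V + 1 := by
  have h1 := Submodule.finrank_sup_add_finrank_inf_eq V (Submodule.span ℚ {m})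
  have hm0 : m ≠ 0 := by
    rintro rfl
    exact hm V.zero_mem
  have h2 : V ⊓ Submodule.span ℚ {m} = ⊥ := by
    rw [Submodule.eq_bot_iff]
    rintro x ⟨hx1, hx2⟩
    obtain ⟨c, rfl⟩ := Submodule.mem_span_singleton.1 hx2
    by_cases hc : c = 0
    · rw [hc, zero_smul]
    · exfalso
      apply hm
      have := V.smul_mem c⁻¹ hx1
      rwa [smul_smul, inv_mul_cancel₀ hc, one_smul] at this
  rw [h2, finrank_bot, finrank_span_singleton hm0] at h1
  omega

theorem sup_eq_top_of_nondeg {V0 V1 : Submodule ℚ (Fin n → ℚ)} (hc : Comp V0 V1) {g : Mt n}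
    (hU : U g) (hd : ¬ Deg V0 V1 g) : V0 ⊔ im g V1 = ⊤ := by
  apply Submodule.eq_top_of_finrank_eq
  have h1 := Submodule.finrank_sup_add_finrank_inf_eq V0 (im g V1)
  have h2 : V0 ⊓ im g V1 = ⊥ := by
    rw [Submodule.eq_bot_iff]
    rintro x ⟨hx1, w, hw, rfl⟩
    by_contra h
    apply hd
    refine ⟨w, hw, ?_, hx1⟩
    rintro rfl
    exact h (map_zero _)
  rw [h2, finrank_bot, finrank_im hU, hc] at h1
  rw [Module.finrank_pi, Fintype.card_fin]
  omega

/-- few matrices -/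
theorem few (P : ℕ) : ∀ (V0 V1 : Submodule ℚ (Fin n → ℚ)) (S : Finset (Mt n)),
    Module.finrank ℚ V0 = P → Comp V0 V1 → (∀ g ∈ S, U g) → (∀ g ∈ S, ¬ Deg V0 V1 g) →
    2 * S.card ≤ P * (P - 1) →
    ∃ L : List (Submodule ℚ (Fin n → ℚ) × Submodule ℚ (Fin n → ℚ)),
      (L.Pairwise fun p q => q.1 ≤ p.1 ∧ p.2 ≤ q.2) ∧
      (∀ p ∈ L, Comp p.1 p.2 ∧ p.1 ≤ V0 ∧ V1 ≤ p.2) ∧ ∀ g ∈ S, ∃ p ∈ L, Deg p.1 p.2 g := by
  classical
  induction P with
  | zero =>
    intro V0 V1 S _ _ _ _ hS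
    refine ⟨[], List.Pairwise.nil, by simp, fun g hg => ?_⟩
    have : S.card = 0 := by omega
    rw [Finset.card_eq_zero.1 this] at hg
    simp at hg
  | succ P ih =>
    intro V0 V1 S hV0 hc hU hnd hS
    rcases Finset.eq_empty_or_nonempty S with rfl | hSne
    · exact ⟨[], List.Pairwise.nil, by simp, by simp⟩
    have hP1 : 1 ≤ P := by
      by_contra h
      have h0 : P = 0 := by omega
      subst h0
      have := Finset.card_pos.2 hSne
      omega
    have hVn : Module.finrank ℚ V1 + (P + 1) = n := by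
      unfold Comp at hc
      omega
    obtain ⟨m, hm⟩ : ∃ m, m ∉ V1 := by
      by_contra h
      push Not at h
      have h1 : V1 = ⊤ := by rw [Submodule.eq_top_iff']; exact h
      rw [h1, finrank_top, Module.finrank_pi, Fintype.card_fin] at hVn
      omega
    have hdec : ∀ g : Mt n, ∃ u w : Fin n → ℚ, g ∈ S → u ∈ V0 ∧ w ∈ V1 ∧
        qm g *ᵥ m = u + qm g *ᵥ w := by
      intro g
      by_cases hg : g ∈ S
      · have h1 : qm g *ᵥ m ∈ V0 ⊔ im g V1 := by
          rw [sup_eq_top_of_nondeg hc (hU g hg) (hnd g hg)]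
          trivial
        obtain ⟨u, hu, _, ⟨w, hw, rfl⟩, h2⟩ := Submodule.mem_sup.1 h1
        exact ⟨u, w, fun _ => ⟨hu, hw, h2.symm⟩⟩
      · exact ⟨0, 0, fun h => absurd h hg⟩
    choose u w huw using hdec
    obtain ⟨T, hTS, hT⟩ := Finset.exists_subset_card_eq (min_le_left S.card P)
    have hspan : Module.finrank ℚ (Submodule.span ℚ ((T.image u : Finset (Fin n → ℚ)) :
        Set (Fin n → ℚ))) ≤ P := by
      refine (finrank_span_finset_le_card (T.image u)).trans ?_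
      refine Finset.card_image_le.trans ?_
      rw [hT]
      exact min_le_right _ _
    have hspanV : Submodule.span ℚ ((T.image u : Finset (Fin n → ℚ)) : Set (Fin n → ℚ)) ≤ V0 := by
      rw [Submodule.span_le]
      intro x hx
      obtain ⟨g, hg, rfl⟩ := Finset.mem_image.1 (Finset.mem_coe.1 hx)
      exact (huw g (hTS hg)).1
    obtain ⟨V0', h1, h2, h3⟩ := exists_hyper hspanV hV0 hspan
    set V1' := V1 ⊔ Submodule.span ℚ {m} with hV1'
    have hc' : Comp V0' V1' := by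
      unfold Comp at hc ⊢
      rw [h3, hV1', finrank_sup_singleton hm]
      omega
    have hTdeg : ∀ g ∈ T, Deg V0' V1' g := by
      intro g hg
      obtain ⟨_, hw, heq⟩ := huw g (hTS hg)
      refine ⟨m - w g, ?_, ?_, ?_⟩
      · exact V1'.sub_mem (Submodule.mem_sup_right (Submodule.mem_span_singleton_self m))
          (Submodule.mem_sup_left hw)
      · intro h
        rw [sub_eq_zero] at h
        exact hm (h ▸ hw)
      · rw [mulVec_sub, heq, add_sub_cancel_right]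
        exact h1 (Submodule.subset_span (Finset.mem_coe.2 (Finset.mem_image_of_mem u hg)))
    obtain ⟨L, hL1, hL2, hL3⟩ := ih V0' V1' ((S \ T).filter fun g => ¬ Deg V0' V1' g) h3 hc'
      (fun g hg => hU g (Finset.mem_sdiff.1 (Finset.mem_filter.1 hg).1).1)
      (fun g hg => (Finset.mem_filter.1 hg).2) (by
        have h4 : ((S \ T).filter fun g => ¬ Deg V0' V1' g).card ≤ (S \ T).card :=
          Finset.card_filter_le _ _
        rw [Finset.card_sdiff_of_subset hTS, hT] at h4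
        obtain ⟨R, rfl⟩ : ∃ R, P = R + 1 := ⟨P - 1, by omega⟩
        simp only [Nat.add_sub_cancel] at hS ⊢
        rcases le_total S.card (R + 1) with h5 | h5
        · rw [min_eq_left h5] at h4
          have : ((S \ T).filter fun g => ¬ Deg V0' V1' g).card = 0 := by omega
          rw [this]
          omega
        · rw [min_eq_right h5] at h4
          have h6 : 2 * ((S \ T).filter fun g => ¬ Deg V0' V1' g).card + 2 * (R + 1) ≤
              2 * S.card := by omega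
          have h7 : (R + 1 + 1) * (R + 1) = (R + 1) * R + 2 * (R + 1) := by ring
          rw [h7] at hS
          omega)
    refine ⟨(V0', V1') :: L, ?_, ?_, ?_⟩
    · rw [List.pairwise_cons]
      exact ⟨fun q hq => ⟨(hL2 q hq).2.1, (hL2 q hq).2.2⟩, hL1⟩
    · intro q hq
      rcases List.mem_cons.1 hq with rfl | hq
      · exact ⟨hc', h2, le_sup_left⟩
      · exact ⟨(hL2 q hq).1, (hL2 q hq).2.1.trans h2, le_sup_left.trans (hL2 q hq).2.2⟩
    · intro g hg
      by_cases hd : Deg V0' V1' g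
      · exact ⟨_, List.mem_cons_self, hd⟩
      · have hgT : g ∉ T := fun h => hd (hTdeg g h)
        obtain ⟨q, hq, hq'⟩ := hL3 g (Finset.mem_filter.2 ⟨Finset.mem_sdiff.2 ⟨hg, hgT⟩, hd⟩)
        exact ⟨q, List.mem_cons_of_mem _ hq, hq'⟩

/-- at most `n (n-1) / 2` matrices -/
theorem few_top (S : Finset (Mt n)) (hU : ∀ g ∈ S, U g) (hS : 2 * S.card ≤ n * (n - 1)) :
    ∃ L : List (Submodule ℚ (Fin n → ℚ) × Submodule ℚ (Fin n → ℚ)),
      (L.Pairwise fun p q => q.1 ≤ p.1 ∧ p.2 ≤ q.2) ∧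
      (∀ p ∈ L, Comp p.1 p.2) ∧ ∀ g ∈ S, ∃ p ∈ L, Deg p.1 p.2 g := by
  obtain ⟨L, h1, h2, h3⟩ := few n ⊤ ⊥ S (by rw [finrank_top, Module.finrank_pi, Fintype.card_fin])
    (by
      unfold Comp
      rw [finrank_top, Module.finrank_pi, Fintype.card_fin, finrank_bot, add_zero]) hU
    (by
      rintro g _ ⟨w, hw, hne, _⟩
      exact hne ((Submodule.mem_bot ℚ).1 hw)) hS
  exact ⟨L, h1, fun p hp => (h2 p hp).1, h3⟩

end Pool.Agent.Lib.MP_41a456_al
end
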