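import Pool.Agent.Lib.MP_41a456_al.Few

section

/-!
# Bounded generation of `SL_n(ℤ)`, `n ≥ 3` (Carter-Keller; paper 331, section 7)
-/

namespace Pool.Agent.Lib.MP_41a456_al

open Matrix

/-- powers of `B` of exponent divisible by `p - 1` -/
theorem bp_pow {p e : ℕ} {s : ℤ} (hp : p.Prime) (hpe : ¬ p ∣ e) (hs : s = 1 ∨ s = -1)
    (B : SLn 2) (h0 : (B : Mt 2) 0 0 = e) (h1 : (B : Mt 2) 0 1 = s * p) (X : ℤ) :
    BP 53 (emb (B ^ (X * ((p : ℤ) - 1))) : SLn 3) := by
  have hnat : ∀ m : ℕ, BP 53 (emb (B ^ (m * (p - 1))) : SLn 3) := by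
    intro m
    obtain ⟨k, hk⟩ := fermat_pow hp hpe m
    refine (bg2 B (m * (p - 1)) 3).1 ?_
    rw [h0, h1, hk]
    have h3 : k * (p : ℤ) = (k * s) * (s * p) := by
      have hss : s * s = 1 := by rcases hs with rfl | rfl <;> norm_num
      linear_combination (-(k * p)) * hss
    rw [h3]
    exact Q_bg3 _ _
  have hp1 : ((p - 1 : ℕ) : ℤ) = (p : ℤ) - 1 := by
    have := hp.one_lt
    push_cast [Nat.cast_sub this.le]
    ring
  obtain ⟨m, rfl | rfl⟩ := Int.eq_nat_or_neg X
  · have h4 : B ^ ((m : ℤ) * ((p : ℤ) - 1)) = B ^ (m * (p - 1)) := by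
      rw [← hp1, ← Nat.cast_mul, zpow_natCast]
    rw [h4]
    exact hnat m
  · have h4 : B ^ (-(m : ℤ) * ((p : ℤ) - 1)) = (B ^ (m * (p - 1)))⁻¹ := by
      rw [← hp1, neg_mul, ← Nat.cast_mul, _root_.zpow_neg, zpow_natCast]
    rw [h4, map_inv]
    exact (hnat m).inv

theorem transpose_pow (B : SLn 2) (m : ℤ) : (B.transpose ^ m).transpose = B ^ m := by
  have hmul : ∀ A C : SLn 2, (A * C).transpose = C.transpose * A.transpose := by
    intro A C
    apply Subtype.ext
    exact Matrix.transpose_mul _ _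
  have htt : ∀ A : SLn 2, A.transpose.transpose = A := by
    intro A
    apply Subtype.ext
    exact Matrix.transpose_transpose _
  have hone : (1 : SLn 2).transpose = 1 := by
    apply Subtype.ext
    exact Matrix.transpose_one
  have hinv : ∀ A : SLn 2, (A⁻¹).transpose = (A.transpose)⁻¹ := by
    intro A
    rw [eq_inv_iff_mul_eq_one, ← hmul, mul_inv_cancel, hone]
  have hnat : ∀ k : ℕ, (B.transpose ^ k).transpose = B ^ k := by
    intro k
    induction k with
    | zero => rw [pow_zero, pow_zero, hone]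
    | succ k ih => rw [pow_succ, hmul, ih, htt, ← pow_succ']
  obtain ⟨k, rfl | rfl⟩ := Int.eq_nat_or_neg m
  · rw [zpow_natCast, zpow_natCast, hnat]
  · rw [_root_.zpow_neg, _root_.zpow_neg, zpow_natCast, zpow_natCast, hinv, hnat]

theorem bg4_odd {a b : ℤ} (ha : IsCoprime a 4) (hab : IsCoprime a b) : Q 164 a b := by
  obtain ⟨p, e, s, t, k, hp, hp4, hs, hpb, hae, hpe, he⟩ := nt1 ha hab
  obtain ⟨q, d, X, Y, hq, hdet, hqe, hXY⟩ := nt2 hp hp4 hs hpe he
  have hdet' : (!![(e : ℤ), s * p; q, d] : Mt 2).det = 1 := by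
    rw [Matrix.det_fin_two_of]
    exact hdet
  set B : SLn 2 := ⟨_, hdet'⟩ with hB
  have hBX : BP 53 (emb (B ^ (X * ((p : ℤ) - 1))) : SLn 3) := bp_pow hp hpe hs B rfl rfl X
  have hBY : BP 53 (emb (B ^ (Y * ((q : ℤ) - 1))) : SLn 3) := by
    rw [← transpose_pow, emb_transpose, BP.transpose_iff]
    exact bp_pow (s := 1) hq hqe (Or.inl rfl) B.transpose rfl (by rw [one_mul]; rfl) Y
  have hB2 : BP 106 (emb (B ^ 2) : SLn 3) := by
    have h1 : B ^ 2 = B ^ (X * ((p : ℤ) - 1)) * B ^ (Y * ((q : ℤ) - 1)) := by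
      rw [← _root_.zpow_add, hXY]
      exact (zpow_natCast B 2).symm
    rw [h1, map_mul]
    exact hBX.mul hBY
  have h2 : Q 156 ((e : ℤ) ^ 2) (s * p) := (bg2 B 2 106).2 hB2
  have h3 : Q 162 (s * (e : ℤ) ^ 2) p := by
    rcases hs with rfl | rfl
    · rw [one_mul] at h2 ⊢
      exact h2.mono (by omega)
    · have h4 := h2.neg
      have h5 : -(-1 * (p : ℤ)) = p := by ring
      have h6 : -((e : ℤ) ^ 2) = -1 * (e : ℤ) ^ 2 := by ring
      rwa [h5, h6] at h4
  have h4 : Q 163 a p := by
    have := h3.addcol k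
    rwa [← hae] at this
  have h5 := h4.addcol' (-t)
  rw [hpb] at h5
  have h6 : b + t * a + -t * a = b := by ring
  rwa [h6] at h5

/-- BG4 -/
theorem bg4 {a b : ℤ} (hab : IsCoprime a b) : Q 165 a b := by
  have h4 : ∀ x : ℤ, x % 2 = 1 → IsCoprime x 4 := by
    intro x hx
    have h2 : IsCoprime x 2 := ⟨1, -(x / 2), by omega⟩
    have := h2.mul_right h2
    norm_num at this
    exact this
  rcases Int.emod_two_eq_zero_or_one a with ha | ha
  · have hb : b % 2 = 1 := by
      rcases Int.emod_two_eq_zero_or_one b with hb | hb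
      · exfalso
        obtain ⟨u, v, huv⟩ := hab
        obtain ⟨a', rfl⟩ : (2 : ℤ) ∣ a := Int.dvd_of_emod_eq_zero ha
        obtain ⟨b', rfl⟩ : (2 : ℤ) ∣ b := Int.dvd_of_emod_eq_zero hb
        have : 2 * (u * a' + v * b') = 1 := by linarith
        omega
      · exact hb
    have h1 : IsCoprime (a + 1 * b) b := by
      obtain ⟨u, v, huv⟩ := hab
      exact ⟨u, v - u, by linarith⟩
    have h2 : Q 164 (a + 1 * b) b := bg4_odd (h4 _ (by omega)) h1
    have h3 := h2.addcol (-1)
    have h5 : a + 1 * b + -1 * b = a := by ring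
    rwa [h5] at h3
  · exact (bg4_odd (h4 _ ha) hab).mono (by omega)

/-- Bounded generation of `SL_3(ℤ)`. -/
theorem bg_three (g : SLn 3) : BP 176 g := by
  obtain ⟨h, E, E', hE, hE', rfl⟩ := red 0 g
  have h1 : BP 165 (emb h : SLn 3) := by
    refine bg4 (a := (h : Mt 2) 0 0) (b := (h : Mt 2) 0 1) ?_ h rfl rfl
    have := det2 h
    exact ⟨(h : Mt 2) 1 1, -(h : Mt 2) 1 0, by linarith⟩
  exact ((hE.mul h1).mul hE').mono (by omega)

/-- Bounded generation of `SL_n(ℤ)`, `n ≥ 3` (Carter-Keller). -/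
theorem bounded_generation (k : ℕ) : ∃ N : ℕ, ∀ g : SLn (k + 3), BP N g := by
  induction k with
  | zero => exact ⟨176, bg_three⟩
  | succ k ih =>
    obtain ⟨N, hN⟩ := ih
    refine ⟨(k + 1 + 3) + N + (2 * (k + 1) + 8), fun g => ?_⟩
    obtain ⟨h, E, E', hE, hE', rfl⟩ := red (k + 1) g
    exact (hE.mul (hN h).emb).mul hE'

end Pool.Agent.Lib.MP_41a456_al
end

section

/-!
# Elimination in the unipotent radical (paper 331, sections 5 and 6)
-/

namespace Pool.Agent.Lib.MP_41a456_al

open Matrix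

/-- `1 + u ⊗ e0` -/
def tau {k : ℕ} (u : Fin (k + 3) → ℤ) : Mt (k + 3) := 1 + vecMulVec u (e0 k)

/-- the symmetrised basis elements on the unipotent radical -/
noncomputable def PhT {K : Type*} [Field K] (s : K) (k : ℕ) :
    ((Fin (k + 3) → ℤ) →₀ K) →ₗ[K] (Mt (k + 3) →₀ K) :=
  Finsupp.linearCombination K fun u => Finsupp.single (tau u) 1 + Finsupp.single (-tau u) s

theorem PhT_apply {K : Type*} [Field K] (s : K) {k : ℕ} (β : (Fin (k + 3) → ℤ) →₀ K) :
    PhT s k β = β.sum fun u c => c • (Finsupp.single (tau u) 1 + Finsupp.single (-tau u) s) := rfl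

theorem tau_inj {k : ℕ} : Function.Injective (tau (k := k)) := by
  intro u u' h
  funext i
  have h1 := congrFun (congrFun h i) 0
  unfold tau at h1
  rw [Matrix.add_apply, Matrix.add_apply, vecMulVec_apply, vecMulVec_apply] at h1
  simpa using h1

theorem tau_ne_neg {k : ℕ} (u u' : Fin (k + 3) → ℤ) (hu : u 0 = 0) (hu' : u' 0 = 0) :
    tau u ≠ -tau u' := by
  intro h
  have h1 := congrFun (congrFun h 0) 0
  unfold tau at h1
  rw [Matrix.neg_apply, Matrix.add_apply, Matrix.add_apply, vecMulVec_apply, vecMulVec_apply, hu,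
    hu', Matrix.one_apply_eq] at h1
  norm_num at h1

/-- The functions on the radical whose symmetrised version is in `J`. -/
noncomputable def JT {K : Type*} [Field K] (s : K) (k : ℕ)
    (J : Submodule K (Mt (k + 3) →₀ K)) : Submodule K ((Fin (k + 3) → ℤ) →₀ K) :=
  J.comap (PhT s k) ⊓ Finsupp.supported K K {u | u 0 = 0}

theorem mem_JT {K : Type*} [Field K] {s : K} {k : ℕ} {J : Submodule K (Mt (k + 3) →₀ K)}
    {β : (Fin (k + 3) → ℤ) →₀ K} : β ∈ JT s k J ↔ PhT s k β ∈ J ∧ ∀ u, β u ≠ 0 → u 0 = 0 := by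
  unfold JT
  rw [Submodule.mem_inf, Submodule.mem_comap, Finsupp.mem_supported]
  refine and_congr Iff.rfl ⟨fun h u hu => h (Finset.mem_coe.2 (Finsupp.mem_support_iff.2 hu)),
    fun h u hu => h u (Finsupp.mem_support_iff.1 (Finset.mem_coe.1 hu))⟩

/-- the element of `J` supported on the radical comes from `JT` -/
theorem exists_JT {K : Type*} [Field K] {s : K} {k : ℕ} {J : Submodule K (Mt (k + 3) →₀ K)}
    (hJ : Bi s J) {b : Mt (k + 3) →₀ K} (hb : b ∈ J) (hb0 : b ≠ 0)
    (hs : ∀ X, b X ≠ 0 → ∃ u : Fin (k + 3) → ℤ, u 0 = 0 ∧ (X = tau u ∨ X = -tau u)) :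
    ∃ β ∈ JT s k J, β ≠ 0 := by
  classical
  let β : (Fin (k + 3) → ℤ) →₀ K :=
    (b.comapDomain tau tau_inj.injOn).filter fun u => u 0 = 0
  have hβ : ∀ u, β u = if u 0 = 0 then b (tau u) else 0 := by
    intro u
    simp only [β, Finsupp.filter_apply, Finsupp.comapDomain_apply]
  have hPh : PhT s k β = b := by
    ext X
    rw [PhT_apply, Finsupp.sum_apply]
    simp only [Finsupp.smul_apply, Finsupp.add_apply, Finsupp.single_apply, smul_eq_mul]
    have hsum : ∀ (f : (Fin (k + 3) → ℤ) → K → K) (u0 : Fin (k + 3) → ℤ),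
        (∀ u, u ≠ u0 → β u ≠ 0 → f u (β u) = 0) → f u0 0 = 0 → β.sum f = f u0 (β u0) := by
      intro f u0 h1 h2
      unfold Finsupp.sum
      by_cases h3 : u0 ∈ β.support
      · exact Finset.sum_eq_single_of_mem u0 h3 fun u hu hne =>
          h1 u hne (Finsupp.mem_support_iff.1 hu)
      · rw [Finsupp.notMem_support_iff.1 h3, h2]
        refine Finset.sum_eq_zero fun u hu => h1 u ?_ (Finsupp.mem_support_iff.1 hu)
        rintro rfl
        exact h3 hu
    have hsupp : ∀ u, β u ≠ 0 → u 0 = 0 := by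
      intro u hu
      rw [hβ] at hu
      by_contra h
      rw [if_neg h] at hu
      exact hu rfl
    by_cases hX : ∃ u : Fin (k + 3) → ℤ, u 0 = 0 ∧ (X = tau u ∨ X = -tau u)
    · obtain ⟨u0, hu0, rfl | rfl⟩ := hX
      · rw [hsum _ u0 (by
          intro u hne hu
          rw [if_neg fun h => hne (tau_inj h), if_neg fun h =>
            tau_ne_neg u0 u hu0 (hsupp u hu) h.symm]
          ring) (by ring)]
        rw [if_pos rfl, if_neg fun h => tau_ne_neg u0 u0 hu0 hu0 h.symm, hβ, if_pos hu0]
        ring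
      · rw [hsum _ u0 (by
          intro u hne hu
          rw [if_neg fun h => tau_ne_neg u u0 (hsupp u hu) hu0 h, if_neg fun h =>
            hne (tau_inj (neg_injective h))]
          ring) (by ring)]
        rw [if_neg fun h => tau_ne_neg u0 u0 hu0 hu0 h, if_pos rfl, hβ, if_pos hu0,
          hJ.sym b hb]
        ring
    · have h1 : b X = 0 := by
        by_contra h
        exact hX (hs X h)
      rw [h1]
      unfold Finsupp.sum
      refine Finset.sum_eq_zero fun u hu => ?_
      have hu0 := hsupp u (Finsupp.mem_support_iff.1 hu)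
      have h2 : tau u ≠ X := fun h => hX ⟨u, hu0, Or.inl h.symm⟩
      have h3 : -tau u ≠ X := fun h => hX ⟨u, hu0, Or.inr h.symm⟩
      simp only [if_neg h2, if_neg h3]
      ring
  refine ⟨β, mem_JT.2 ⟨by rw [hPh]; exact hb, ?_⟩, ?_⟩
  · intro u hu
    rw [hβ] at hu
    by_contra h
    rw [if_neg h] at hu
    exact hu rfl
  · rintro h0
    apply hb0
    rw [← hPh, h0, map_zero]

/-- translation of the radical by `v` -/
theorem JT_add {K : Type*} [Field K] {s : K} {k : ℕ} {J : Submodule K (Mt (k + 3) →₀ K)}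
    (hJ : Bi s J) (v : Fin (k + 3) → ℤ) (hv : v 0 = 0) {β : (Fin (k + 3) → ℤ) →₀ K}
    (hβ : β ∈ JT s k J) : β.mapDomain (Equiv.addRight v) ∈ JT s k J := by
  rw [mem_JT] at hβ ⊢
  have hd : (e0 k) ⬝ᵥ v = 0 := by rw [single_dotProduct, hv, mul_zero]
  refine ⟨?_, ?_⟩
  · have h1 : PhT s k (β.mapDomain (Equiv.addRight v)) =
        (PhT s k β).mapDomain (rp (tv v (e0 k) hd)) := by
      unfold PhT
      rw [Finsupp.linearCombination_mapDomain, Finsupp.linearCombination_apply,
        Finsupp.linearCombination_apply]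
      unfold Finsupp.sum
      rw [Finsupp.mapDomain_finset_sum]
      refine Finset.sum_congr rfl fun u _ => ?_
      rw [Finsupp.mapDomain_smul, Finsupp.mapDomain_add, Finsupp.mapDomain_single,
        Finsupp.mapDomain_single]
      have h2 : rp (tv v (e0 k) hd) (tau u) = tau (u + v) := by
        rw [rp_apply, tv_coe]
        unfold tau
        rw [Matrix.mul_add, Matrix.mul_one, Matrix.add_mul, Matrix.one_mul,
          vecMulVec_mul_vecMulVec, hd, zero_smul, vecMulVec_zero, add_zero, add_assoc,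
          ← add_vecMulVec]
      have h3 : rp (tv v (e0 k) hd) (-tau u) = -tau (u + v) := by
        rw [rp_apply, Matrix.neg_mul, ← rp_apply, h2]
      rw [h2, h3]
      rfl
    rw [h1]
    exact hJ.right _ _ hβ.1
  · intro u hu
    rw [Finsupp.mapDomain_equiv_apply] at hu
    have h1 := hβ.2 _ hu
    have h2 : ((Equiv.addRight v).symm u) 0 = u 0 - v 0 := by
      simp [Equiv.addRight_symm, sub_eq_add_neg]
    rw [h2, hv, sub_zero] at h1
    exact h1

/-- `g` acting on column vectors -/
def mp {n : ℕ} (g : SLn n) : Equiv.Perm (Fin n → ℤ) where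
  toFun u := (g : Mt n) *ᵥ u
  invFun u := ((g⁻¹ : SLn n) : Mt n) *ᵥ u
  left_inv u := by
    change ((g⁻¹ : SLn n) : Mt n) *ᵥ ((g : Mt n) *ᵥ u) = u
    rw [mulVec_mulVec, ← Matrix.SpecialLinearGroup.coe_mul, inv_mul_cancel,
      Matrix.SpecialLinearGroup.coe_one, one_mulVec]
  right_inv u := by
    change (g : Mt n) *ᵥ (((g⁻¹ : SLn n) : Mt n) *ᵥ u) = u
    rw [mulVec_mulVec, ← Matrix.SpecialLinearGroup.coe_mul, mul_inv_cancel,
      Matrix.SpecialLinearGroup.coe_one, one_mulVec]

theorem mp_apply {n : ℕ} (g : SLn n) (u : Fin n → ℤ) : mp g u = (g : Mt n) *ᵥ u := rfl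

/-- conjugation by an element `g` with `e0 g = e0` -/
theorem JT_conj {K : Type*} [Field K] {s : K} {k : ℕ} {J : Submodule K (Mt (k + 3) →₀ K)}
    (hJ : Bi s J) (g : SLn (k + 3)) (hg : e0 k ᵥ* (g : Mt (k + 3)) = e0 k)
    {β : (Fin (k + 3) → ℤ) →₀ K}
    (hβ : β ∈ JT s k J) : β.mapDomain (mp g) ∈ JT s k J := by
  rw [mem_JT] at hβ ⊢
  have hg' : e0 k ᵥ* ((g⁻¹ : SLn (k + 3)) : Mt (k + 3)) = e0 k := by
    conv_lhs => rw [← hg]
    rw [vecMul_vecMul, ← Matrix.SpecialLinearGroup.coe_mul, mul_inv_cancel,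
      Matrix.SpecialLinearGroup.coe_one, vecMul_one]
  have hgg : (g : Mt (k + 3)) * ((g⁻¹ : SLn (k + 3)) : Mt (k + 3)) = 1 := by
    rw [← Matrix.SpecialLinearGroup.coe_mul, mul_inv_cancel, Matrix.SpecialLinearGroup.coe_one]
  refine ⟨?_, ?_⟩
  · have h1 : PhT s k (β.mapDomain (mp g)) =
        ((PhT s k β).mapDomain (lp g)).mapDomain (rp g⁻¹) := by
      unfold PhT
      rw [Finsupp.linearCombination_mapDomain, Finsupp.linearCombination_apply,
        Finsupp.linearCombination_apply]
      unfold Finsupp.sum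
      rw [Finsupp.mapDomain_finset_sum, Finsupp.mapDomain_finset_sum]
      refine Finset.sum_congr rfl fun u _ => ?_
      rw [Finsupp.mapDomain_smul, Finsupp.mapDomain_add, Finsupp.mapDomain_single,
        Finsupp.mapDomain_single, Finsupp.mapDomain_smul, Finsupp.mapDomain_add,
        Finsupp.mapDomain_single, Finsupp.mapDomain_single]
      have h2 : rp g⁻¹ (lp g (tau u)) = tau (mp g u) := by
        rw [rp_apply, lp_apply, mp_apply]
        unfold tau
        rw [Matrix.mul_add, Matrix.mul_one, Matrix.add_mul, hgg, mul_vecMulVec, vecMulVec_mul, hg']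
      have h3 : rp g⁻¹ (lp g (-tau u)) = -tau (mp g u) := by
        rw [rp_apply, lp_apply, Matrix.mul_neg, Matrix.neg_mul, ← lp_apply, ← rp_apply, h2]
      rw [h2, h3]
      rfl
    rw [h1]
    exact hJ.right _ _ (hJ.left _ _ hβ.1)
  · intro u hu
    rw [Finsupp.mapDomain_equiv_apply] at hu
    have h1 := hβ.2 _ hu
    have h2 : ((mp g).symm u) 0 = u 0 := by
      change (((g⁻¹ : SLn (k + 3)) : Mt (k + 3)) *ᵥ u) 0 = u 0
      have h3 : (e0 k) ⬝ᵥ (((g⁻¹ : SLn (k + 3)) : Mt (k + 3)) *ᵥ u) = (e0 k) ⬝ᵥ u := by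
        rw [dotProduct_mulVec, hg']
      rwa [single_dotProduct, single_dotProduct, one_mul, one_mul] at h3
    rw [h2] at h1
    exact h1

theorem mp_el {k : ℕ} {i : Fin (k + 3)} (hi : (1 : Fin (k + 3)) ≠ i) (u : Fin (k + 3) → ℤ) :
    mp (el hi 1) u = u + Pi.single 1 (u i) := by
  rw [mp_apply, el_coe', add_mulVec, one_mulVec, vecMulVec_mulVec, single_dotProduct, one_mul]
  congr 1
  funext j
  by_cases hj : j = 1
  · subst hj
    simp
  · simp [hj]

/-- Elimination: `JT` contains a nonzero element supported on `ℤ e_1`. -/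
theorem elim {K : Type*} [Field K] {s : K} {k : ℕ} {J : Submodule K (Mt (k + 3) →₀ K)}
    (hJ : Bi s J) (h0 : ∃ β ∈ JT s k J, β ≠ 0) (S : Finset (Fin (k + 3))) :
    ∃ β ∈ JT s k J, β ≠ 0 ∧ ∀ u, β u ≠ 0 → ∀ j ∈ S, j ≠ 1 → u j = 0 := by
  classical
  have h01 : (0 : Fin (k + 3)) ≠ 1 := fun h => absurd (congrArg Fin.val h) (by simp)
  induction S using Finset.induction_on with
  | empty =>
    obtain ⟨β, hβ, hne⟩ := h0
    exact ⟨β, hβ, hne, fun u _ j hj => by simp at hj⟩
  | insert i S _ ih =>
    obtain ⟨β, hβ, hne, hs⟩ := ih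
    by_cases hi1 : i = 1
    · refine ⟨β, hβ, hne, fun u hu j hj hj1 => ?_⟩
      rcases Finset.mem_insert.1 hj with rfl | hj
      · exact absurd hi1 hj1
      · exact hs u hu j hj hj1
    by_cases hi0 : i = 0
    · refine ⟨β, hβ, hne, fun u hu j hj hj1 => ?_⟩
      rcases Finset.mem_insert.1 hj with rfl | hj
      · rw [hi0]
        exact (mem_JT.1 hβ).2 u hu
      · exact hs u hu j hj hj1
    have hi1' : (1 : Fin (k + 3)) ≠ i := Ne.symm hi1
    obtain ⟨u0, hu0⟩ : ∃ u0, β u0 ≠ 0 := by
      by_contra h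
      push Not at h
      exact hne (Finsupp.ext h)
    have hrow : e0 k ᵥ* ((el hi1' 1 : SLn (k + 3)) : Mt (k + 3)) = e0 k := by
      rw [vecMul_el]
      simp [h01.symm]
    set cs : Finset ℤ := (β.support.image fun u => u i).erase (u0 i) with hcs
    obtain ⟨β', hβ', hne', hs'⟩ := kill (JT s k J)
      (fun Y X => ∀ j : Fin (k + 3), j ≠ 1 → X j = Y j) (fun _ _ _ => rfl)
      (cs.toList.map fun c => (mp (el hi1' 1), Equiv.addRight (Pi.single 1 c)))
      (by
        intro p hp γ hγ
        obtain ⟨c, _, rfl⟩ := List.mem_map.1 hp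
        exact ⟨JT_conj hJ _ hrow hγ, JT_add hJ _ (by simp [h01]) hγ⟩)
      (by
        intro p hp q hq X
        obtain ⟨c, _, rfl⟩ := List.mem_map.1 hp
        obtain ⟨c', _, rfl⟩ := List.mem_map.1 hq
        have hz : ∀ X : Fin (k + 3) → ℤ,
            mp (el hi1' 1) X = (Equiv.addRight (Pi.single 1 c)) X ↔ X i = c := by
          intro X
          rw [mp_el, Equiv.coe_addRight, add_right_inj]
          refine ⟨fun h => ?_, fun h => by rw [h]⟩
          have := congrFun h 1
          simpa using this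
        refine ⟨?_, ?_⟩
        · rw [hz, hz, mp_el]
          simp [hi1]
        · rw [hz, hz, Equiv.coe_addRight]
          simp [hi1])
      (by
        intro p hp X hX m hm
        obtain ⟨c, _, rfl⟩ := List.mem_map.1 hp
        have hXc : X i ≠ c := by
          intro h
          apply hX
          rw [mp_el, h]
          rfl
        have hpow : ∀ m : ℕ, (((Equiv.addRight (Pi.single 1 c : Fin (k + 3) → ℤ))⁻¹ *
            mp (el hi1' 1)) ^ m) X = X + Pi.single 1 (m * (X i - c)) := by
          intro m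
          induction m with
          | zero => simp
          | succ m ihm =>
            rw [pow_succ', Equiv.Perm.mul_apply, ihm, Equiv.Perm.mul_apply, mp_el,
              Equiv.Perm.inv_eq_iff_eq, Equiv.coe_addRight]
            funext j
            by_cases hj : j = 1
            · subst hj
              simp [hi1]
              ring
            · simp [hj]
        intro h
        rw [hpow] at h
        have h1 := congrFun h 1
        simp only [Pi.add_apply, Pi.single_eq_same] at h1
        have h2 : (m : ℤ) * (X i - c) = 0 := by linarith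
        rcases mul_eq_zero.1 h2 with h3 | h3
        · have : m = 0 := by exact_mod_cast h3
          omega
        · exact hXc (by linarith))
      (by
        intro p hp Y X hQ
        obtain ⟨c, _, rfl⟩ := List.mem_map.1 hp
        refine ⟨fun j hj => ?_, fun j hj => ?_⟩
        · rw [mp_el]
          simp [hj, hQ j hj]
        · rw [Equiv.coe_addRight]
          simp [hj, hQ j hj])
      β hβ u0 hu0
      (by
        intro p hp h
        obtain ⟨c, hc, rfl⟩ := List.mem_map.1 hp
        rw [Finset.mem_toList, hcs, Finset.mem_erase] at hc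
        apply hc.1
        rw [mp_el] at h
        change u0 + Pi.single 1 (u0 i) = u0 + Pi.single 1 c at h
        rw [add_right_inj] at h
        have := congrFun h 1
        simp only [Pi.single_eq_same] at this
        exact this.symm)
    have hsupp : ∀ X, β' X ≠ 0 → X i = u0 i ∧ ∀ j ∈ S, j ≠ 1 → X j = 0 := by
      intro X hX
      obtain ⟨Y, hY, hYl, hQ⟩ := hs' X hX
      refine ⟨?_, fun j hj hj1 => by rw [hQ j hj1]; exact hs Y hY j hj hj1⟩
      rw [hQ i hi1]
      by_contra hne2
      have hmem : Y i ∈ cs := by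
        rw [hcs, Finset.mem_erase]
        exact ⟨hne2, Finset.mem_image_of_mem _ (Finsupp.mem_support_iff.2 hY)⟩
      apply hYl (mp (el hi1' 1), Equiv.addRight (Pi.single 1 (Y i)))
        (List.mem_map.2 ⟨Y i, Finset.mem_toList.2 hmem, rfl⟩)
      change mp (el hi1' 1) Y = Y + Pi.single 1 (Y i)
      rw [mp_el]
    refine ⟨β'.mapDomain (Equiv.addRight (Pi.single i (-(u0 i)))), JT_add hJ _ (by
      simp [Ne.symm hi0]) hβ', ?_, ?_⟩
    · intro h
      apply hne'
      exact Finsupp.mapDomain_injective (Equiv.addRight _).injective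
        (by rw [h, Finsupp.mapDomain_zero])
    · intro u hu j hj hj1
      rw [Finsupp.mapDomain_equiv_apply] at hu
      obtain ⟨h1, h2⟩ := hsupp _ hu
      have h3 : ∀ a, ((Equiv.addRight (Pi.single i (-(u0 i)) : Fin (k + 3) → ℤ)).symm u) a =
          u a + (Pi.single i (u0 i) : Fin (k + 3) → ℤ) a := by
        intro a
        simp [Equiv.addRight_symm, ← Pi.single_neg]
      rcases Finset.mem_insert.1 hj with rfl | hj
      · rw [h3, Pi.single_eq_same] at h1
        linarith
      · by_cases hji : j = i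
        · subst hji
          rw [h3, Pi.single_eq_same] at h1
          linarith
        · have h4 := h2 j hj hj1
          rw [h3, Pi.single_eq_of_ne hji, add_zero] at h4
          exact h4

end Pool.Agent.Lib.MP_41a456_al
end

section

/-!
# Relations on the one-parameter groups `e_ij(c)` (paper 331, end of section 6)
-/

namespace Pool.Agent.Lib.MP_41a456_al

open Matrix

/-- the symmetrised basis element `[g] + s [-g]` -/
noncomputable def Ph {K : Type*} [Field K] {n : ℕ} (s : K) (g : SLn n) : Mt n →₀ K :=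
  Finsupp.single (g : Mt n) 1 + Finsupp.single (-(g : Mt n)) s

theorem Ph_left {K : Type*} [Field K] {n : ℕ} (s : K) (g h : SLn n) :
    (Ph s h).mapDomain (lp g) = Ph s (g * h) := by
  unfold Ph
  rw [Finsupp.mapDomain_add, Finsupp.mapDomain_single, Finsupp.mapDomain_single, lp_apply, lp_apply,
    Matrix.mul_neg, Matrix.SpecialLinearGroup.coe_mul]

theorem Ph_right {K : Type*} [Field K] {n : ℕ} (s : K) (g h : SLn n) :
    (Ph s h).mapDomain (rp g) = Ph s (h * g) := by
  unfold Ph
  rw [Finsupp.mapDomain_add, Finsupp.mapDomain_single, Finsupp.mapDomain_single, rp_apply, rp_apply,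
    Matrix.neg_mul, Matrix.SpecialLinearGroup.coe_mul]

theorem Lc_left {K : Type*} [Field K] {n : ℕ} (s : K) {ι : Type*} (g : SLn n) (f : ι → SLn n)
    (q : ι →₀ K) : (Finsupp.linearCombination K (fun c => Ph s (f c)) q).mapDomain (lp g) =
      Finsupp.linearCombination K (fun c => Ph s (g * f c)) q := by
  have h1 := Finsupp.apply_linearCombination K (Finsupp.lmapDomain K K (lp g))
    (fun c => Ph s (f c)) q
  rw [Finsupp.lmapDomain_apply] at h1
  rw [h1]
  congr 2
  funext c
  exact Ph_left s g (f c)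

theorem Lc_right {K : Type*} [Field K] {n : ℕ} (s : K) {ι : Type*} (g : SLn n) (f : ι → SLn n)
    (q : ι →₀ K) : (Finsupp.linearCombination K (fun c => Ph s (f c)) q).mapDomain (rp g) =
      Finsupp.linearCombination K (fun c => Ph s (f c * g)) q := by
  have h1 := Finsupp.apply_linearCombination K (Finsupp.lmapDomain K K (rp g))
    (fun c => Ph s (f c)) q
  rw [Finsupp.lmapDomain_apply] at h1
  rw [h1]
  congr 2
  funext c
  exact Ph_right s g (f c)

/-- the relation on the first line -/
theorem line_one {K : Type*} [Field K] {s : K} {k : ℕ} {J : Submodule K (Mt (k + 3) →₀ K)}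
    (hJ : Bi s J) (h0 : ∃ β ∈ JT s k J, β ≠ 0) (h10 : (1 : Fin (k + 3)) ≠ 0) :
    ∃ q : ℤ →₀ K, q ≠ 0 ∧
      Finsupp.linearCombination K (fun c => Ph s (el h10 c)) q ∈ J := by
  classical
  obtain ⟨β, hβ, hne, hs⟩ := elim hJ h0 Finset.univ
  have hinj : Function.Injective fun c : ℤ => (Pi.single 1 c : Fin (k + 3) → ℤ) := by
    intro c c' h
    have := congrFun h 1
    simpa using this
  have hβq : Finsupp.mapDomain (fun c : ℤ => (Pi.single 1 c : Fin (k + 3) → ℤ))
      (β.comapDomain (fun c : ℤ => (Pi.single 1 c : Fin (k + 3) → ℤ)) hinj.injOn) = β := by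
    apply Finsupp.mapDomain_comapDomain _ hinj
    intro u hu
    refine ⟨u 1, ?_⟩
    funext j
    by_cases hj : j = 1
    · subst hj; simp
    · simp only [Pi.single_eq_of_ne hj]
      exact (hs u (Finsupp.mem_support_iff.1 (Finset.mem_coe.1 hu)) j (Finset.mem_univ j) hj).symm
  refine ⟨β.comapDomain (fun c : ℤ => (Pi.single 1 c : Fin (k + 3) → ℤ)) hinj.injOn, ?_, ?_⟩
  · intro h
    rw [h, Finsupp.mapDomain_zero] at hβq
    exact hne hβq.symm
  · have h1 := (mem_JT.1 hβ).1
    rw [← hβq] at h1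
    unfold PhT at h1
    rw [Finsupp.linearCombination_mapDomain] at h1
    convert h1 using 3
    funext c
    unfold Ph
    rw [Function.comp_apply]
    unfold tau
    rw [el_coe']

/-- signed permutation matrices -/
theorem exists_sp {k : ℕ} {i j : Fin (k + 3)} (hij : i ≠ j) (h10 : (1 : Fin (k + 3)) ≠ 0) :
    ∃ (g : SLn (k + 3)) (s' : ℤ), (s' = 1 ∨ s' = -1) ∧
      ∀ c : ℤ, g * el h10 c = el hij (s' * c) * g := by
  classical
  obtain ⟨σ, hσi, hσj⟩ : ∃ σ : Equiv.Perm (Fin (k + 3)), σ i = 1 ∧ σ j = 0 := by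
    refine ⟨Equiv.swap (Equiv.swap i 1 j) 0 * Equiv.swap i 1, ?_, ?_⟩
    · rw [Equiv.Perm.mul_apply, Equiv.swap_apply_left]
      refine Equiv.swap_apply_of_ne_of_ne ?_ h10
      intro h
      apply hij
      have h2 : Equiv.swap i 1 i = Equiv.swap i 1 j := by rw [Equiv.swap_apply_left]; exact h
      exact (Equiv.swap i 1).injective h2
    · rw [Equiv.Perm.mul_apply, Equiv.swap_apply_left]
  set ε : ℤ := ((Equiv.Perm.sign σ : ℤˣ) : ℤ) with hε
  have hεpm : ε = 1 ∨ ε = -1 := by
    rcases Int.units_eq_one_or (Equiv.Perm.sign σ) with h | h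
    · left; rw [hε, h]; rfl
    · right; rw [hε, h]; rfl
  have hεε : ε * ε = 1 := by rcases hεpm with h | h <;> rw [h] <;> norm_num
  set G : Mt (k + 3) := σ.permMatrix ℤ * Matrix.diagonal fun b => if b = 0 then ε else 1 with hG
  have hdet : G.det = 1 := by
    rw [hG, Matrix.det_mul, Matrix.det_permutation, Matrix.det_diagonal, Finset.prod_ite_eq' ]
    simp only [Finset.mem_univ, if_true]
    exact hεε
  have hGe : ∀ a b, G a b = if σ a = b then (if b = 0 then ε else 1) else 0 := by
    intro a b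
    rw [hG, Matrix.mul_diagonal, Equiv.Perm.permMatrix, PEquiv.toMatrix_apply,
      Equiv.toPEquiv_apply]
    by_cases h : σ a = b <;> simp [h]
  have hcol : ∀ a, G a 1 = (Pi.single i 1 : Fin (k + 3) → ℤ) a := by
    intro a
    rw [hGe, if_neg h10]
    by_cases h : a = i
    · subst h
      rw [if_pos hσi]
      simp
    · rw [if_neg fun h' => h (σ.injective (h'.trans hσi.symm))]
      simp [h]
  have hrow : ∀ b, G j b = (Pi.single 0 ε : Fin (k + 3) → ℤ) b := by
    intro b
    rw [hGe, hσj]
    by_cases h : b = 0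
    · subst h
      simp
    · rw [if_neg fun h' => h h'.symm]
      simp [h]
  refine ⟨⟨G, hdet⟩, ε, hεpm, fun c => ?_⟩
  apply Subtype.ext
  change G * ((el h10 c : SLn (k + 3)) : Mt (k + 3)) = ((el hij (ε * c) : SLn (k + 3)) : Mt (k + 3)) * G
  rw [el_coe', el_coe', Matrix.mul_add, Matrix.mul_one, Matrix.add_mul, Matrix.one_mul,
    mul_vecMulVec, vecMulVec_mul]
  congr 1
  have h1 : G *ᵥ (Pi.single 1 c) = Pi.single i c := by
    funext a
    rw [mulVec_single]
    simp only [MulOpposite.smul_eq_mul_unop, Pi.smul_apply, Matrix.col_apply, hcol,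
      MulOpposite.unop_op]
    by_cases h : a = i
    · subst h; simp
    · simp [h]
  have h2 : (Pi.single j 1 : Fin (k + 3) → ℤ) ᵥ* G = Pi.single 0 ε := by
    rw [single_one_vecMul]
    funext b
    exact hrow b
  rw [h1, h2]
  ext a b
  rw [vecMulVec_apply, vecMulVec_apply]
  by_cases ha : a = i
  · subst ha
    by_cases hb : b = 0
    · subst hb
      simp
      linear_combination (-c) * hεε
    · simp [hb]
  · simp [ha]

/-- the relation on every line -/
theorem line_all {K : Type*} [Field K] {s : K} {k : ℕ} {J : Submodule K (Mt (k + 3) →₀ K)}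
    (hJ : Bi s J) (h0 : ∃ β ∈ JT s k J, β ≠ 0) {i j : Fin (k + 3)} (hij : i ≠ j) :
    ∃ q : ℤ →₀ K, q ≠ 0 ∧
      Finsupp.linearCombination K (fun c => Ph s (el hij c)) q ∈ J := by
  have h10 : (1 : Fin (k + 3)) ≠ 0 := fun h => absurd (congrArg Fin.val h) (by simp)
  obtain ⟨q, hq, hqJ⟩ := line_one hJ h0 h10
  obtain ⟨g, s', hs', hg⟩ := exists_sp hij h10
  have hinj : Function.Injective fun c : ℤ => s' * c := by
    intro c c' h
    have h' : s' * c = s' * c' := h
    rcases hs' with rfl | rfl <;> linarith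
  refine ⟨q.mapDomain fun c : ℤ => s' * c, ?_, ?_⟩
  · intro h
    apply hq
    exact Finsupp.mapDomain_injective hinj (by rw [h, Finsupp.mapDomain_zero])
  · rw [Finsupp.linearCombination_mapDomain]
    have h1 := hJ.right g⁻¹ _ (hJ.left g _ hqJ)
    rw [Lc_left, Lc_right] at h1
    convert h1 using 3
    funext c
    rw [Function.comp_apply, hg, mul_inv_cancel_right]

end Pool.Agent.Lib.MP_41a456_al
end

section

/-!
# Finiteness modulo `J` (paper 331, section 8)
-/

namespace Pool.Agent.Lib.MP_41a456_al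

open Matrix

/-- A nonzero Laurent polynomial relation. -/
theorem rec_span {K V : Type*} [Field K] [AddCommGroup V] [Module K V] (q : ℤ →₀ K)
    (hq : q ≠ 0) : ∃ C : Finset ℤ, ∀ (J : Submodule K V) (X : ℤ → V),
      (∀ r : ℤ, Finsupp.linearCombination K (fun c => X (c + r)) q ∈ J) →
      ∀ c : ℤ, X c ∈ J ⊔ Submodule.span K (X '' (C : Set ℤ)) := by
  classical
  have hne : q.support.Nonempty := Finsupp.support_nonempty_iff.2 hq
  set c0 := q.support.min' hne with hc0
  set c1 := q.support.max' hne with hc1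
  refine ⟨Finset.Ico 0 (c1 - c0), fun J X hX => ?_⟩
  set J' := J ⊔ Submodule.span K (X '' ((Finset.Ico 0 (c1 - c0) : Finset ℤ) : Set ℤ)) with hJ'
  have hle : c0 ≤ c1 := Finset.min'_le _ _ (Finset.max'_mem _ _)
  -- one step
  have hstep : ∀ (a : ℤ) (r : ℤ), a ∈ q.support →
      (∀ c ∈ q.support, c ≠ a → X (c + r) ∈ J') → X (a + r) ∈ J' := by
    intro a r ha h
    have h1 : Finsupp.linearCombination K (fun c => X (c + r)) q ∈ J' :=
      Submodule.mem_sup_left (hX r)
    rw [Finsupp.linearCombination_apply] at h1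
    unfold Finsupp.sum at h1
    rw [← Finset.add_sum_erase _ _ ha] at h1
    have h2 : ∑ c ∈ q.support.erase a, q c • X (c + r) ∈ J' :=
      J'.sum_mem fun c hc => J'.smul_mem _ (h c (Finset.mem_of_mem_erase hc)
        (Finset.ne_of_mem_erase hc))
    have h3 : q a • X (a + r) ∈ J' := by
      have := J'.sub_mem h1 h2
      rwa [add_sub_cancel_right] at this
    have h4 := J'.smul_mem (q a)⁻¹ h3
    rwa [smul_smul, inv_mul_cancel₀ (Finsupp.mem_support_iff.1 ha), one_smul] at h4
  have key : ∀ N : ℕ, ∀ c : ℤ, -(N : ℤ) ≤ c → c < (c1 - c0) + N → X c ∈ J' := by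
    intro N
    induction N with
    | zero =>
      intro c h1 h2
      refine Submodule.mem_sup_right (Submodule.subset_span ⟨c, ?_, rfl⟩)
      rw [Finset.mem_coe, Finset.mem_Ico]
      constructor <;> push_cast at * <;> omega
    | succ N ih =>
      intro c h1 h2
      push_cast at h1 h2
      by_cases h3 : c = (c1 - c0) + N
      · have h4 := hstep c1 (c - c1) (Finset.max'_mem _ _) (by
          intro c' hc' hne'
          have h5 : c0 ≤ c' := Finset.min'_le _ _ hc'
          have h6 : c' ≤ c1 := Finset.le_max' _ _ hc'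
          have h7 : c' < c1 := lt_of_le_of_ne h6 hne'
          apply ih <;> omega)
        rwa [add_sub_cancel] at h4
      · by_cases h3' : c = -(N + 1 : ℤ)
        · have h4 := hstep c0 (c - c0) (Finset.min'_mem _ _) (by
            intro c' hc' hne'
            have h5 : c0 ≤ c' := Finset.min'_le _ _ hc'
            have h6 : c' ≤ c1 := Finset.le_max' _ _ hc'
            have h7 : c0 < c' := lt_of_le_of_ne h5 (Ne.symm hne')
            apply ih <;> omega)
          rwa [add_sub_cancel] at h4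
        · apply ih <;> omega
  intro c
  refine key (c.natAbs + 1) c ?_ ?_
  · push_cast
    have := neg_abs_le c
    omega
  · push_cast
    have := le_abs_self c
    omega

/-- every `g` with `BP (N+1) g` is obtained from `BP N` by one elementary matrix on the right -/
theorem BP.succ {n N : ℕ} {g : SLn n} (h : BP (N + 1) g) :
    ∃ g' : SLn n, BP N g' ∧ (g = g' ∨ ∃ (i j : Fin n) (hij : i ≠ j) (c : ℤ),
      g = g' * MP_41a456_al.el hij c) := by
  obtain ⟨l, h1, h2, rfl⟩ := h
  rcases List.eq_nil_or_concat l with rfl | ⟨l', x, rfl⟩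
  · exact ⟨1, BP.one.mono (Nat.zero_le _), Or.inl rfl⟩
  · obtain ⟨i, j, hij, c, rfl⟩ := h2 x (by simp)
    refine ⟨l'.prod, ⟨l', by simpa using h1, fun y hy => h2 y (by simp [hy]), rfl⟩,
      Or.inr ⟨i, j, hij, c, by simp⟩⟩

/-- one elementary factor more -/
theorem fin_step {K : Type*} [Field K] {s : K} {n : ℕ} {J : Submodule K (Mt n →₀ K)}
    (hJ : Bi s J) {i j : Fin n} (hij : i ≠ j)
    (hq : ∃ q : ℤ →₀ K, q ≠ 0 ∧ Finsupp.linearCombination K (fun c => Ph s (el hij c)) q ∈ J)
    (T : Finset (SLn n)) : ∃ T' : Finset (SLn n), ∀ g : SLn n,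
      Ph s g ∈ J ⊔ Submodule.span K (Ph s '' (T : Set (SLn n))) →
      ∀ c : ℤ, Ph s (g * el hij c) ∈ J ⊔ Submodule.span K (Ph s '' (T' : Set (SLn n))) := by
  classical
  obtain ⟨q, hq0, hqJ⟩ := hq
  obtain ⟨C, hC⟩ := rec_span (V := Mt n →₀ K) q hq0
  refine ⟨Finset.image₂ (fun (t : SLn n) (c : ℤ) => t * el hij c) T C, fun g hg c => ?_⟩
  set T' := Finset.image₂ (fun (t : SLn n) (c : ℤ) => t * el hij c) T C with hT'
  have hline : ∀ t ∈ T, ∀ c : ℤ, Ph s (t * el hij c) ∈
      J ⊔ Submodule.span K (Ph s '' (T' : Set (SLn n))) := by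
    intro t ht c
    have h1 := hC J (fun c => Ph s (t * el hij c)) (by
      intro r
      have h2 := hJ.right (el hij r) _ (hJ.left t _ hqJ)
      rw [Lc_left, Lc_right] at h2
      have h3 : (fun c : ℤ => Ph s (t * el hij c * el hij r)) =
          fun c : ℤ => Ph s (t * el hij (c + r)) := by
        funext c
        have h4 : el hij (c + r) = el hij c * el hij r :=
          Matrix.SpecialLinearGroup.transvection_add hij c r
        rw [h4, mul_assoc]
      rw [h3] at h2
      exact h2) c
    refine (sup_le_sup_left (Submodule.span_mono ?_) J) h1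
    rintro _ ⟨c', hc', rfl⟩
    exact ⟨t * el hij c', Finset.mem_coe.2 (Finset.mem_image₂_of_mem ht (Finset.mem_coe.1 hc')), rfl⟩
  have hle : J ⊔ Submodule.span K (Ph s '' (T : Set (SLn n))) ≤
      (J ⊔ Submodule.span K (Ph s '' (T' : Set (SLn n)))).comap
        (Finsupp.lmapDomain K K (rp (el hij c))) := by
    refine sup_le ?_ ?_
    · intro b hb
      rw [Submodule.mem_comap, Finsupp.lmapDomain_apply]
      exact Submodule.mem_sup_left (hJ.right _ b hb)
    · rw [Submodule.span_le]
      rintro _ ⟨t, ht, rfl⟩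
      rw [SetLike.mem_coe, Submodule.mem_comap, Finsupp.lmapDomain_apply, Ph_right]
      exact hline t (Finset.mem_coe.1 ht) c
  have h3 := hle hg
  rw [Submodule.mem_comap, Finsupp.lmapDomain_apply, Ph_right] at h3
  exact h3

theorem fin_BP {K : Type*} [Field K] {s : K} {n : ℕ} {J : Submodule K (Mt n →₀ K)}
    (hJ : Bi s J)
    (hq : ∀ (i j : Fin n) (hij : i ≠ j), ∃ q : ℤ →₀ K, q ≠ 0 ∧
      Finsupp.linearCombination K (fun c => Ph s (el hij c)) q ∈ J) (N : ℕ) :
    ∃ T : Finset (SLn n), ∀ g : SLn n, BP N g →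
      Ph s g ∈ J ⊔ Submodule.span K (Ph s '' (T : Set (SLn n))) := by
  classical
  induction N with
  | zero =>
    refine ⟨{1}, ?_⟩
    rintro g ⟨l, hl, _, rfl⟩
    have : l = [] := List.length_eq_zero_iff.1 (by omega)
    subst this
    refine Submodule.mem_sup_right (Submodule.subset_span ⟨1, by simp, rfl⟩)
  | succ N ih =>
    obtain ⟨T, hT⟩ := ih
    have h1 : ∀ p : Fin n × Fin n, ∃ T' : Finset (SLn n), ∀ hij : p.1 ≠ p.2, ∀ g : SLn n,
        Ph s g ∈ J ⊔ Submodule.span K (Ph s '' (T : Set (SLn n))) →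
        ∀ c : ℤ, Ph s (g * el hij c) ∈ J ⊔ Submodule.span K (Ph s '' (T' : Set (SLn n))) := by
      intro p
      by_cases hp : p.1 ≠ p.2
      · obtain ⟨T', hT'⟩ := fin_step hJ hp (hq _ _ hp) T
        exact ⟨T', fun _ => hT'⟩
      · exact ⟨∅, fun h => absurd h hp⟩
    choose F hF using h1
    refine ⟨T ∪ Finset.univ.biUnion F, fun g hg => ?_⟩
    obtain ⟨g', hg', h2⟩ := hg.succ
    rcases h2 with rfl | ⟨i, j, hij, c, rfl⟩
    · refine (sup_le_sup_left (Submodule.span_mono (Set.image_mono ?_)) J) (hT g hg')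
      intro x hx
      rw [Finset.mem_coe] at hx ⊢
      exact Finset.mem_union_left _ hx
    · refine (sup_le_sup_left (Submodule.span_mono (Set.image_mono ?_)) J)
        (hF (i, j) hij g' (hT g' hg') c)
      intro x hx
      rw [Finset.mem_coe] at hx ⊢
      exact Finset.mem_union_right _ (Finset.mem_biUnion.2 ⟨(i, j), Finset.mem_univ _, hx⟩)

/-- Finiteness. -/
theorem fin_all {K : Type*} [Field K] {s : K} {k : ℕ} {J : Submodule K (Mt (k + 3) →₀ K)}
    (hJ : Bi s J) (h0 : ∃ β ∈ JT s k J, β ≠ 0) :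
    ∃ T : Finset (SLn (k + 3)), ∀ g : SLn (k + 3),
      Ph s g ∈ J ⊔ Submodule.span K (Ph s '' (T : Set (SLn (k + 3)))) := by
  obtain ⟨N, hN⟩ := bounded_generation k
  obtain ⟨T, hT⟩ := fin_BP hJ (fun i j hij => line_all hJ h0 hij) N
  exact ⟨T, fun g => hT g (hN g)⟩

end Pool.Agent.Lib.MP_41a456_al
end

section

/-!
# Two-sided ideals of the group algebra (paper 331, sections 5, 8, 9)
-/

namespace Pool.Agent.Lib.MP_41a456_al

open Matrix

variable {K : Type*} [Field K] {n : ℕ}

/-- a two-sided ideal as a subspace of the functions -/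
noncomputable def IC (I : TwoSidedIdeal (MonoidAlgebra K (SLn n))) :
    Submodule K (SLn n →₀ K) where
  carrier := {f | MonoidAlgebra.ofCoeff f ∈ I}
  zero_mem' := I.zero_mem
  add_mem' {f g} hf hg := I.add_mem hf hg
  smul_mem' c f hf := by
    have h1 : MonoidAlgebra.ofCoeff (c • f) = MonoidAlgebra.single 1 c *
        MonoidAlgebra.ofCoeff f := by
      ext g
      rw [MonoidAlgebra.coeff_single_one_mul]
      rfl
    change MonoidAlgebra.ofCoeff (c • f) ∈ I
    rw [h1]
    exact I.mul_mem_left _ _ hf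

theorem mem_IC {I : TwoSidedIdeal (MonoidAlgebra K (SLn n))} {f : SLn n →₀ K} :
    f ∈ IC I ↔ MonoidAlgebra.ofCoeff f ∈ I := Iff.rfl

theorem IC_left {I : TwoSidedIdeal (MonoidAlgebra K (SLn n))} (g : SLn n) {f : SLn n →₀ K}
    (hf : f ∈ IC I) : f.mapDomain (fun h => g * h) ∈ IC I := by
  rw [mem_IC] at hf ⊢
  have h1 : MonoidAlgebra.ofCoeff (f.mapDomain (fun h => g * h)) = MonoidAlgebra.single g 1 *
      MonoidAlgebra.ofCoeff f := by
    ext m
    obtain ⟨m', rfl⟩ : ∃ m', m = g * m' := ⟨g⁻¹ * m, by rw [mul_inv_cancel_left]⟩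
    rw [MonoidAlgebra.coeff_single_mul_mul, one_mul]
    exact Finsupp.mapDomain_apply (mul_right_injective g) f m'
  rw [h1]
  exact I.mul_mem_left _ _ hf

theorem IC_right {I : TwoSidedIdeal (MonoidAlgebra K (SLn n))} (g : SLn n) {f : SLn n →₀ K}
    (hf : f ∈ IC I) : f.mapDomain (fun h => h * g) ∈ IC I := by
  rw [mem_IC] at hf ⊢
  have h1 : MonoidAlgebra.ofCoeff (f.mapDomain (fun h => h * g)) =
      MonoidAlgebra.ofCoeff f * MonoidAlgebra.single g 1 := by
    ext m
    obtain ⟨m', rfl⟩ : ∃ m', m = m' * g := ⟨m * g⁻¹, by rw [inv_mul_cancel_right]⟩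
    rw [MonoidAlgebra.coeff_mul_single_mul, mul_one]
    exact Finsupp.mapDomain_apply (mul_left_injective g) f m'
  rw [h1]
  exact I.mul_mem_right _ _ hf

/-- symmetrisation -/
noncomputable def PhS (s : K) : (SLn n →₀ K) →ₗ[K] (Mt n →₀ K) :=
  Finsupp.linearCombination K (Ph s)

theorem PhS_single (s : K) (h : SLn n) (c : K) : PhS s (Finsupp.single h c) = c • Ph s h := by
  unfold PhS
  rw [Finsupp.linearCombination_single]

theorem PhS_left (s : K) (g : SLn n) (f : SLn n →₀ K) :
    (PhS s f).mapDomain (lp g) = PhS s (f.mapDomain fun h => g * h) := by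
  unfold PhS
  rw [Finsupp.linearCombination_mapDomain]
  exact Lc_left s g (fun h => h) f

theorem PhS_right (s : K) (g : SLn n) (f : SLn n →₀ K) :
    (PhS s f).mapDomain (rp g) = PhS s (f.mapDomain fun h => h * g) := by
  unfold PhS
  rw [Finsupp.linearCombination_mapDomain]
  exact Lc_right s g (fun h => h) f

theorem Ph_apply (s : K) (h : SLn n) (X : Mt n) :
    Ph s h X = (if (h : Mt n) = X then 1 else 0) + (if -(h : Mt n) = X then s else 0) := by
  classical
  unfold Ph
  rw [Finsupp.add_apply, Finsupp.single_apply, Finsupp.single_apply]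

theorem PhS_unit (s : K) (f : SLn n →₀ K) (X : Mt n) (hX : PhS s f X ≠ 0) :
    ∃ g : SLn n, f g ≠ 0 ∧ (X = (g : Mt n) ∨ X = -(g : Mt n)) := by
  by_contra hcon
  push Not at hcon
  apply hX
  unfold PhS
  rw [Finsupp.linearCombination_apply, Finsupp.sum_apply]
  refine Finset.sum_eq_zero fun g hg => ?_
  obtain ⟨h1, h2⟩ := hcon g (Finsupp.mem_support_iff.1 hg)
  change (f g • Ph s g) X = 0
  rw [Finsupp.smul_apply, Ph_apply, if_neg (Ne.symm h1), if_neg (Ne.symm h2), add_zero, smul_zero]

theorem PhS_sym {s : K} (hs : s * s = 1) (f : SLn n →₀ K) (X : Mt n) :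
    PhS s f (-X) = s * PhS s f X := by
  induction f using Finsupp.induction_linear with
  | zero => simp
  | add f g hf hg => rw [map_add, Finsupp.add_apply, Finsupp.add_apply, hf, hg, mul_add]
  | single h c =>
    rw [PhS_single, Finsupp.smul_apply, Finsupp.smul_apply, Ph_apply, Ph_apply, smul_eq_mul,
      smul_eq_mul]
    have e1 : ((h : Mt n) = -X) = (-(h : Mt n) = X) := propext neg_eq_iff_eq_neg.symm
    have e2 : (-(h : Mt n) = -X) = ((h : Mt n) = X) := propext neg_inj
    simp only [e1, e2]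
    split_ifs
    · linear_combination (-c) * hs
    · linear_combination (-c) * hs
    · ring
    · ring

/-- the ideal becomes a `Bi` subspace -/
theorem bi_ideal (I : TwoSidedIdeal (MonoidAlgebra K (SLn n))) {s : K} (hs : s * s = 1) :
    Bi s ((IC I).map (PhS s)) where
  left g b hb := by
    obtain ⟨f, hf, rfl⟩ := hb
    rw [PhS_left]
    exact ⟨_, IC_left g hf, rfl⟩
  right g b hb := by
    obtain ⟨f, hf, rfl⟩ := hb
    rw [PhS_right]
    exact ⟨_, IC_right g hf, rfl⟩
  unit b hb X hX := by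
    obtain ⟨f, hf, rfl⟩ := hb
    obtain ⟨g, _, h⟩ := PhS_unit s f X hX
    exact ⟨g, h⟩
  sym b hb X := by
    obtain ⟨f, hf, rfl⟩ := hb
    exact PhS_sym hs f X

theorem ne_neg_self {n : ℕ} (hn : 0 < n) (g : SLn n) : (g : Mt n) ≠ -(g : Mt n) := by
  intro h
  have h0 : (g : Mt n) = 0 := by
    ext i j
    have := congrFun (congrFun h i) j
    rw [Matrix.neg_apply] at this
    rw [Matrix.zero_apply]
    omega
  have h1 := g.2
  have h2 : Nonempty (Fin n) := ⟨⟨0, hn⟩⟩
  rw [h0, Matrix.det_zero] at h1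
  exact absurd h1 (by norm_num)

theorem PhS_coe (s : K) (f : SLn n →₀ K) (hn : 0 < n) {g g' : SLn n}
    (hg : (g' : Mt n) = -(g : Mt n)) : PhS s f (g : Mt n) = f g + s * f g' := by
  have hne : g ≠ g' := by
    rintro rfl
    exact ne_neg_self hn g hg
  induction f using Finsupp.induction_linear with
  | zero => simp
  | add f f' hf hf' =>
    rw [map_add, Finsupp.add_apply, Finsupp.add_apply, Finsupp.add_apply, hf, hf']
    ring
  | single h c =>
    rw [PhS_single, Finsupp.smul_apply, Ph_apply, smul_eq_mul]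
    have e1 : ((h : Mt n) = (g : Mt n)) = (h = g) :=
      propext ⟨fun h' => Subtype.ext h', fun h' => by rw [h']⟩
    have e2 : (-(h : Mt n) = (g : Mt n)) = (h = g') := by
      apply propext
      constructor
      · intro h'
        apply Subtype.ext
        change (h : Mt n) = (g' : Mt n)
        rw [hg, ← h', neg_neg]
      · rintro rfl
        rw [hg, neg_neg]
    simp only [e1, e2]
    by_cases h1 : h = g
    · subst h1
      rw [if_pos rfl, if_neg hne, Finsupp.single_eq_same, Finsupp.single_apply, if_neg hne]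
      ring
    · by_cases h2 : h = g'
      · subst h2
        rw [if_neg h1, if_pos rfl, Finsupp.single_eq_same, Finsupp.single_apply, if_neg h1]
        ring
      · rw [if_neg h1, if_neg h2, Finsupp.single_apply, Finsupp.single_apply, if_neg h1, if_neg h2]
        ring

theorem PhS_coe' (s : K) (f : SLn n →₀ K) {g : SLn n}
    (hg : ∀ g' : SLn n, (g' : Mt n) ≠ -(g : Mt n)) : PhS s f (g : Mt n) = f g := by
  induction f using Finsupp.induction_linear with
  | zero => simp
  | add f f' hf hf' =>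
    rw [map_add, Finsupp.add_apply, Finsupp.add_apply, hf, hf']
  | single h c =>
    rw [PhS_single, Finsupp.smul_apply, Ph_apply, smul_eq_mul]
    have e1 : ((h : Mt n) = (g : Mt n)) = (h = g) :=
      propext ⟨fun h' => Subtype.ext h', fun h' => by rw [h']⟩
    have e2 : -(h : Mt n) ≠ (g : Mt n) := by
      intro h'
      exact hg h (by rw [← h', neg_neg])
    simp only [e1, if_neg e2]
    by_cases h1 : h = g
    · subst h1
      rw [if_pos rfl, Finsupp.single_eq_same]
      ring
    · rw [if_neg h1, Finsupp.single_apply, if_neg h1]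
      ring

/-- the kernel of the symmetrisation with sign `1` -/
theorem ker_one (hn : 0 < n) {z : SLn n} (hz : (z : Mt n) = -1) (x : SLn n →₀ K)
    (hx : PhS (1 : K) x = 0) : ∃ y : SLn n →₀ K, x = y - y.mapDomain fun h => z * h := by
  classical
  have hzz : z * z = 1 := by
    apply Subtype.ext
    change (z : Mt n) * (z : Mt n) = 1
    rw [hz]
    simp
  have hzg : ∀ g : SLn n, ((z * g : SLn n) : Mt n) = -(g : Mt n) := by
    intro g
    rw [Matrix.SpecialLinearGroup.coe_mul, hz]
    simp
  set L := Finsupp.lmapDomain K K (fun h : SLn n => z * h) with hL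
  have hLapp : ∀ (f : SLn n →₀ K) (g : SLn n), L f g = f (z * g) := by
    intro f g
    rw [hL, Finsupp.lmapDomain_apply]
    have h1 : g = z * (z * g) := by rw [← mul_assoc, hzz, one_mul]
    conv_lhs => rw [h1]
    exact Finsupp.mapDomain_apply (mul_right_injective z) f (z * g)
  have hLL : ∀ f : SLn n →₀ K, L (L f) = f := by
    intro f
    ext g
    rw [hLapp, hLapp, ← mul_assoc, hzz, one_mul]
  have hanti : ∀ g, x g + x (z * g) = 0 := by
    intro g
    have h1 := PhS_coe (1 : K) x hn (hzg g)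
    rw [hx, one_mul] at h1
    exact h1.symm
  have key : ∀ m : ℕ, ∀ x : SLn n →₀ K, x.support.card ≤ m → (∀ g, x g + x (z * g) = 0) →
      ∃ y : SLn n →₀ K, x = y - L y := by
    intro m
    induction m with
    | zero =>
      intro x hx _
      have : x = 0 := Finsupp.support_eq_empty.1 (Finset.card_eq_zero.1 (by omega))
      exact ⟨0, by rw [this]; simp⟩
    | succ m ih =>
      intro x hxc hxa
      by_cases hx0 : x = 0
      · exact ⟨0, by rw [hx0]; simp⟩
      obtain ⟨h, hh⟩ : ∃ h, x h ≠ 0 := by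
        by_contra hc
        push Not at hc
        exact hx0 (Finsupp.ext hc)
      have hzh : z * h ≠ h := by
        intro h'
        apply ne_neg_self hn h
        rw [← hzg h, h']
      set v : SLn n →₀ K := Finsupp.single h (x h) with hv
      have hvh : v h = x h := by rw [hv, Finsupp.single_eq_same]
      have hvg : ∀ g, g ≠ h → v g = 0 := fun g hg => by
        rw [hv, Finsupp.single_apply, if_neg (Ne.symm hg)]
      set x' := x - (v - L v) with hx'
      have hx'app : ∀ g, x' g = x g - (v g - v (z * g)) := by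
        intro g
        rw [hx', Finsupp.sub_apply, Finsupp.sub_apply, hLapp]
      have hsub : x'.support ⊆ x.support.erase h := by
        intro g hg
        rw [Finsupp.mem_support_iff, hx'app] at hg
        rw [Finset.mem_erase, Finsupp.mem_support_iff]
        have hgh : g ≠ h := by
          rintro rfl
          apply hg
          rw [hvh, hvg _ hzh]
          ring
        refine ⟨hgh, fun hxg => hg ?_⟩
        rw [hxg, hvg g hgh]
        have hzg' : z * g ≠ h := by
          intro h'
          have h2 := hxa g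
          rw [hxg, h', zero_add] at h2
          exact hh h2
        rw [hvg _ hzg']
        ring
      have hcard : x'.support.card ≤ m := by
        have h1 := Finset.card_le_card hsub
        rw [Finset.card_erase_of_mem (Finsupp.mem_support_iff.2 hh)] at h1
        omega
      obtain ⟨y, hy⟩ := ih x' hcard (by
        intro g
        have h1 := hxa g
        rw [hx'app, hx'app, ← mul_assoc, hzz, one_mul]
        linear_combination h1)
      refine ⟨y + v, ?_⟩
      have : x = x' + (v - L v) := by rw [hx']; abel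
      rw [this, hy, map_add]
      abel
  exact key _ x (le_refl _) hanti

/-- the kernel of the symmetrisation with sign `-1` -/
theorem ker_neg_one (hn : 0 < n) {z : SLn n} (hz : (z : Mt n) = -1) (x : SLn n →₀ K)
    (hx : PhS (-1 : K) x = 0) : (x.mapDomain fun h => z * h) = x := by
  have hzz : z * z = 1 := by
    apply Subtype.ext
    change (z : Mt n) * (z : Mt n) = 1
    rw [hz]
    simp
  have hzg : ∀ g : SLn n, ((z * g : SLn n) : Mt n) = -(g : Mt n) := by
    intro g
    rw [Matrix.SpecialLinearGroup.coe_mul, hz]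
    simp
  ext g
  have h1 : g = z * (z * g) := by rw [← mul_assoc, hzz, one_mul]
  have h2 := PhS_coe (-1 : K) x hn (hzg g)
  rw [hx] at h2
  have h3 : (x.mapDomain fun h => z * h) g = x (z * g) := by
    conv_lhs => rw [h1]
    exact Finsupp.mapDomain_apply (mul_right_injective z) x (z * g)
  rw [h3]
  have h4 : (0 : K) = x g + -1 * x (z * g) := h2
  linear_combination h4

/-- lifting the finiteness to the group algebra, one sign -/
theorem lift_sign (I : TwoSidedIdeal (MonoidAlgebra K (SLn n))) (s : K) (T : Finset (SLn n))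
    (hT : ∀ g : SLn n, Ph s g ∈ (IC I).map (PhS s) ⊔ Submodule.span K (Ph s '' (T : Set (SLn n))))
    (x : SLn n →₀ K) : ∃ d ∈ IC I ⊔ Submodule.span K
      ((fun t : SLn n => Finsupp.single t (1 : K)) '' (T : Set (SLn n))), PhS s (x - d) = 0 := by
  have h1 : (IC I).map (PhS s) ⊔ Submodule.span K (Ph s '' (T : Set (SLn n))) ≤
      (IC I ⊔ Submodule.span K
      ((fun t : SLn n => Finsupp.single t (1 : K)) '' (T : Set (SLn n)))).map (PhS s) := by
    refine sup_le (Submodule.map_mono le_sup_left) ?_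
    rw [Submodule.span_le]
    rintro _ ⟨t, ht, rfl⟩
    refine ⟨Finsupp.single t 1, Submodule.mem_sup_right (Submodule.subset_span ⟨t, ht, rfl⟩), ?_⟩
    rw [PhS_single, one_smul]
  have h2 : PhS s x ∈ (IC I ⊔ Submodule.span K
      ((fun t : SLn n => Finsupp.single t (1 : K)) '' (T : Set (SLn n)))).map (PhS s) := by
    unfold PhS
    rw [Finsupp.linearCombination_apply]
    refine Submodule.sum_mem _ fun g _ => Submodule.smul_mem _ _ (h1 (hT g))
  obtain ⟨d, hd, hd'⟩ := h2
  exact ⟨d, hd, by rw [map_sub, hd', sub_self]⟩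

/-- finite codimension from the two signs -/
theorem fin_codim (hn : 0 < n) (I : TwoSidedIdeal (MonoidAlgebra K (SLn n)))
    (h : ∀ s : K, (s = 1 ∨ s = -1) → ∃ T : Finset (SLn n), ∀ g : SLn n,
      Ph s g ∈ (IC I).map (PhS s) ⊔ Submodule.span K (Ph s '' (T : Set (SLn n)))) :
    ∃ T : Finset (SLn n), IC I ⊔ Submodule.span K
      ((fun t : SLn n => Finsupp.single t (1 : K)) '' (T : Set (SLn n))) = ⊤ := by
  classical
  obtain ⟨T1, hT1⟩ := h 1 (Or.inl rfl)
  obtain ⟨T2, hT2⟩ := h (-1) (Or.inr rfl)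
  by_cases hz : ∃ z : SLn n, (z : Mt n) = -1
  · obtain ⟨z, hz⟩ := hz
    refine ⟨T1 ∪ (T2 ∪ T2.image fun t => z * t), ?_⟩
    set D := IC I ⊔ Submodule.span K ((fun t : SLn n => Finsupp.single t (1 : K)) ''
      ((T1 ∪ (T2 ∪ T2.image fun t => z * t) : Finset (SLn n)) : Set (SLn n))) with hD
    have hmono : ∀ T : Finset (SLn n), T ⊆ T1 ∪ (T2 ∪ T2.image fun t => z * t) →
        IC I ⊔ Submodule.span K ((fun t : SLn n => Finsupp.single t (1 : K)) ''
          (T : Set (SLn n))) ≤ D := by
      intro T hT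
      exact sup_le_sup_left (Submodule.span_mono (Set.image_mono (Finset.coe_subset.2 hT))) _
    rw [eq_top_iff]
    rintro x -
    obtain ⟨d, hd, hdx⟩ := lift_sign I 1 T1 hT1 x
    obtain ⟨y, hy⟩ := ker_one hn hz _ hdx
    obtain ⟨e, he, hey⟩ := lift_sign I (-1) T2 hT2 y
    have h2 := ker_neg_one hn hz _ hey
    have hdD : d ∈ D := hmono T1 Finset.subset_union_left hd
    have heD : e ∈ D := hmono T2 (Finset.subset_union_left.trans Finset.subset_union_right) he
    have hle : IC I ⊔ Submodule.span K ((fun t : SLn n => Finsupp.single t (1 : K)) ''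
          (T2 : Set (SLn n))) ≤ D.comap (Finsupp.lmapDomain K K fun h : SLn n => z * h) := by
      refine sup_le ?_ ?_
      · intro f hf
        rw [Submodule.mem_comap, Finsupp.lmapDomain_apply]
        exact Submodule.mem_sup_left (IC_left z hf)
      · rw [Submodule.span_le]
        rintro _ ⟨t, ht, rfl⟩
        rw [SetLike.mem_coe, Submodule.mem_comap, Finsupp.lmapDomain_apply,
          Finsupp.mapDomain_single]
        refine Submodule.mem_sup_right (Submodule.subset_span ⟨z * t, ?_, rfl⟩)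
        rw [Finset.mem_coe]
        exact Finset.mem_union_right _ (Finset.mem_union_right _
          (Finset.mem_image_of_mem _ (Finset.mem_coe.1 ht)))
    have heD' : e.mapDomain (fun h => z * h) ∈ D := hle he
    have h3 : y - y.mapDomain (fun h => z * h) = e - e.mapDomain (fun h => z * h) := by
      have h4 : (y - e).mapDomain (fun h => z * h) =
          y.mapDomain (fun h => z * h) - e.mapDomain (fun h => z * h) := by
        have := map_sub (Finsupp.lmapDomain K K fun h : SLn n => z * h) y e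
        rwa [Finsupp.lmapDomain_apply, Finsupp.lmapDomain_apply, Finsupp.lmapDomain_apply] at this
      rw [h4] at h2
      have h5 : y.mapDomain (fun h => z * h) = e.mapDomain (fun h => z * h) + (y - e) := by
        rw [← h2]; abel
      rw [h5]
      abel
    have h4 : x = d + (e - e.mapDomain (fun h => z * h)) := by
      rw [← h3, ← hy]
      abel
    rw [h4]
    exact D.add_mem hdD (D.sub_mem heD heD')
  · refine ⟨T1, ?_⟩
    rw [eq_top_iff]
    rintro x -
    obtain ⟨d, hd, hdx⟩ := lift_sign I 1 T1 hT1 x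
    have h1 : x - d = 0 := by
      ext g
      rw [← PhS_coe' (1 : K) (x - d) (g := g), hdx]
      · rfl
      · intro g' hg'
        apply hz
        refine ⟨g' * g⁻¹, ?_⟩
        rw [Matrix.SpecialLinearGroup.coe_mul, hg', Matrix.neg_mul,
          ← Matrix.SpecialLinearGroup.coe_mul, mul_inv_cancel, Matrix.SpecialLinearGroup.coe_one]
    rw [sub_eq_zero] at h1
    rw [h1]
    exact hd

/-- ascending chains of ideals above an ideal of finite codimension -/
theorem chain_stops (I : ℕ → TwoSidedIdeal (MonoidAlgebra K (SLn n))) (hI : Monotone I)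
    (T : Finset (SLn n)) (j : ℕ) (hT : IC (I j) ⊔ Submodule.span K
      ((fun t : SLn n => Finsupp.single t (1 : K)) '' (T : Set (SLn n))) = ⊤) :
    ∃ m, ∀ k, m ≤ k → I k = I m := by
  set Q := (SLn n →₀ K) ⧸ IC (I j) with hQ
  have hfin : Module.Finite K Q := by
    have h1 : Submodule.map (IC (I j)).mkQ (Submodule.span K
        ((fun t : SLn n => Finsupp.single t (1 : K)) '' (T : Set (SLn n)))) = ⊤ := by
      have h2 := congrArg (Submodule.map (IC (I j)).mkQ) hT
      rw [Submodule.map_sup, Submodule.map_top, Submodule.range_mkQ] at h2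
      have h3 : Submodule.map (IC (I j)).mkQ (IC (I j)) = ⊥ := by
        rw [Submodule.eq_bot_iff]
        rintro _ ⟨x, hx, rfl⟩
        exact (Submodule.Quotient.mk_eq_zero _).2 hx
      rwa [h3, bot_sup_eq] at h2
    rw [Module.finite_def, ← h1]
    exact (Submodule.fg_span ((T.finite_toSet).image _)).map _
  have hnoeth : IsNoetherian K Q := inferInstance
  have hmono : Monotone fun k => Submodule.map (IC (I j)).mkQ (IC (I (j + k))) := by
    intro k k' hk
    refine Submodule.map_mono ?_
    intro f hf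
    exact hI (show j + k ≤ j + k' by omega) hf
  obtain ⟨m, hm⟩ := monotone_stabilizes_iff_noetherian.2 hnoeth
    ⟨fun k => Submodule.map (IC (I j)).mkQ (IC (I (j + k))), hmono⟩
  have hcomap : ∀ k, Submodule.comap (IC (I j)).mkQ
      (Submodule.map (IC (I j)).mkQ (IC (I (j + k)))) = IC (I (j + k)) := by
    intro k
    rw [Submodule.comap_map_eq, Submodule.ker_mkQ]
    refine sup_eq_left.2 ?_
    intro f hf
    exact hI (show j ≤ j + k by omega) hf
  refine ⟨j + m, fun k hk => ?_⟩
  obtain ⟨k', rfl⟩ : ∃ k', k = j + k' := ⟨k - j, by omega⟩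
  have h1 := hm k' (by omega)
  have h2 : IC (I (j + k')) = IC (I (j + m)) := by
    rw [← hcomap k', ← hcomap m]
    exact congrArg _ h1.symm
  ext x
  have h3 := Submodule.ext_iff.1 h2 x.coeff
  exact h3

end Pool.Agent.Lib.MP_41a456_al
end
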